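import Pool.Agent.Lib.AM.SpecA2

set_option linter.all false

/-!
# AM, part A: arrivals, one source, one request (`AoProp`)
-/

namespace Pool.Agent.AM

open Finset Pool.Agent.MP_a4c1f4_lc

section
variable {X K : Type} [Fintype X] [DecidableEq X] [Nonempty X] [Fintype K] [DecidableEq K]
  [Nonempty K]

private theorem Ao_owT (B : Blk X) (sg : K → X) (Lam : ℝ) (N : ℕ) (G : ℕ → X → ℕ) (i : ℕ)
    (z : X) (t : K ⊕ K) :
    B.owT sg Lam N G i t = some z ↔ ∃ x, t = Sum.inl x ∧ B.ow Lam N G i (sg x) = z := by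
  cases t with
  | inl v =>
    constructor
    · intro h
      refine ⟨v, rfl, ?_⟩
      have h' : (some (B.ow Lam N G i (sg v)) : Option X) = some z := h
      exact Option.some.inj h'
    · rintro ⟨x, hx, hz⟩
      have hvx : v = x := Sum.inl.inj hx
      subst hvx
      show (some (B.ow Lam N G i (sg v)) : Option X) = some z
      rw [hz]
  | inr v =>
    constructor
    · intro h
      have h' : (none : Option X) = some z := h
      cases h'
    · rintro ⟨x, hx, _⟩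
      cases hx

private theorem Ao_cell (B : Blk X) (sg : K → X) (Lam : ℝ) (N : ℕ) (G : ℕ → X → ℕ) (i : ℕ)
    (z : X) (x : K) (t : K ⊕ K) :
    (B.owT sg Lam N G i t = some z ∧ B.ow Lam N G i (sg x) ≠ z) ↔
    (¬ (∃ x', (Sum.inl x : K ⊕ K) = Sum.inl x' ∧ B.ow Lam N G i (sg x') = z) ∧
      (∃ x', t = Sum.inl x' ∧ B.ow Lam N G i (sg x') = z)) := by
  constructor
  · rintro ⟨h1, h2⟩
    refine ⟨?_, (Ao_owT B sg Lam N G i z t).1 h1⟩
    rintro ⟨x', hx', hz⟩
    have hxx : x = x' := Sum.inl.inj hx'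
    subst hxx
    exact h2 hz
  · rintro ⟨h1, h2⟩
    refine ⟨(Ao_owT B sg Lam N G i z t).2 h2, ?_⟩
    intro hz
    exact h1 ⟨x, rfl, hz⟩

end

private theorem Ao_err (mu Lam e S k : ℝ) (N : ℕ) (hmu : 0 < mu) (he0 : 0 ≤ e) (he1 : e ≤ 1)
    (hθ : 0 ≤ Lam / (N : ℝ)) (hk : 0 ≤ k) :
    0.1 / mu * e * (S + mu * Lam / N * (1 + (k + k))) ≤
      0.1 * e / mu * S + (k + 1) * (Lam / (N : ℝ)) := by
  have h1 : 0.1 / mu * e * (S + mu * Lam / N * (1 + (k + k))) =
      0.1 * e / mu * S + 0.1 * e * (Lam / (N : ℝ)) * (1 + (k + k)) := by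
    have hmu' : mu ≠ 0 := ne_of_gt hmu
    have h2 : mu * Lam / (N : ℝ) = mu * (Lam / (N : ℝ)) := by ring
    rw [h2]
    generalize Lam / (N : ℝ) = t
    field_simp
  rw [h1]
  have h3 : 0.1 * e * (Lam / (N : ℝ)) * (1 + (k + k)) ≤ (k + 1) * (Lam / (N : ℝ)) := by
    have h4 : 0.1 * e * (1 + (k + k)) ≤ k + 1 := by
      have h5 : e * (1 + (k + k)) ≤ 1 * (1 + (k + k)) :=
        mul_le_mul_of_nonneg_right he1 (by linarith)
      nlinarith [h5]
    calc 0.1 * e * (Lam / (N : ℝ)) * (1 + (k + k))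
        = (0.1 * e * (1 + (k + k))) * (Lam / (N : ℝ)) := by ring
      _ ≤ (k + 1) * (Lam / (N : ℝ)) := mul_le_mul_of_nonneg_right h4 hθ
  linarith

theorem aoP (hAr : ArB2) (hF : FmProp) : AoProp := by
  intro X K _ _ _ _ _ _ B sg Lam N D cl hOK i hi G hG z x l hl
  have hfam := hF X K B sg Lam N D cl hOK i hi G hG z
  have hLam := hOK.hLam
  have hN := hOK.hN
  have hmu := hOK.mu i hi
  have hv := hOK.vb i hi z
  have hlen : (l.map Sum.inl : List (K ⊕ K)).length + 1 ≤ Fintype.card (K ⊕ K) := by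
    rw [List.length_map, Fintype.card_sum]; omega
  have h := hAr (K ⊕ K) (fun j => B.c sg Lam N cl (upd G i z j))
      (fun j => dl B sg Lam N G i z j)
      (fun j t => ∃ x, t = Sum.inl x ∧ B.ow Lam N (upd G i z j) i (sg x) = z)
      (B.mu i) Lam (B.vb i z) N (Sum.inl x) (l.map Sum.inl) hLam hN hmu hv hfam hlen
  have hcard : ((Fintype.card (K ⊕ K) : ℕ) : ℝ) = (Fintype.card K : ℝ) + (Fintype.card K : ℝ) := by
    rw [Fintype.card_sum]; push_cast; ring
  have hL : ∑ j ∈ range N, tw Lam N j * (B.ex Lam N i z j *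
        ind (B.owT sg Lam N (upd G i z j) i (sv (B.c sg Lam N cl (upd G i z j)) x l) = some z ∧
          B.ow Lam N (upd G i z j) i (sg x) ≠ z)) =
      ∑ j ∈ range N, tw Lam N j * (exj Lam N (B.vb i z) j *
        ind (¬ (∃ x', (Sum.inl x : K ⊕ K) = Sum.inl x' ∧
            B.ow Lam N (upd G i z j) i (sg x') = z) ∧
          (∃ x', srv (B.c sg Lam N cl (upd G i z j)) (Sum.inl x) (l.map Sum.inl) = Sum.inl x' ∧
            B.ow Lam N (upd G i z j) i (sg x') = z))) := by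
    refine Finset.sum_congr rfl fun j _ => ?_
    have hpe := propext (Ao_cell B sg Lam N (upd G i z j) i z x
      (sv (B.c sg Lam N cl (upd G i z j)) x l))
    rw [hpe]
    rfl
  rw [hL]
  refine le_trans h ?_
  rw [hcard]
  have hN0 : 0 ≤ Lam / (N : ℝ) := div_nonneg (by linarith) (Nat.cast_nonneg N)
  have he1 : Real.exp (- B.vb i z) ≤ 1 := by
    rw [Real.exp_le_one_iff]; linarith
  have hfin := Ao_err (B.mu i) Lam (Real.exp (- B.vb i z))
    (∑ j ∈ range N, tw Lam N j * pr (B.c sg Lam N cl (upd G i z j)) x l)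
    (Fintype.card K : ℝ) N hmu (Real.exp_pos _).le he1 hN0 (Nat.cast_nonneg _)
  exact hfin

end Pool.Agent.AM
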