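import Pool.Agent.Lib.AM.A.ArrN

set_option linter.all false

/-!
AM, part A, file Arr: arrivals at the bottom field.
-/

namespace Pool.Agent.AM

open Finset Pool.Agent.MP_a4c1f4_lc

theorem arrP (hTw : TwProp) (hTC : TexCProp) (hE : EbProp) (hR : ErProp) (hB : BoProp)
    (hC : CnProp) (hP : PnProp) (hCr : CrProp) (hFa : FaProp) (hAo : AoProp) : ArrProp := by
  intro X K _ _ _ _ _ _ B sg Lam N D cl C l P hOK hBd
  have hL := hOK.hLam
  obtain ⟨hth, -⟩ := hTw Lam N hL hOK.hN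
  have hmu : 0 < B.mu 0 := hOK.mu 0 (Nat.zero_le _)
  have hex : ∀ G : ℕ → X → ℕ, Vl N G → ∀ z, 0 ≤ B.ex Lam N 0 z (G 0 z) ∧
      B.ex Lam N 0 z (G 0 z) ≤ Lam := by
    intro G hG z
    obtain ⟨-, -, h1, h2, -⟩ := hTC Lam N (B.vb 0 z) hL hOK.hN (hOK.vb 0 (Nat.zero_le _) z)
    exact ⟨h1 _, h2 _ (hG 0 z)⟩
  -- the price of the grid
  have hR2 : 2 * B.mu 0 * Lam ≤ B.R := by
    have h1 : B.mu 0 ≤ ∑ i ∈ range (B.h + 1), B.mu i :=
      Finset.single_le_sum (fun i hi => (hOK.mu i (Nat.lt_succ_iff.1 (Finset.mem_range.1 hi))).le)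
        (Finset.mem_range.2 (Nat.succ_pos _))
    have h2 := mul_le_mul_of_nonneg_right h1 (by linarith : (0 : ℝ) ≤ Lam)
    have h3 := hOK.noise
    linarith
  have hker : (0 : ℝ) ≤ er X K Lam N := by
    unfold er
    positivity
  have hP0 : 0 ≤ P := le_trans (mul_nonneg hOK.Rpos.le hker) hBd.er
  have hgrid : (Fintype.card X : ℝ) * ((Fintype.card K : ℝ) *
      (((Fintype.card K : ℝ) + 1) * (Lam / (N : ℝ)))) ≤ P / (10 * B.mu 0) := by
    rw [le_div_iff₀ (by positivity)]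
    refine le_trans ?_ hBd.er
    refine le_trans ?_ (mul_le_mul_of_nonneg_right hR2 hker)
    unfold er
    have e1 : 2 * B.mu 0 * Lam * (10000 * Lam ^ 3 * ((Fintype.card X : ℝ) + 1) ^ 2 *
        ((Fintype.card K : ℝ) + 1) ^ 2 / (N : ℝ)) =
        (2000 * Lam ^ 3) * (((Fintype.card X : ℝ) + 1) ^ 2 * ((Fintype.card K : ℝ) + 1) ^ 2) *
          (10 * B.mu 0 * (Lam / (N : ℝ))) := by ring
    have e2 : (Fintype.card X : ℝ) * ((Fintype.card K : ℝ) *
      (((Fintype.card K : ℝ) + 1) * (Lam / (N : ℝ)))) * (10 * B.mu 0) =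
      1 * ((Fintype.card X : ℝ) * ((Fintype.card K : ℝ) * ((Fintype.card K : ℝ) + 1))) *
          (10 * B.mu 0 * (Lam / (N : ℝ))) := by ring
    rw [e1, e2]
    have hx : (0 : ℝ) ≤ (Fintype.card X : ℝ) := Nat.cast_nonneg _
    have hk : (0 : ℝ) ≤ (Fintype.card K : ℝ) := Nat.cast_nonneg _
    have hL3 : (1 : ℝ) ≤ 2000 * Lam ^ 3 := by
      have : (1 : ℝ) ≤ Lam ^ 3 := one_le_pow₀ (by linarith)
      linarith
    refine mul_le_mul_of_nonneg_right (mul_le_mul hL3 (mul_le_mul ?_ ?_ (by positivity)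
      (by positivity)) (by positivity) (by positivity)) (by positivity)
    · nlinarith
    · nlinarith
  -- change of the law
  set s : ℕ → Bool := free sT 0 with hsdef
  have hs : s 0 = false := by
    rw [hsdef]
    unfold free
    rw [Function.update_self]
  have hV : ∀ G : ℕ → X → ℕ, (∀ i z, G i z < N) → Vl N G := fun G hG i z => (hG i z).le
  obtain ⟨-, -, -, -, hfr⟩ := hE X B Lam N D cl hOK sT
  obtain ⟨hmono, hconst, hadd, hsmul, -⟩ := hE X B Lam N D cl hOK s
  have harr0 : ∀ G : ℕ → X → ℕ, Vl N G → ∀ x l', 0 ≤ B.arr sg Lam N cl G x l' := by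
    intro G hG x l'
    unfold Blk.arr
    split
    · refine mul_nonneg (ind_nonneg _) ?_
      have := (hex G hG (B.ow Lam N G 0 (sg ‹K›))).1
      unfold Blk.exc
      linarith
    · exact le_refl _
  have h1 := hfr (fun G => psum (fun x l' => B.arr sg Lam N cl G x l') l) (fun G hG => by
    have h := Arr_mono (n := l.length) (f := fun (_ : K) (_ : List K) => (0 : ℝ))
      (g := fun x l' => B.arr sg Lam N cl G x l') (fun x l' _ => harr0 G (hV G hG) x l') l (le_refl _)
    rw [Arr_const] at h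
    simpa using h) 0 (Nat.zero_le _)
  -- pointwise bound
  have h2 : B.E Lam N s (fun G => psum (fun x l' => B.arr sg Lam N cl G x l') l) ≤
      B.E Lam N s (fun G => psum (fun x l' => ind (B.Crs sg Lam N cl G 0 x l') * 1) l +
        ((∑ z, psum (fun x l' => ind (D (sg x) z ≤ B.nr 0) * (B.ex Lam N 0 z (G 0 z) *
        ind (B.owT sg Lam N G 0 (sv (B.c sg Lam N cl G) x l') = some z ∧
          B.ow Lam N G 0 (sg x) ≠ z))) l) +
        Lam * psum (fun x l' => ind (B.FarE sg Lam N D cl G 0 x l')) l)) := by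
    refine hmono _ _ fun G hG _ => ?_
    rw [← Arr_sum, ← Arr_smul, ← Arr_add, ← Arr_add]
    refine Arr_mono (n := l.length) (fun x l' _ => ?_) l (le_refl _)
    obtain ⟨-, -, -, -, -, -, -, -, hsure, hsr⟩ :=
      hB X K B sg Lam N D cl hOK 0 (Nat.zero_le _) G (Classical.arbitrary X)
    exact Arr_pt B sg Lam N D cl hOK.pmD hsr (hOK.srnr 0 (Nat.zero_le _)) G (by linarith)
      (hex G (hV G hG)) (fun x => (hsure (hV G hG) x).1) x l'
  rw [hadd, hadd, hsmul, Arr_Esum] at h2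
  -- crossings
  have h3 := hCr X K B sg Lam N D cl C l P hOK hBd 0 (Nat.zero_le _) s hs (fun _ _ => 1)
    (fun _ _ _ => ⟨zero_le_one, by linarith⟩) (fun _ _ _ _ => rfl)
  have hopt : B.E Lam N s (fun G => psum (fun x l' => pr (B.c sg Lam N cl G) x l') l) ≤ P := by
    rw [← hconst P]
    refine hmono _ _ fun G hG _ => ?_
    obtain ⟨-, -, hc, -⟩ := hC X K B sg Lam N D cl hOK G (hV G hG)
    rw [(hP K _ hc).2.1]
    exact hBd.bd G (hV G hG)
  have h3' : B.E Lam N s (fun G => psum (fun x l' => pr (B.c sg Lam N cl G) x l' * 1) l) ≤ P := by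
    simp_rw [mul_one]
    exact hopt
  have h4 : 1 / B.mu 0 * (B.E Lam N s (fun G => psum (fun x l' =>
      pr (B.c sg Lam N cl G) x l' * 1) l) + P / 20) ≤ 1 / B.mu 0 * (P + P / 20) :=
    mul_le_mul_of_nonneg_left (by linarith) (by positivity)
  -- the near sources
  have h5 : ∑ z, B.E Lam N s (fun G => psum (fun x l' => ind (D (sg x) z ≤ B.nr 0) *
      (B.ex Lam N 0 z (G 0 z) *
        ind (B.owT sg Lam N G 0 (sv (B.c sg Lam N cl G) x l') = some z ∧
          B.ow Lam N G 0 (sg x) ≠ z))) l) ≤ 0.2 * (P / B.mu 0) := by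
    refine le_trans (Finset.sum_le_sum fun z _ => Arr_near hE hR hB hAo X K B sg Lam N D cl l
      hOK hBd.len s hs hth.le z) ?_
    rw [Finset.sum_add_distrib, Finset.sum_const, nsmul_eq_mul, Finset.card_univ, ← Arr_Esum]
    have h6 : B.E Lam N s (fun G => ∑ z, psum (fun x l' => ind (D (sg x) z ≤ B.nr 0) *
        (0.1 * Real.exp (- B.vb 0 z) / B.mu 0 * pr (B.c sg Lam N cl G) x l')) l) ≤
        B.E Lam N s (fun G => 0.1 / B.mu 0 *
          psum (fun x l' => pr (B.c sg Lam N cl G) x l') l) := by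
      refine hmono _ _ fun G hG _ => ?_
      rw [← Arr_sum, ← Arr_smul]
      refine Arr_mono (n := Fintype.card K) (fun x l' hl' => ?_) l hBd.len
      obtain ⟨-, -, hc, -⟩ := hC X K B sg Lam N D cl hOK G (hV G hG)
      have hp := (hP K _ hc).1 x l' hl'
      have h7 := hOK.count 0 (Nat.zero_le _) (sg x)
      have h8 := mul_le_mul_of_nonneg_right h7
        (by positivity : 0 ≤ 0.1 / B.mu 0 * pr (B.c sg Lam N cl G) x l')
      rw [Finset.sum_mul, one_mul] at h8
      refine le_trans (le_of_eq (Finset.sum_congr rfl fun z _ => ?_)) h8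
      ring
    rw [hsmul] at h6
    have h9 : 0.1 / B.mu 0 * B.E Lam N s (fun G =>
        psum (fun x l' => pr (B.c sg Lam N cl G) x l') l) ≤ 0.1 / B.mu 0 * P :=
      mul_le_mul_of_nonneg_left hopt (by positivity)
    have e3 : 0.1 / B.mu 0 * P = 0.1 * (P / B.mu 0) := by ring
    have e4 : P / (10 * B.mu 0) = 0.1 * (P / B.mu 0) := by
      rw [mul_comm (10 : ℝ), ← div_div]
      ring
    rw [e3] at h9
    rw [e4] at hgrid
    linarith
  -- the far sources
  have h10 := hFa X K B sg Lam N D cl C l P hOK hBd 0 (Nat.zero_le _) s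
  have h11 : Lam * B.E Lam N s (fun G => psum (fun x l' =>
      ind (B.FarE sg Lam N D cl G 0 x l')) l) ≤ 1 / 4 * (P / B.mu 0) := by
    refine le_trans (mul_le_mul_of_nonneg_left h10 (by linarith)) (le_of_eq ?_)
    have : Lam ≠ 0 := by positivity
    field_simp
  have e5 : 1 / B.mu 0 * (P + P / 20) = 1.05 * (P / B.mu 0) := by ring
  rw [e5] at h4
  have e6 : 200 / B.mu 0 * P = 200 * (P / B.mu 0) := by ring
  rw [e6]
  have hq : 0 ≤ P / B.mu 0 := div_nonneg hP0 hmu.le
  linarith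

end Pool.Agent.AM
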