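import Pool.Agent.Lib.AM.SpecA2

set_option linter.all false

/-! AM, part A, file Bo: one source of one field. -/

namespace Pool.Agent.AM

open Finset Pool.Agent.MP_a4c1f4_lc

private theorem Bo_upd {X : Type} [DecidableEq X] (G : ℕ → X → ℕ) (i : ℕ) (z : X) (j : ℕ) :
    upd G i z j i = Function.update (G i) z j := by
  simp [upd]

private theorem Bo_upd_ne {X : Type} [DecidableEq X] (G : ℕ → X → ℕ) (i i' : ℕ) (z : X) (j : ℕ)
    (h : i' ≠ i) : upd G i z j i' = G i' := by
  simp [upd, h]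

private theorem Bo_ow {X : Type} [Fintype X] [DecidableEq X] [Nonempty X] (B : Blk X) (Lam : ℝ)
    (N : ℕ) (G : ℕ → X → ℕ) (i : ℕ) (z : X) (j : ℕ) (x : X) :
    B.ow Lam N (upd G i z j) i x =
      own (B.dp i) (B.eta Lam N i) (Function.update (G i) z j) x := by
  unfold Blk.ow
  rw [Bo_upd]

private theorem Bo_pot {X : Type} [Fintype X] [DecidableEq X] [Nonempty X] (B : Blk X) (Lam : ℝ)
    (N : ℕ) (G : ℕ → X → ℕ) (i : ℕ) (hi : i ≤ B.h) (z : X) (j : ℕ) (x : X) :
    B.pot Lam N (upd G i z (j + 1)) x - B.pot Lam N (upd G i z j) x =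
      fd (B.dp i) (B.eta Lam N i) (Function.update (G i) z (j + 1)) x -
        fd (B.dp i) (B.eta Lam N i) (Function.update (G i) z j) x := by
  unfold Blk.pot
  rw [← sum_sub_distrib, sum_eq_single i]
  · rw [Bo_upd, Bo_upd]
  · intro i' _ hne
    rw [Bo_upd_ne G i i' z _ hne, Bo_upd_ne G i i' z _ hne, sub_self]
  · intro h
    exact absurd (mem_range.2 (by omega)) h

theorem boP (hA : FoAProp) (hB : FoBProp) : BoProp := by
  intro X K _ _ _ _ _ _ B sg Lam N D cl hOK i hi G z
  have hLam : 0 < Lam := by linarith [hOK.hLam]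
  have hN : (0 : ℝ) < N := by
    have := hOK.hN
    have h2 : 0 < Lam ^ 2 := by positivity
    linarith
  have heta : 0 < B.eta Lam N i := by
    unfold Blk.eta
    have := hOK.mu i hi
    positivity
  have hpm := hOK.pm i hi
  obtain ⟨hA1, hA2, -⟩ := hA X (B.dp i) (B.eta Lam N i) (G i) hpm heta
  obtain ⟨hB1, -, -, -⟩ := hB X (B.dp i) (B.eta Lam N i) (G i) hpm heta
  have hdl : ∀ j x, dl B sg Lam N G i z j (Sum.inl x) =
      fd (B.dp i) (B.eta Lam N i) (Function.update (G i) z (j + 1)) (sg x) -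
        fd (B.dp i) (B.eta Lam N i) (Function.update (G i) z j) (sg x) := by
    intro j x
    exact Bo_pot B Lam N G i hi z j (sg x)
  have hdr : ∀ j x, dl B sg Lam N G i z j (Sum.inr x) = 0 := by
    intro j x
    show (0 : ℝ) - 0 = 0
    ring
  have hsr : ∀ g : X → ℕ, (∀ z, g z ≤ N) → ∀ x,
      D x (own (B.dp i) (B.eta Lam N i) g x) ≤ B.sr i := by
    intro g hg x
    refine hOK.sure i hi g hg x _ ?_
    exact ((hA X (B.dp i) (B.eta Lam N i) g hpm heta).1 x _).2 rfl
  have hsr0 : 0 ≤ B.sr i := by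
    have x : X := Classical.arbitrary X
    have h1 := hsr (fun _ => 0) (fun _ => Nat.zero_le _) x
    have h2 := hOK.pmD.nonneg x (own (B.dp i) (B.eta Lam N i) (fun _ => 0) x)
    linarith
  refine ⟨heta, ?_, ?_, ?_, ?_, hdr, ?_, ?_, ?_, hsr0⟩
  · intro j r s
    unfold Blk.c cst dl
    ring
  · intro j t
    rcases t with x | x
    · rw [hdl, hdl]
      obtain ⟨b1, b2, b3, -, -⟩ := hB1 (sg x) z j
      exact ⟨b1, b2, b3⟩
    · rw [hdr, hdr]
      exact ⟨le_rfl, heta.le, le_rfl⟩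
  · intro j x h
    rw [Bo_ow] at h
    rw [hdl]
    exact (hB1 (sg x) z j).2.2.2.1 h
  · intro j x h
    rw [Bo_ow] at h
    rw [hdl]
    exact (hB1 (sg x) z j).2.2.2.2 h
  · intro j j' x hjj h
    rw [Bo_ow] at h ⊢
    exact hA2 x z j j' hjj h
  · intro hV j hj i' z'
    by_cases h : i' = i
    · rw [h, Bo_upd]
      by_cases hz : z' = z
      · rw [hz, Function.update_self]
        exact hj
      · rw [Function.update_of_ne hz]
        exact hV i z'
    · rw [Bo_upd_ne G i i' z j h]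
      exact hV i' z'
  · intro hV x
    have h1 : D x (B.ow Lam N G i x) ≤ B.sr i := hsr (G i) (hV i) x
    have h2 := hOK.srnr i hi
    exact ⟨h1, by linarith⟩

end Pool.Agent.AM
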