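import Pool.Agent.Lib.AM.SpecA2

set_option linter.all false

/-!
# AM, part A: the costs of a block (file Cn)
-/

namespace Pool.Agent.AM

open Finset Pool.Agent.MP_a4c1f4_lc

section
variable {X K : Type} [Fintype X] [DecidableEq X] [Nonempty X] {B : Blk X} {Lam : ℝ} {N : ℕ}
  {D : X → X → ℝ} {cl : X → List X}

private theorem Cn_Npos (h : B.OK Lam N D cl) : (0 : ℝ) < N := by
  have h1 := h.hLam
  have h2 := h.hN
  nlinarith

private theorem Cn_eta (h : B.OK Lam N D cl) {i : ℕ} (hi : i ≤ B.h) : 0 < B.eta Lam N i := by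
  unfold Blk.eta
  have h1 := h.hLam
  have h2 := h.mu i hi
  exact div_pos (mul_pos h2 (by linarith)) (Cn_Npos h)

private theorem Cn_etaN (h : B.OK Lam N D cl) (i : ℕ) : B.eta Lam N i * N = B.mu i * Lam := by
  unfold Blk.eta
  exact div_mul_cancel₀ _ (Cn_Npos h).ne'

private theorem Cn_fd (hB : FoBProp) (h : B.OK Lam N D cl) {i : ℕ} (hi : i ≤ B.h) (g : X → ℕ)
    (hg : ∀ z, g z ≤ N) (x : X) :
    0 ≤ fd (B.dp i) (B.eta Lam N i) g x ∧ fd (B.dp i) (B.eta Lam N i) g x ≤ B.mu i * Lam := by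
  obtain ⟨_, _, h3, h4⟩ := hB X (B.dp i) (B.eta Lam N i) g (h.pm i hi) (Cn_eta h hi)
  refine ⟨h3 x, ?_⟩
  rw [← Cn_etaN h i]
  exact h4 N hg x

private theorem Cn_pot (hB : FoBProp) (h : B.OK Lam N D cl) (G : ℕ → X → ℕ) (hG : Vl N G)
    (x : X) : 0 ≤ B.pot Lam N G x ∧ B.pot Lam N G x ≤ B.R / 2 := by
  unfold Blk.pot
  refine ⟨Finset.sum_nonneg fun i hi => (Cn_fd hB h (Nat.lt_succ_iff.mp (Finset.mem_range.mp hi))
    (G i) (hG i) x).1, ?_⟩
  refine le_trans ?_ h.noise
  rw [Finset.sum_mul]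
  exact Finset.sum_le_sum fun i hi => (Cn_fd hB h (Nat.lt_succ_iff.mp (Finset.mem_range.mp hi))
    (G i) (hG i) x).2

private theorem Cn_lip (hB : FoBProp) (h : B.OK Lam N D cl) (G : ℕ → X → ℕ) (x v : X) :
    |B.pot Lam N G x - B.pot Lam N G v| ≤ B.W x v := by
  unfold Blk.pot Blk.W
  rw [← Finset.sum_sub_distrib]
  refine (Finset.abs_sum_le_sum_abs _ _).trans (Finset.sum_le_sum fun i hi => ?_)
  have hi' := Nat.lt_succ_iff.mp (Finset.mem_range.mp hi)
  exact (hB X (B.dp i) (B.eta Lam N i) (G i) (h.pm i hi') (Cn_eta h hi')).2.1 x v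

private theorem Cn_dpW (h : B.OK Lam N D cl) {i : ℕ} (hi : i ≤ B.h) (x v : X) :
    B.dp i x v ≤ B.W x v := by
  unfold Blk.W
  exact Finset.single_le_sum (f := fun i => B.dp i x v)
    (fun k hk => (h.pm k (Nat.lt_succ_iff.mp (Finset.mem_range.mp hk))).nonneg x v)
    (Finset.mem_range.mpr (Nat.lt_succ_iff.mpr hi))

private theorem Cn_W (h : B.OK Lam N D cl) (x v : X) : 0 ≤ B.W x v :=
  Finset.sum_nonneg fun k hk => (h.pm k (Nat.lt_succ_iff.mp (Finset.mem_range.mp hk))).nonneg x v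

private theorem Cn_same (hB : FoBProp) (sg : K → X) (h : B.OK Lam N D cl) (G : ℕ → X → ℕ)
    (x v : K) (hc : cl (sg x) = cl (sg v)) :
    B.W (sg x) (sg v) ≤ B.c sg Lam N cl G (Sum.inl x) (Sum.inl v) ∧
      B.c sg Lam N cl G (Sum.inl x) (Sum.inl v) ≤ 3 * B.W (sg x) (sg v) := by
  have h1 := abs_le.mp (Cn_lip hB h G (sg x) (sg v))
  have e : B.c sg Lam N cl G (Sum.inl x) (Sum.inl v) =
      2 * B.W (sg x) (sg v) + B.pot Lam N G (sg x) - B.pot Lam N G (sg v) := by
    simp only [Blk.c, cst, Blk.dist, Blk.potT, if_pos hc]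
  rw [e]
  constructor <;> linarith [h1.1, h1.2]

private theorem Cn_diff (hB : FoBProp) (sg : K → X) (h : B.OK Lam N D cl) (G : ℕ → X → ℕ)
    (hG : Vl N G) (x v : K) (hc : cl (sg x) ≠ cl (sg v)) :
    3 * B.R ≤ B.c sg Lam N cl G (Sum.inl x) (Sum.inl v) := by
  have h1 := Cn_pot hB h G hG (sg x)
  have h2 := Cn_pot hB h G hG (sg v)
  have h3 := h.Rpos
  have e : B.c sg Lam N cl G (Sum.inl x) (Sum.inl v) =
      4 * B.R + B.pot Lam N G (sg x) - B.pot Lam N G (sg v) := by
    simp only [Blk.c, cst, Blk.dist, Blk.potT, if_neg hc]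
  rw [e]
  linarith [h1.1, h2.2]

private theorem Cn_dum (hB : FoBProp) (sg : K → X) (h : B.OK Lam N D cl) (G : ℕ → X → ℕ)
    (hG : Vl N G) (x v : K) :
    B.R ≤ B.c sg Lam N cl G (Sum.inl x) (Sum.inr v) ∧
      B.c sg Lam N cl G (Sum.inl x) (Sum.inr v) ≤ 3 / 2 * B.R := by
  have h1 := Cn_pot hB h G hG (sg x)
  have h3 := h.Rpos
  have e : B.c sg Lam N cl G (Sum.inl x) (Sum.inr v) = B.R + B.pot Lam N G (sg x) - 0 := by
    simp only [Blk.c, cst, Blk.dist, Blk.potT]
  rw [e]
  constructor <;> linarith [h1.1, h1.2]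

private theorem Cn_potT (hB : FoBProp) (sg : K → X) (h : B.OK Lam N D cl) (G : ℕ → X → ℕ)
    (hG : Vl N G) (s : K ⊕ K) : 0 ≤ B.potT sg Lam N G s ∧ B.potT sg Lam N G s ≤ B.R / 2 := by
  cases s with
  | inl x => exact Cn_pot hB h G hG (sg x)
  | inr x =>
    have h3 := h.Rpos
    constructor
    · exact le_refl 0
    · change (0 : ℝ) ≤ B.R / 2
      linarith

private theorem Cn_nonneg (hB : FoBProp) (sg : K → X) (h : B.OK Lam N D cl) (G : ℕ → X → ℕ)
    (hG : Vl N G) (r s : K ⊕ K) : 0 ≤ B.c sg Lam N cl G r s := by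
  have h3 := h.Rpos
  cases r with
  | inl x =>
    cases s with
    | inl v =>
      by_cases hc : cl (sg x) = cl (sg v)
      · exact (Cn_W h (sg x) (sg v)).trans (Cn_same hB sg h G x v hc).1
      · exact le_trans (by linarith) (Cn_diff hB sg h G hG x v hc)
    | inr v => exact h3.le.trans (Cn_dum hB sg h G hG x v).1
  | inr x =>
    have h1 := Cn_potT hB sg h G hG s
    have e : B.c sg Lam N cl G (Sum.inr x) s = 4 * B.R + 0 - B.potT sg Lam N G s := by
      cases s <;> simp only [Blk.c, cst, Blk.dist, Blk.potT]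
    rw [e]
    linarith [h1.2]

private theorem Cn_upd (G : ℕ → X → ℕ) (i : ℕ) (z : X) (j : ℕ) :
    (upd G i z j) i = Function.update (G i) z j := by
  unfold upd
  rw [Function.update_self]

private theorem Cn_updne (G : ℕ → X → ℕ) (i k : ℕ) (z : X) (j : ℕ) (hk : k ≠ i) :
    (upd G i z j) k = G k := by
  unfold upd
  rw [Function.update_of_ne hk]

private theorem Cn_vl {G : ℕ → X → ℕ} (hG : Vl N G) (i : ℕ) (z : X) {j : ℕ} (hj : j ≤ N) :
    Vl N (upd G i z j) := by
  intro k w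
  by_cases hk : k = i
  · subst hk
    rw [Cn_upd]
    by_cases hw : w = z
    · subst hw
      rw [Function.update_self]
      exact hj
    · rw [Function.update_of_ne hw]
      exact hG k w
  · rw [Cn_updne G i k z j hk]
    exact hG k w

private theorem Cn_dif (G : ℕ → X → ℕ) {i : ℕ} (hi : i ≤ B.h) (z : X) (j j' : ℕ) (x : X) :
    B.pot Lam N (upd G i z j') x - B.pot Lam N (upd G i z j) x =
      fd (B.dp i) (B.eta Lam N i) (Function.update (G i) z j') x -
        fd (B.dp i) (B.eta Lam N i) (Function.update (G i) z j) x := by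
  unfold Blk.pot
  rw [← Finset.sum_sub_distrib, Finset.sum_eq_single i]
  · rw [Cn_upd, Cn_upd]
  · intro k _ hk
    rw [Cn_updne G i k z j hk, Cn_updne G i k z j' hk, sub_self]
  · intro hn
    exact absurd (Finset.mem_range.mpr (Nat.lt_succ_iff.mpr hi)) hn

private theorem Cn_mono (hB : FoBProp) (h : B.OK Lam N D cl) {i : ℕ} (hi : i ≤ B.h) (g : X → ℕ)
    (z : X) {j j' : ℕ} (hj : j ≤ j') (x : X) :
    fd (B.dp i) (B.eta Lam N i) (Function.update g z j) x ≤
      fd (B.dp i) (B.eta Lam N i) (Function.update g z j') x := by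
  have h1 := (hB X (B.dp i) (B.eta Lam N i) g (h.pm i hi) (Cn_eta h hi)).1
  induction j', hj using Nat.le_induction with
  | base => exact le_refl _
  | succ k _ ih =>
    have := (h1 x z k).1
    linarith

private theorem Cn_zero (hA : FoAProp) (hB : FoBProp) (h : B.OK Lam N D cl) {i : ℕ}
    (hi : i ≤ B.h) (g : X → ℕ) (z : X) {j j' : ℕ} (hj : j ≤ j') (x : X) :
    own (B.dp i) (B.eta Lam N i) (Function.update g z j') x ≠ z →
    fd (B.dp i) (B.eta Lam N i) (Function.update g z j') x -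
      fd (B.dp i) (B.eta Lam N i) (Function.update g z j) x = 0 := by
  have h1 := (hB X (B.dp i) (B.eta Lam N i) g (h.pm i hi) (Cn_eta h hi)).1
  have h2 := (hA X (B.dp i) (B.eta Lam N i) g (h.pm i hi) (Cn_eta h hi)).2.1
  induction j', hj using Nat.le_induction with
  | base =>
    intro _
    exact sub_self _
  | succ k hk ih =>
    intro hne
    have h3 : own (B.dp i) (B.eta Lam N i) (Function.update g z k) x ≠ z := fun h4 =>
      hne (h2 x z k (k + 1) (Nat.le_succ k) h4)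
    have h5 := (h1 x z k).2.2.2.2 hne
    have h6 := ih h3
    linarith

end

/-- **Cn** -/
theorem cnP (hA : FoAProp) (hB : FoBProp) (hBo : BoProp) : CnProp := by
  intro X K _ _ _ _ _ _ B sg Lam N D cl h G hG
  refine ⟨Cn_pot hB h G hG, Cn_lip hB h G, Cn_nonneg hB sg h G hG, Cn_same hB sg h G,
    Cn_dum hB sg h G hG, Cn_diff hB sg h G hG, ?_⟩
  intro i hi z j j' hj hj' x s
  have hR := h.Rpos
  have hGj : Vl N (upd G i z j) := Cn_vl hG i z (hj.trans hj')
  have hψ : ∀ y : K, B.potT sg Lam N (upd G i z j') (Sum.inl y) -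
      B.potT sg Lam N (upd G i z j) (Sum.inl y) =
      fd (B.dp i) (B.eta Lam N i) (Function.update (G i) z j') (sg y) -
        fd (B.dp i) (B.eta Lam N i) (Function.update (G i) z j) (sg y) := fun y =>
    Cn_dif G hi z j j' (sg y)
  have hψ0 : ∀ y : K, 0 ≤ B.potT sg Lam N (upd G i z j') (Sum.inl y) -
      B.potT sg Lam N (upd G i z j) (Sum.inl y) := fun y => by
    rw [hψ]
    have := Cn_mono hB h hi (G i) z hj (sg y)
    linarith
  have hψR : B.potT sg Lam N (upd G i z j') (Sum.inl x) -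
      B.potT sg Lam N (upd G i z j) (Sum.inl x) ≤ B.R / 2 := by
    have h1 := (Cn_potT hB sg h (upd G i z j') (Cn_vl hG i z hj') (Sum.inl x)).2
    have h2 := (Cn_potT hB sg h (upd G i z j) hGj (Sum.inl x)).1
    linarith
  have hdum : ∀ v : K, B.potT sg Lam N (upd G i z j') (Sum.inr v) -
      B.potT sg Lam N (upd G i z j) (Sum.inr v) = 0 := fun v => sub_self _
  refine ⟨?_, ?_, ?_⟩
  · cases s with
    | inl v => exact hψ0 v
    | inr v => exact (hdum v).ge
  · intro hne
    rw [hψ]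
    apply Cn_zero hA hB h hi (G i) z hj (sg x)
    rw [← Cn_upd G i z j']
    exact hne
  · cases s with
    | inl v =>
      by_cases hc : cl (sg x) = cl (sg v)
      · have h1 := (Cn_same hB sg h (upd G i z j) x v hc).1
        have h2 := Cn_dpW h hi (sg x) (sg v)
        have h3 := (hB X (B.dp i) (B.eta Lam N i) (Function.update (G i) z j') (h.pm i hi)
          (Cn_eta h hi)).2.1 (sg x) (sg v)
        have h4 := (hB X (B.dp i) (B.eta Lam N i) (Function.update (G i) z j) (h.pm i hi)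
          (Cn_eta h hi)).2.1 (sg x) (sg v)
        rw [hψ, hψ]
        have h5 := abs_le.mp h3
        have h6 := abs_le.mp h4
        linarith [h5.2, h6.1]
      · have h1 := Cn_diff hB sg h (upd G i z j) hGj x v hc
        have h2 := hψ0 v
        linarith
    | inr v =>
      have h1 := (Cn_dum hB sg h (upd G i z j) hGj x v).1
      rw [hdum v]
      linarith

end Pool.Agent.AM
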