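import Pool.Agent.Lib.AM.SpecA2

set_option linter.all false

/-! AM, part A: one source, one request (crossings). -/

namespace Pool.Agent.AM

open Finset Pool.Agent.MP_a4c1f4_lc

private theorem Co_cell {X K : Type} [Fintype X] [DecidableEq X] [Nonempty X] (B : Blk X)
    (sg : K → X) (Lam : ℝ) (N : ℕ) (G : ℕ → X → ℕ) (i : ℕ) (z : X) (y : K ⊕ K) :
    (∃ x', y = Sum.inl x' ∧ B.ow Lam N G i (sg x') = z) ↔ B.owT sg Lam N G i y = some z := by
  constructor
  · rintro ⟨x', rfl, h⟩
    show some (B.ow Lam N G i (sg x')) = some z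
    rw [h]
  · intro h
    rcases y with v | v
    · refine ⟨v, rfl, ?_⟩
      have h' : some (B.ow Lam N G i (sg v)) = some z := h
      exact Option.some.inj h'
    · exact absurd (show (none : Option X) = some z from h) (by simp)

theorem coAP (hX : CroB) (hF : FmProp) : CoAProp := by
  intro X K _ _ _ _ _ _ B sg Lam N D cl hOK i hi G hG z x l hl
  have F := hF X K B sg Lam N D cl hOK i hi G hG z
  have hcard : Fintype.card (K ⊕ K) = 2 * Fintype.card K := by
    rw [Fintype.card_sum]
    ring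
  have h := hX (K ⊕ K) _ _ _ (B.mu i) Lam N (Sum.inl x) (l.map Sum.inl) hOK.hLam hOK.hN
    (hOK.mu i hi) F (by rw [List.length_map, hcard]; omega)
  have hind : ∀ j, ind (∃ x', (Sum.inl x : K ⊕ K) = Sum.inl x' ∧
      B.ow Lam N (upd G i z j) i (sg x') = z) = ind (B.ow Lam N (upd G i z j) i (sg x) = z) := by
    intro j
    congr 1
    apply propext
    constructor
    · rintro ⟨x', hx', h'⟩
      rw [← Sum.inl.inj hx'] at h'
      exact h'
    · intro h'
      exact ⟨x, rfl, h'⟩
  have hL : ∀ j, ind (B.ow Lam N (upd G i z j) i (sg x) = z) *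
        ind (B.Crs sg Lam N cl (upd G i z j) i x l) =
      ind ((∃ x', (Sum.inl x : K ⊕ K) = Sum.inl x' ∧ B.ow Lam N (upd G i z j) i (sg x') = z) ∧
        ¬ ∃ x', srv (B.c sg Lam N cl (upd G i z j)) (Sum.inl x) (l.map Sum.inl) = Sum.inl x' ∧
          B.ow Lam N (upd G i z j) i (sg x') = z) := by
    intro j
    rw [← hind j]
    by_cases hj : ∃ x', (Sum.inl x : K ⊕ K) = Sum.inl x' ∧
        B.ow Lam N (upd G i z j) i (sg x') = z
    · rw [ind_true hj, one_mul]
      have hox : B.ow Lam N (upd G i z j) i (sg x) = z := by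
        obtain ⟨x', hx', h'⟩ := hj
        rw [← Sum.inl.inj hx'] at h'
        exact h'
      congr 1
      apply propext
      constructor
      · intro h1
        refine ⟨hj, fun h2 => h1 ?_⟩
        rw [hox]
        exact (Co_cell B sg Lam N (upd G i z j) i z _).1 h2
      · intro h1 h2
        apply h1.2
        rw [hox] at h2
        exact (Co_cell B sg Lam N (upd G i z j) i z _).2 h2
    · rw [ind_false hj, zero_mul, ind_false]
      exact fun h1 => hj h1.1
  have hθ : 0 ≤ Lam / (N : ℝ) := div_nonneg (by linarith [hOK.hLam]) (Nat.cast_nonneg N)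
  have hk : (Fintype.card (K ⊕ K) : ℝ) = 2 * (Fintype.card K : ℝ) := by
    rw [hcard]
    push_cast
    ring
  rw [Finset.sum_congr rfl fun j _ => by rw [hL j]]
  refine le_trans h ?_
  rw [hk]
  have e1 : ∀ j, ind (∃ x', (Sum.inl x : K ⊕ K) = Sum.inl x' ∧
      B.ow Lam N (upd G i z j) i (sg x') = z) *
        prT (B.c sg Lam N cl (upd G i z j)) (Sum.inl x) (l.map Sum.inl) =
      ind (B.ow Lam N (upd G i z j) i (sg x) = z) * pr (B.c sg Lam N cl (upd G i z j)) x l := by
    intro j
    rw [hind j]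
    rfl
  have e2 : prT (B.c sg Lam N cl (upd G i z N)) (Sum.inl x) (l.map Sum.inl) =
      pr (B.c sg Lam N cl (upd G i z N)) x l := rfl
  have e3 : ∑ j ∈ range N, tw Lam N j * (ind (∃ x', (Sum.inl x : K ⊕ K) = Sum.inl x' ∧
      B.ow Lam N (upd G i z j) i (sg x') = z) *
        prT (B.c sg Lam N cl (upd G i z j)) (Sum.inl x) (l.map Sum.inl)) =
      ∑ j ∈ range N, tw Lam N j * (ind (B.ow Lam N (upd G i z j) i (sg x) = z) *
        pr (B.c sg Lam N cl (upd G i z j)) x l) :=
    Finset.sum_congr rfl fun j _ => by rw [e1 j]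
  have e4 : 1 / B.mu i * (∑ j ∈ range N, tw Lam N j * (ind (∃ x', (Sum.inl x : K ⊕ K) = Sum.inl x' ∧
      B.ow Lam N (upd G i z j) i (sg x') = z) *
        prT (B.c sg Lam N cl (upd G i z j)) (Sum.inl x) (l.map Sum.inl)) +
        2 * Real.exp (-Lam) * prT (B.c sg Lam N cl (upd G i z N)) (Sum.inl x) (l.map Sum.inl)) =
      1 / B.mu i * (∑ j ∈ range N, tw Lam N j * (ind (B.ow Lam N (upd G i z j) i (sg x) = z) *
        pr (B.c sg Lam N cl (upd G i z j)) x l) +
        2 * Real.exp (-Lam) * pr (B.c sg Lam N cl (upd G i z N)) x l) := by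
    rw [e3, e2]
  have e5 : 2 * (Lam / (N : ℝ)) * (1 + 2 * (Fintype.card K : ℝ)) ≤
      4 * ((Fintype.card K : ℝ) + 1) * (Lam / (N : ℝ)) := by nlinarith
  exact add_le_add (le_of_eq e4) e5

end Pool.Agent.AM
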