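import Pool.Agent.Lib.AM.SpecA2

set_option linter.all false

/-!
# AM, part A: the crossing inequality when the field has the product law
-/

namespace Pool.Agent.AM

open Finset Pool.Agent.MP_a4c1f4_lc

private theorem Cr_sum {S ι : Type} (A : Finset ι) (f : ι → S → List S → ℝ) (l : List S) :
    psum (fun x l' => ∑ z ∈ A, f z x l') l = ∑ z ∈ A, psum (f z) l := by
  induction l with
  | nil => simp [psum]
  | cons x l ih => simp only [psum]; rw [ih, Finset.sum_add_distrib]

private theorem Cr_mul {S : Type} (a : ℝ) (f : S → List S → ℝ) (l : List S) :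
    psum (fun x l' => a * f x l') l = a * psum f l := by
  induction l with
  | nil => simp [psum]
  | cons x l ih => simp only [psum]; rw [ih]; ring

private theorem Cr_add {S : Type} (f g : S → List S → ℝ) (l : List S) :
    psum (fun x l' => f x l' + g x l') l = psum f l + psum g l := by
  induction l with
  | nil => simp [psum]
  | cons x l ih => simp only [psum]; rw [ih]; ring

private theorem Cr_const {S : Type} (a : ℝ) (l : List S) :
    psum (fun _ _ => a) l = a * l.length := by
  induction l with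
  | nil => simp [psum]
  | cons x l ih => simp only [psum]; rw [ih, List.length_cons]; push_cast; ring

private theorem Cr_le {S : Type} (n : ℕ) (f g : S → List S → ℝ) (l : List S) (hl : l.length ≤ n)
    (h : ∀ x l', l'.length + 1 ≤ n → f x l' ≤ g x l') : psum f l ≤ psum g l := by
  induction l with
  | nil => simp [psum]
  | cons x l ih =>
    simp only [psum]
    have h1 : l.length + 1 ≤ n := hl
    exact add_le_add (ih (by omega)) (h x l h1)

private theorem Cr_E_sum {X ι : Type} [Fintype X] [DecidableEq X] [Nonempty X] (B : Blk X) (Lam : ℝ)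
    (N : ℕ) (s : ℕ → Bool) (A : Finset ι) (f : ι → (ℕ → X → ℕ) → ℝ) :
    B.E Lam N s (fun G => ∑ z ∈ A, f z G) = ∑ z ∈ A, B.E Lam N s (f z) := by
  unfold Blk.E
  rw [Finset.sum_comm]
  refine Finset.sum_congr rfl fun g _ => ?_
  rw [Finset.mul_sum]

private theorem Cr_one {X : Type} [Fintype X] [DecidableEq X] (y : X) (a : ℝ) :
    a = ∑ z : X, ind (y = z) * a := by
  rw [← Finset.sum_mul]
  have h : ∑ z : X, ind (y = z) = 1 := by
    rw [Finset.sum_eq_single y]
    · exact ind_true rfl
    · intro b _ hb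
      exact ind_false (fun h => hb h.symm)
    · intro h
      exact absurd (Finset.mem_univ y) h
  rw [h, one_mul]

/-- the constants -/
private theorem Cr_num (Lam mu R P m k e : ℝ) (N : ℝ) (hLam : 24 ≤ Lam) (hmu : 0 < mu) (hm : 0 ≤ m)
    (hk : 0 ≤ k) (hN : 0 < N) (hR : mu * Lam ≤ R / 2)
    (hP : R * (10000 * Lam ^ 3 * (m + 1) ^ 2 * (k + 1) ^ 2 / N) ≤ P)
    (he0 : 0 ≤ e) (he : m * (Lam + 1) * e ≤ 1 / 100) :
    m * (1 / mu * (2 * e * ((Lam + 1) * P)) + (4 * (k + 1) * (Lam / N)) * (Lam + 1) * k) ≤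
      1 / mu * (P / 20) := by
  have hA : 0 ≤ Lam ^ 3 * (m + 1) ^ 2 * (k + 1) ^ 2 / N := by positivity
  have h1 : 2 * mu * Lam * (10000 * Lam ^ 3 * (m + 1) ^ 2 * (k + 1) ^ 2 / N) ≤ P := by
    refine le_trans ?_ hP
    apply mul_le_mul_of_nonneg_right
    · linarith
    · positivity
  have hP0 : 0 ≤ P := le_trans (by positivity) h1
  have h2 : m * (1 / mu * (2 * e * ((Lam + 1) * P))) ≤ 1 / mu * (P / 50) := by
    have h3 : m * (1 / mu * (2 * e * ((Lam + 1) * P))) = 1 / mu * (2 * P * (m * (Lam + 1) * e)) := by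
      ring
    rw [h3]
    apply mul_le_mul_of_nonneg_left _ (by positivity)
    nlinarith
  have h4 : m * ((4 * (k + 1) * (Lam / N)) * (Lam + 1) * k) ≤ 1 / mu * (P / 50) := by
    rw [one_div, inv_mul_eq_div, le_div_iff₀ hmu]
    have h5 : m * ((4 * (k + 1) * (Lam / N)) * (Lam + 1) * k) * mu ≤
        (2 * mu * Lam * (10000 * Lam ^ 3 * (m + 1) ^ 2 * (k + 1) ^ 2 / N)) / 50 := by
      have h6 : m * ((4 * (k + 1) * (Lam / N)) * (Lam + 1) * k) * mu =
          (mu * (Lam / N)) * (4 * (m * k * (k + 1) * (Lam + 1))) := by ring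
      have h7 : (2 * mu * Lam * (10000 * Lam ^ 3 * (m + 1) ^ 2 * (k + 1) ^ 2 / N)) / 50 =
          (mu * (Lam / N)) * (400 * (Lam ^ 3 * ((m + 1) ^ 2 * (k + 1) ^ 2))) := by ring
      rw [h6, h7]
      apply mul_le_mul_of_nonneg_left _ (by positivity)
      have h8 : m * k * (k + 1) ≤ (m + 1) ^ 2 * (k + 1) ^ 2 := by
        have h9 : m ≤ (m + 1) ^ 2 := by nlinarith
        have h10 : k * (k + 1) ≤ (k + 1) ^ 2 := by nlinarith
        have := mul_le_mul h9 h10 (by positivity) (by positivity)
        linarith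
      have h11 : Lam + 1 ≤ Lam ^ 3 := by nlinarith [sq_nonneg (Lam - 1), mul_self_nonneg Lam]
      have h12 := mul_le_mul h8 h11 (by positivity) (by positivity)
      nlinarith [mul_nonneg (mul_nonneg hm hk) (add_nonneg hk zero_le_one)]
    linarith
  have h13 : 1 / mu * (P / 20) = 1 / mu * (P / 50) + 1 / mu * (P / 50) + 1 / mu * (P / 100) := by ring
  have h14 : 0 ≤ 1 / mu * (P / 100) := by positivity
  rw [mul_add, h13]
  linarith

theorem crP (hTw : TwProp) (hE : EbProp) (hR : ErProp) (hB : BoProp) (hC : CnProp) (hP : PnProp)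
    (hCo : CoAProp) : CrProp := by
  intro X K _ _ _ _ _ _ B sg Lam N D cl C l P hOK hBd i hi s hs w hw hwi
  obtain ⟨hθ0, _, _, _, _, _, htw, _, _, _⟩ := hTw Lam N hOK.hLam hOK.hN
  have hmu := hOK.mu i hi
  obtain ⟨mu, hmu'⟩ : ∃ mu, mu = B.mu i := ⟨_, rfl⟩
  rw [← hmu'] at hmu ⊢
  have hlen : l.length ≤ Fintype.card K := hBd.len
  have hLam0 : 0 < Lam := lt_of_lt_of_le (by norm_num) hOK.hLam
  obtain ⟨e1, e2, e3, e4, e5⟩ := hE X B Lam N D cl hOK s
  -- one source
  have key : ∀ z : X, B.E Lam N s (fun G => psum (fun x l' =>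
      ind (B.ow Lam N G i (sg x) = z) * (ind (B.Crs sg Lam N cl G i x l') * w G (sg x))) l) ≤
      1 / mu * B.E Lam N s (fun G => psum (fun x l' =>
        ind (B.ow Lam N G i (sg x) = z) * (pr (B.c sg Lam N cl G) x l' * w G (sg x))) l) +
      (1 / mu * (2 * Real.exp (-Lam) * ((Lam + 1) * P)) +
        (4 * ((Fintype.card K : ℝ) + 1) * (Lam / (N : ℝ))) * (Lam + 1) * Fintype.card K) := by
    intro z
    have r1 := hR X B Lam N hOK.hLam hOK.hN s i hi hs z (fun G => psum (fun x l' =>
      ind (B.ow Lam N G i (sg x) = z) * (ind (B.Crs sg Lam N cl G i x l') * w G (sg x))) l)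
    have r2 := hR X B Lam N hOK.hLam hOK.hN s i hi hs z (fun G => psum (fun x l' =>
        ind (B.ow Lam N G i (sg x) = z) * (pr (B.c sg Lam N cl G) x l' * w G (sg x))) l)
    rw [r1, r2, ← e4]
    conv_rhs => rw [← e2 (1 / mu * (2 * Real.exp (-Lam) * ((Lam + 1) * P)) +
        (4 * ((Fintype.card K : ℝ) + 1) * (Lam / (N : ℝ))) * (Lam + 1) * Fintype.card K)]
    rw [← e3]
    apply e1
    intro G hG _
    have hVl : Vl N G := fun i' z' => (hG i' z').le
    have hVN : Vl N (upd G i z N) := by
      intro i' z'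
      unfold upd
      rcases eq_or_ne i' i with rfl | h1
      · rw [Function.update_self]
        rcases eq_or_ne z' z with rfl | h2
        · rw [Function.update_self]
        · rw [Function.update_of_ne h2]
          exact hVl _ _
      · rw [Function.update_of_ne h1]
        exact hVl _ _
    have hc0 : ∀ r t, 0 ≤ B.c sg Lam N cl (upd G i z N) r t :=
      (hC X K B sg Lam N D cl hOK (upd G i z N) hVN).2.2.1
    obtain ⟨p1, p2, _⟩ := hP K (B.c sg Lam N cl (upd G i z N)) hc0
    simp only [hwi]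
    -- the left side as one sum over the requests
    have hL : ∑ j ∈ range N, tw Lam N j * psum (fun x l' =>
        ind (B.ow Lam N (upd G i z j) i (sg x) = z) *
          (ind (B.Crs sg Lam N cl (upd G i z j) i x l') * w G (sg x))) l =
        psum (fun x l' => w G (sg x) * ∑ j ∈ range N, tw Lam N j *
          (ind (B.ow Lam N (upd G i z j) i (sg x) = z) *
            ind (B.Crs sg Lam N cl (upd G i z j) i x l'))) l := by
      simp only [← Cr_mul]
      rw [← Cr_sum]
      congr 1
      funext x l'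
      rw [Finset.mul_sum]
      refine Finset.sum_congr rfl fun j _ => ?_
      ring
    have hRr : ∑ j ∈ range N, tw Lam N j * psum (fun x l' =>
        ind (B.ow Lam N (upd G i z j) i (sg x) = z) *
          (pr (B.c sg Lam N cl (upd G i z j)) x l' * w G (sg x))) l =
        psum (fun x l' => w G (sg x) * ∑ j ∈ range N, tw Lam N j *
          (ind (B.ow Lam N (upd G i z j) i (sg x) = z) *
            pr (B.c sg Lam N cl (upd G i z j)) x l')) l := by
      simp only [← Cr_mul]
      rw [← Cr_sum]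
      congr 1
      funext x l'
      rw [Finset.mul_sum]
      refine Finset.sum_congr rfl fun j _ => ?_
      ring
    rw [hL, hRr]
    have hexp : 0 ≤ Real.exp (-Lam) := (Real.exp_pos _).le
    have hmu1 : 0 ≤ 1 / mu := by positivity
    have hθ4 : 0 ≤ 4 * ((Fintype.card K : ℝ) + 1) * (Lam / (N : ℝ)) := by positivity
    -- termwise
    have hT : psum (fun x l' => w G (sg x) * ∑ j ∈ range N, tw Lam N j *
          (ind (B.ow Lam N (upd G i z j) i (sg x) = z) *
            ind (B.Crs sg Lam N cl (upd G i z j) i x l'))) l ≤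
        psum (fun x l' => 1 / mu * (w G (sg x) * ∑ j ∈ range N, tw Lam N j *
          (ind (B.ow Lam N (upd G i z j) i (sg x) = z) *
            pr (B.c sg Lam N cl (upd G i z j)) x l')) +
          (1 / mu * (2 * Real.exp (-Lam) * (Lam + 1)) * pr (B.c sg Lam N cl (upd G i z N)) x l' +
            (4 * ((Fintype.card K : ℝ) + 1) * (Lam / (N : ℝ))) * (Lam + 1))) l := by
      apply Cr_le (Fintype.card K) _ _ l hlen
      intro x l' hl'
      obtain ⟨hw0, hw1⟩ := hw G (sg x) hVl
      have h1 := hCo X K B sg Lam N D cl hOK i hi G hVl z x l' hl'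
      rw [← hmu'] at h1
      have h2 := mul_le_mul_of_nonneg_left h1 hw0
      have h3 := p1 x l' hl'
      have h4 : w G (sg x) * (1 / mu * (2 * Real.exp (-Lam) * pr (B.c sg Lam N cl (upd G i z N)) x l')) ≤
          (Lam + 1) * (1 / mu * (2 * Real.exp (-Lam) * pr (B.c sg Lam N cl (upd G i z N)) x l')) := by
        apply mul_le_mul_of_nonneg_right hw1
        positivity
      have h5 := mul_le_mul_of_nonneg_right hw1 hθ4
      refine h2.trans ?_
      linarith [h4, h5]
    refine hT.trans ?_
    rw [Cr_add, Cr_mul, Cr_add, Cr_mul, Cr_const, p2 l]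
    have hbd := hBd.bd (upd G i z N) hVN
    have h6 : 1 / mu * (2 * Real.exp (-Lam) * (Lam + 1)) *
        optv (B.c sg Lam N cl (upd G i z N)) (l.map Sum.inl) ≤
        1 / mu * (2 * Real.exp (-Lam) * (Lam + 1)) * P := by
      apply mul_le_mul_of_nonneg_left hbd
      positivity
    have h7 : (4 * ((Fintype.card K : ℝ) + 1) * (Lam / (N : ℝ))) * (Lam + 1) * (l.length : ℝ) ≤
        (4 * ((Fintype.card K : ℝ) + 1) * (Lam / (N : ℝ))) * (Lam + 1) * (Fintype.card K : ℝ) := by
      apply mul_le_mul_of_nonneg_left _ (by positivity)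
      exact_mod_cast hlen
    linarith [h6, h7]
  -- sum over the sources
  have hs1 : B.E Lam N s (fun G => psum (fun x l' => ind (B.Crs sg Lam N cl G i x l') * w G (sg x)) l) =
      ∑ z : X, B.E Lam N s (fun G => psum (fun x l' =>
        ind (B.ow Lam N G i (sg x) = z) * (ind (B.Crs sg Lam N cl G i x l') * w G (sg x))) l) := by
    rw [← Cr_E_sum]
    congr 1
    funext G
    rw [← Cr_sum]
    congr 1
    funext x l'
    exact Cr_one _ _
  have hs2 : B.E Lam N s (fun G => psum (fun x l' => pr (B.c sg Lam N cl G) x l' * w G (sg x)) l) =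
      ∑ z : X, B.E Lam N s (fun G => psum (fun x l' =>
        ind (B.ow Lam N G i (sg x) = z) * (pr (B.c sg Lam N cl G) x l' * w G (sg x))) l) := by
    rw [← Cr_E_sum]
    congr 1
    funext G
    rw [← Cr_sum]
    congr 1
    funext x l'
    exact Cr_one _ _
  rw [hs1, hs2]
  refine (Finset.sum_le_sum fun z _ => key z).trans ?_
  rw [Finset.sum_add_distrib, ← Finset.mul_sum, Finset.sum_const, Finset.card_univ, nsmul_eq_mul,
    mul_add (1 / mu)]
  have hRi : mu * Lam ≤ B.R / 2 := by
    refine le_trans ?_ hOK.noise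
    apply mul_le_mul_of_nonneg_right _ hLam0.le
    rw [hmu']
    exact Finset.single_le_sum (f := fun i => B.mu i)
      (fun j hj => (hOK.mu j (Nat.lt_succ_iff.1 (Finset.mem_range.1 hj))).le)
      (Finset.mem_range.2 (Nat.lt_succ_iff.2 hi))
  have hN0 : (0 : ℝ) < N := lt_of_lt_of_le (by positivity) hOK.hN
  have hnum := Cr_num Lam mu B.R P (Fintype.card X) (Fintype.card K) (Real.exp (-Lam)) N hOK.hLam hmu
    (Nat.cast_nonneg _) (Nat.cast_nonneg _) hN0 hRi hBd.er (Real.exp_pos _).le hOK.hLamm
  linarith [hnum]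

end Pool.Agent.AM
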