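import Pool.Agent.Lib.AM.SpecA2

set_option linter.all false

/-!
# AM, part A: crossings weighted by the excess of another field
-/

namespace Pool.Agent.AM

open Finset Pool.Agent.MP_a4c1f4_lc

private theorem Cross_psum_nonneg {S : Type} (f : S → List S → ℝ) : ∀ l : List S,
    (∀ x l', (x :: l').length ≤ l.length → 0 ≤ f x l') → 0 ≤ psum f l
  | [], _ => le_rfl
  | x :: l, h => by
    rw [psum]
    refine add_nonneg (Cross_psum_nonneg f l fun y l' hl => h y l' (hl.trans ?_)) (h x l le_rfl)
    simp

private theorem Cross_psum_add {S : Type} (f g : S → List S → ℝ) : ∀ l : List S,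
    psum (fun x l => f x l + g x l) l = psum f l + psum g l
  | [] => by simp [psum]
  | x :: l => by
    rw [psum, psum, psum, Cross_psum_add f g l]
    ring

theorem crossP (hTC : TexCProp) (hE : EbProp) (hC : CnProp) (hP : PnProp) (hCr : CrProp)
    (hFa : FaProp) (hDe : DeProp) : CrossProp := by
  intro X K _ _ _ _ _ _ B sg Lam N D cl C l P hOK hBd i k hi hk hik
  obtain ⟨-, -, tc3, tc4, -, -⟩ := hTC Lam N 0 hOK.hLam hOK.hN le_rfl
  have hLam := hOK.hLam
  have hmui := hOK.mu i hi
  have hmuk := hOK.mu k hk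
  -- `P ≥ 0`
  have hP0 : 0 ≤ P := by
    refine le_trans ?_ hBd.er
    refine mul_nonneg hOK.Rpos.le ?_
    unfold er
    positivity
  have hexc0 : ∀ G x, 0 ≤ B.exc Lam N G k x := fun G x => le_max_left _ _
  have hexc1 : ∀ G x, Vl N G → B.exc Lam N G k x ≤ Lam := by
    intro G x hG
    exact (hTC Lam N (B.vb k (B.ow Lam N G k x)) hOK.hLam hOK.hN (hOK.vb k hk _)).2.2.2.1 _ (hG _ _)
  have hVl : ∀ G : ℕ → X → ℕ, (∀ i z, G i z < N) → Vl N G := fun G hG i z => (hG i z).le
  have hpr : ∀ G : ℕ → X → ℕ, Vl N G → ∀ x l', (x :: l').length ≤ l.length →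
      0 ≤ pr (B.c sg Lam N cl G) x l' := by
    intro G hG x l' hl
    refine (hP K (B.c sg Lam N cl G) (hC X K B sg Lam N D cl hOK G hG).2.2.1).1 x l' ?_
    have h1 := hBd.len
    simp only [List.length_cons] at hl
    omega
  set s1 : ℕ → Bool := free sT i with hs1
  have hs1i : s1 i = false := by rw [hs1]; unfold free; rw [Function.update_self]
  set s2 : ℕ → Bool := free s1 k with hs2
  have hs2k : s2 k = false := by rw [hs2]; unfold free; rw [Function.update_self]
  obtain ⟨-, -, -, -, e5⟩ := hE X B Lam N D cl hOK sT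
  obtain ⟨m1, m2, m3, -, m5⟩ := hE X B Lam N D cl hOK s1
  -- step 1
  have st1 := e5 (fun G => psum (fun x l =>
      ind (B.Crs sg Lam N cl G i x l) * (1 + B.exc Lam N G k (sg x))) l) (by
    intro G hG
    refine Cross_psum_nonneg _ l fun x l' _ => ?_
    exact mul_nonneg (ind_nonneg _) (add_nonneg zero_le_one (hexc0 G _))) i hi
  -- step 2
  have st2 := hCr X K B sg Lam N D cl C l P hOK hBd i hi s1 hs1i
    (fun G x => 1 + B.exc Lam N G k x) (by
      intro G x hG
      have h1 := hexc0 G x
      have h2 := hexc1 G x hG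
      constructor <;> linarith) (by
      intro G z j x
      have h1 : upd G i z j k = G k := by
        unfold upd
        rw [Function.update_of_ne (Ne.symm hik)]
      have h2 : B.ow Lam N (upd G i z j) k x = B.ow Lam N G k x := by
        unfold Blk.ow
        rw [h1]
      unfold Blk.exc
      rw [h2, h1])
  -- step 3
  have st3 : B.E Lam N s1 (fun G => psum (fun x l' => pr (B.c sg Lam N cl G) x l' *
      (1 + B.exc Lam N G k (sg x))) l) =
      B.E Lam N s1 (fun G => psum (fun x l' => pr (B.c sg Lam N cl G) x l') l) +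
      B.E Lam N s1 (fun G => psum (fun x l' => pr (B.c sg Lam N cl G) x l' *
        B.exc Lam N G k (sg x)) l) := by
    rw [← m3]
    congr 1
    funext G
    rw [← Cross_psum_add]
    congr 1
    funext x l'
    ring
  have st4 : B.E Lam N s1 (fun G => psum (fun x l' => pr (B.c sg Lam N cl G) x l') l) ≤ P := by
    calc _ ≤ B.E Lam N s1 (fun _ => P) := by
          apply m1
          intro G hG _
          rw [(hP K (B.c sg Lam N cl G) (hC X K B sg Lam N D cl hOK G (hVl G hG)).2.2.1).2.1 l]
          exact hBd.bd G (hVl G hG)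
      _ = P := m2 P
  -- step 4
  have st5 := m5 (fun G => psum (fun x l' => pr (B.c sg Lam N cl G) x l' *
        B.exc Lam N G k (sg x)) l) (by
    intro G hG
    refine Cross_psum_nonneg _ l fun x l' hl => ?_
    exact mul_nonneg (hpr G (hVl G hG) x l' hl) (hexc0 G _)) k hk
  have st6 := hDe X K B sg Lam N D cl C l P hOK hBd k hk s2 hs2k
  have st7 := hFa X K B sg Lam N D cl C l P hOK hBd k hk s2
  have st8 : B.mu k * (Lam + 1) *
      B.E Lam N s2 (fun G => psum (fun x l' => ind (B.FarE sg Lam N D cl G k x l')) l) ≤ P := by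
    calc _ ≤ B.mu k * (Lam + 1) * (P / (4 * Lam * B.mu k)) :=
          mul_le_mul_of_nonneg_left st7 (by positivity)
      _ = (Lam + 1) / (4 * Lam) * P := by field_simp
      _ ≤ 1 * P := by
          apply mul_le_mul_of_nonneg_right _ hP0
          rw [div_le_one (by positivity)]
          linarith
      _ = P := one_mul P
  have st9 : B.E Lam N s1 (fun G => psum (fun x l' => ind (B.Crs sg Lam N cl G i x l') *
      (1 + B.exc Lam N G k (sg x))) l) ≤ 1 / B.mu i * (10 * P) := by
    refine st2.trans ?_
    apply mul_le_mul_of_nonneg_left _ (by positivity)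
    rw [st3]
    linarith
  calc _ ≤ 2 * B.E Lam N s1 (fun G => psum (fun x l =>
        ind (B.Crs sg Lam N cl G i x l) * (1 + B.exc Lam N G k (sg x))) l) := st1
    _ ≤ 2 * (1 / B.mu i * (10 * P)) := by linarith
    _ = 20 / B.mu i * P := by ring
    _ ≤ 200 / B.mu i * P := by
        apply mul_le_mul_of_nonneg_right _ hP0
        apply div_le_div_of_nonneg_right _ hmui.le
        norm_num

end Pool.Agent.AM
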