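import Pool.Agent.Lib.AM.SpecA2

set_option linter.all false

namespace Pool.Agent.AM

open Finset Pool.Agent.MP_a4c1f4_lc

private lemma Ct_ind_nonneg (p : Prop) : 0 ≤ ind p := by
  unfold ind; split_ifs <;> norm_num

private lemma Ct_ind_true {p : Prop} (h : p) : ind p = 1 := by
  unfold ind; simp [h]

private lemma Ct_ind_false {p : Prop} (h : ¬ p) : ind p = 0 := by
  unfold ind; simp [h]

/-- Cuts, one source. -/
theorem ctP (hTw : TwProp) (hTC : TexCProp) (hF : FoAProp) (hB : BoProp) : CtProp := by
  intro X _ _ _ B Lam N D cl ok i hi G z x o hdo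
  classical
  obtain ⟨hth0, hth1, hq0, hq1, hqN, hexp, htw0, htwle, htwmono, htwsum⟩ := hTw Lam N ok.hLam ok.hN
  obtain ⟨hC1, hC2, hC3, hC4, hC5, hC6⟩ := hTC Lam N (B.vb i z) ok.hLam ok.hN (ok.vb i hi z)
  have hLam : 24 ≤ Lam := ok.hLam
  have hNpos : (0 : ℝ) < N := by
    have := ok.hN
    nlinarith
  have hmu : 0 < B.mu i := ok.mu i hi
  have heta : 0 < B.eta Lam N i := by
    unfold Blk.eta
    positivity
  obtain ⟨hA1, hA2, hA3⟩ := hF X (B.dp i) (B.eta Lam N i) (G i) (ok.pm i hi) heta
  have how : ∀ (j : ℕ) (y : X), B.ow Lam N (upd G i z j) i y =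
      own (B.dp i) (B.eta Lam N i) (Function.update (G i) z j) y := by
    intro j y
    unfold Blk.ow upd
    rw [Function.update_self]
  have hex : ∀ j : ℕ, B.ex Lam N i z j = exj Lam N (B.vb i z) j := fun j => rfl
  have hmono : ∀ (j j' : ℕ) (y : X), j ≤ j' → B.ow Lam N (upd G i z j) i y = z →
      B.ow Lam N (upd G i z j') i y = z := by
    intro j j' y hjj h
    rw [how] at h ⊢
    exact hA2 y z j j' hjj h
  have hdp0 : 0 ≤ B.dp i x o := (ok.pm i hi).nonneg x o
  set S : ℝ := ∑ j ∈ range N, tw Lam N j * ((1 + B.ex Lam N i z j) *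
          ind (B.ow Lam N (upd G i z j) i x = z)) with hS
  have hS0 : 0 ≤ S := by
    apply Finset.sum_nonneg
    intro j _
    have h1 := hC3 j
    rw [← hex j] at h1
    exact mul_nonneg (htw0 j) (mul_nonneg (by linarith) (Ct_ind_nonneg _))
  have hexpo : 0 < Real.exp (-Lam) := Real.exp_pos _
  set J : Finset ℕ := (range N).filter (fun j => B.ow Lam N (upd G i z j) i x = z ∧
    B.ow Lam N (upd G i z j) i o ≠ z) with hJ
  have hleft : ∑ j ∈ range N, tw Lam N j * ((1 + B.ex Lam N i z j) *
        ind (B.ow Lam N (upd G i z j) i x = z ∧ B.ow Lam N (upd G i z j) i o ≠ z)) =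
      ∑ j ∈ J, tw Lam N j * (1 + B.ex Lam N i z j) := by
    rw [hJ, Finset.sum_filter]
    apply Finset.sum_congr rfl
    intro j _
    by_cases hj : B.ow Lam N (upd G i z j) i x = z ∧ B.ow Lam N (upd G i z j) i o ≠ z
    · rw [Ct_ind_true hj, if_pos hj, mul_one]
    · rw [Ct_ind_false hj, if_neg hj, mul_zero, mul_zero]
  rw [hleft]
  by_cases hne : J.Nonempty
  · set a := J.min' hne with ha
    have haJ : a ∈ J := Finset.min'_mem J hne
    have haN : a < N := by
      have := (Finset.mem_filter.mp haJ).1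
      exact Finset.mem_range.mp this
    obtain ⟨hax, hao⟩ := (Finset.mem_filter.mp haJ).2
    have hge : ∀ j ∈ J, a ≤ j := fun j hj => Finset.min'_le J j hj
    have hdist : ∀ j ∈ J, B.eta Lam N i * ((j : ℝ) - a) ≤ 2 * B.dp i x o := by
      intro j hj
      by_contra hcon
      push Not at hcon
      have h1 : own (B.dp i) (B.eta Lam N i) (Function.update (G i) z a) x = z := by
        rw [← how]; exact hax
      have h2 := hA3 x o z a j h1 hcon
      rw [← how] at h2
      exact (Finset.mem_filter.mp hj).2.2 h2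
    have hthmu : Lam / (N : ℝ) = B.eta Lam N i / B.mu i := by
      unfold Blk.eta
      field_simp
    -- bound for each term
    have hterm : ∀ j ∈ J, tw Lam N j * (1 + B.ex Lam N i z j) ≤
        tw Lam N a * (2 * (1 + B.ex Lam N i z a)) := by
      intro j hj
      have h1 := (hC6 a j (hge j hj)).2
      have h2 : Lam / (N : ℝ) * ((j : ℝ) - a) ≤ 1 := by
        rw [hthmu, div_mul_eq_mul_div, div_le_one hmu]
        linarith [hdist j hj]
      have h3 : B.ex Lam N i z j ≤ B.ex Lam N i z a + 1 := by
        rw [hex, hex]; linarith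
      have h4 := hC3 a
      rw [← hex a] at h4
      have h5 := hC3 j
      rw [← hex j] at h5
      have h6 := htwmono a j (hge j hj)
      calc tw Lam N j * (1 + B.ex Lam N i z j) ≤ tw Lam N a * (1 + B.ex Lam N i z j) :=
            mul_le_mul_of_nonneg_right h6 (by linarith)
        _ ≤ tw Lam N a * (2 * (1 + B.ex Lam N i z a)) :=
            mul_le_mul_of_nonneg_left (by linarith) (htw0 a)
    have hcard : (J.card : ℝ) ≤ 2 * B.dp i x o / B.eta Lam N i + 1 := by
      set k := ⌊2 * B.dp i x o / B.eta Lam N i⌋₊ with hk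
      have hsub : J ⊆ Finset.Icc a (a + k) := by
        intro j hj
        rw [Finset.mem_Icc]
        refine ⟨hge j hj, ?_⟩
        have h1 : ((j - a : ℕ) : ℝ) ≤ 2 * B.dp i x o / B.eta Lam N i := by
          rw [Nat.cast_sub (hge j hj), le_div_iff₀ heta]
          linarith [hdist j hj]
        have h2 := Nat.le_floor h1
        have h3 := hge j hj
        omega
      have h1 := Finset.card_le_card hsub
      rw [Nat.card_Icc] at h1
      have h2 : (J.card : ℝ) ≤ (k : ℝ) + 1 := by
        have : J.card ≤ k + 1 := by omega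
        exact_mod_cast this
      have h3 : (k : ℝ) ≤ 2 * B.dp i x o / B.eta Lam N i := Nat.floor_le (by positivity)
      linarith
    have hexa := hC3 a
    rw [← hex a] at hexa
    have hexaL := hC4 a haN.le
    rw [← hex a] at hexaL
    have hsum1 : ∑ j ∈ J, tw Lam N j * (1 + B.ex Lam N i z j) ≤
        (2 * B.dp i x o / B.eta Lam N i + 1) * (tw Lam N a * (2 * (1 + B.ex Lam N i z a))) := by
      calc ∑ j ∈ J, tw Lam N j * (1 + B.ex Lam N i z j)
          ≤ ∑ j ∈ J, tw Lam N a * (2 * (1 + B.ex Lam N i z a)) := Finset.sum_le_sum hterm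
        _ = (J.card : ℝ) * (tw Lam N a * (2 * (1 + B.ex Lam N i z a))) := by
            rw [Finset.sum_const, nsmul_eq_mul]
        _ ≤ _ := by
            apply mul_le_mul_of_nonneg_right hcard
            exact mul_nonneg (htw0 a) (by linarith)
    have hS1 : (∑ j ∈ Ico a N, tw Lam N j) * (1 + B.ex Lam N i z a) ≤ S := by
      rw [Finset.sum_mul, hS]
      calc ∑ j ∈ Ico a N, tw Lam N j * (1 + B.ex Lam N i z a)
          ≤ ∑ j ∈ Ico a N, tw Lam N j * ((1 + B.ex Lam N i z j) *
              ind (B.ow Lam N (upd G i z j) i x = z)) := by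
            apply Finset.sum_le_sum
            intro j hj
            have haj := (Finset.mem_Ico.mp hj).1
            rw [Ct_ind_true (hmono a j x haj hax), mul_one]
            apply mul_le_mul_of_nonneg_left _ (htw0 j)
            have := (hC6 a j haj).1
            rw [hex, hex]; linarith
        _ ≤ _ := by
            apply Finset.sum_le_sum_of_subset_of_nonneg
            · intro j hj
              exact Finset.mem_range.mpr (Finset.mem_Ico.mp hj).2
            · intro j _ _
              have h1 := hC3 j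
              rw [← hex j] at h1
              exact mul_nonneg (htw0 j) (mul_nonneg (by linarith) (Ct_ind_nonneg _))
    have htwa : tw Lam N a * (1 + B.ex Lam N i z a) ≤
        Lam / (N : ℝ) * (S + 2 * (Lam + 1) * Real.exp (-Lam)) := by
      have h1 := hC2 a haN.le
      calc tw Lam N a * (1 + B.ex Lam N i z a)
          ≤ (Lam / (N : ℝ) * (∑ i ∈ Ico a N, tw Lam N i + 2 * Real.exp (-Lam))) *
              (1 + B.ex Lam N i z a) := mul_le_mul_of_nonneg_right h1 (by linarith)
        _ = Lam / (N : ℝ) * ((∑ i ∈ Ico a N, tw Lam N i) * (1 + B.ex Lam N i z a) +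
              2 * (1 + B.ex Lam N i z a) * Real.exp (-Lam)) := by ring
        _ ≤ _ := by
            apply mul_le_mul_of_nonneg_left _ hth0.le
            have : 2 * (1 + B.ex Lam N i z a) * Real.exp (-Lam) ≤
                2 * (Lam + 1) * Real.exp (-Lam) :=
              mul_le_mul_of_nonneg_right (by linarith) hexpo.le
            linarith
    calc ∑ j ∈ J, tw Lam N j * (1 + B.ex Lam N i z j)
        ≤ (2 * B.dp i x o / B.eta Lam N i + 1) * (tw Lam N a * (2 * (1 + B.ex Lam N i z a))) :=
          hsum1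
      _ = 2 * (2 * B.dp i x o / B.eta Lam N i + 1) * (tw Lam N a * (1 + B.ex Lam N i z a)) := by
          ring
      _ ≤ 2 * (2 * B.dp i x o / B.eta Lam N i + 1) *
            (Lam / (N : ℝ) * (S + 2 * (Lam + 1) * Real.exp (-Lam))) :=
          mul_le_mul_of_nonneg_left htwa (by positivity)
      _ = 2 * (2 * B.dp i x o / B.mu i + Lam / (N : ℝ)) *
            (S + 2 * (Lam + 1) * Real.exp (-Lam)) := by
          have h1 : (2 * B.dp i x o / B.eta Lam N i + 1) * (Lam / (N : ℝ)) =
              2 * B.dp i x o / B.mu i + Lam / (N : ℝ) := by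
            rw [hthmu]
            field_simp
          rw [← h1]; ring
  · rw [Finset.not_nonempty_iff_eq_empty.mp hne, Finset.sum_empty]
    have h1 : 0 ≤ 2 * B.dp i x o / B.mu i := by positivity
    have h2 : 0 ≤ S + 2 * (Lam + 1) * Real.exp (-Lam) := by
      have : 0 ≤ 2 * (Lam + 1) * Real.exp (-Lam) := by positivity
      linarith
    have h3 : 0 ≤ 2 * (2 * B.dp i x o / B.mu i + Lam / (N : ℝ)) := by
      have := hth0.le
      linarith
    exact mul_nonneg h3 h2

end Pool.Agent.AM
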