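import Pool.Agent.Lib.AM.SpecA2

set_option linter.all false

/-!
# AM, part A, module Cut: a fixed pair is cut by the cells of the bottom field
-/

namespace Pool.Agent.AM

open Finset Pool.Agent.MP_a4c1f4_lc

open Classical in
private theorem Cut_ind_le_one (p : Prop) : ind p ≤ 1 := by
  unfold ind
  split_ifs <;> norm_num

private theorem Cut_ind_nonneg (p : Prop) : 0 ≤ ind p := by
  unfold ind
  split_ifs <;> norm_num

private theorem Cut_ind_true {p : Prop} (h : p) : ind p = 1 := by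
  unfold ind
  exact if_pos h

private theorem Cut_ind_false {p : Prop} (h : ¬ p) : ind p = 0 := by
  unfold ind
  exact if_neg h

private theorem Cut_sum {X : Type} [Fintype X] [DecidableEq X] [Nonempty X] (B : Blk X) (Lam : ℝ) (N : ℕ)
    (s : ℕ → Bool) (g : X → (ℕ → X → ℕ) → ℝ) :
    B.E Lam N s (fun G => ∑ z, g z G) = ∑ z, B.E Lam N s (g z) := by
  unfold Blk.E
  rw [Finset.sum_comm]
  refine Finset.sum_congr rfl fun G _ => ?_
  rw [Finset.mul_sum]

private theorem Cut_upd {X : Type} [DecidableEq X] (G : ℕ → X → ℕ) (i : ℕ) (z : X) (j : ℕ) :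
    upd G i z j i z = j := by
  unfold upd
  rw [Function.update_self, Function.update_self]

/-- (I4) a fixed pair is cut by the cells of the bottom field -/
theorem cutP (hTw : TwProp) (hTC : TexCProp) (hE : EbProp) (hR : ErProp) (hCt : CtProp) (hSf : SfProp)
    (hSz : SizeProp) : CutProp := by
  intro X _ _ _ B Lam N D cl hB x o
  have hmu : 0 < B.mu 0 := hB.mu 0 (Nat.zero_le _)
  have hdp : 0 ≤ B.dp 0 x o := (hB.pm 0 (Nat.zero_le _)).nonneg x o
  have hTw' := hTw Lam N hB.hLam hB.hN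
  have hth : 0 < Lam / (N : ℝ) := hTw'.1
  have hL0 : 0 < Lam := lt_of_lt_of_le (by norm_num) hB.hLam
  have hexc : ∀ (G : ℕ → X → ℕ) (y : X), 0 ≤ B.exc Lam N G 0 y := fun G y => le_max_left _ _
  by_cases hcase : 2 * B.dp 0 x o ≤ B.mu 0
  · set s' : ℕ → Bool := free sT 0 with hs'
    have hs0 : s' 0 = false := by
      rw [hs']
      unfold free
      rw [Function.update_self]
    obtain ⟨hmono, hconst, hadd, hscal, -⟩ := hE X B Lam N D cl hB s'
    have h5 := (hE X B Lam N D cl hB sT).2.2.2.2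
      (fun G => ind (B.ow Lam N G 0 x ≠ B.ow Lam N G 0 o) * (1 + B.exc Lam N G 0 x))
      (fun G _ => mul_nonneg (Cut_ind_nonneg _) (by linarith [hexc G x])) 0 (Nat.zero_le _)
    -- the sum over the sources
    set g : X → (ℕ → X → ℕ) → ℝ := fun z G => (1 + B.ex Lam N 0 z (G 0 z)) *
      ind (B.ow Lam N G 0 x = z ∧ B.ow Lam N G 0 o ≠ z) with hg
    set h : X → (ℕ → X → ℕ) → ℝ := fun z G => (1 + B.ex Lam N 0 z (G 0 z)) *
      ind (B.ow Lam N G 0 x = z) with hh
    have hf : (fun G => ind (B.ow Lam N G 0 x ≠ B.ow Lam N G 0 o) * (1 + B.exc Lam N G 0 x)) =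
        fun G => ∑ z, g z G := by
      funext G
      rw [Finset.sum_eq_single (B.ow Lam N G 0 x)]
      · rw [hg]
        change _ = (1 + B.ex Lam N 0 (B.ow Lam N G 0 x) (G 0 (B.ow Lam N G 0 x))) *
          ind (B.ow Lam N G 0 x = B.ow Lam N G 0 x ∧ B.ow Lam N G 0 o ≠ B.ow Lam N G 0 x)
        have h6 : ind (B.ow Lam N G 0 x = B.ow Lam N G 0 x ∧ B.ow Lam N G 0 o ≠ B.ow Lam N G 0 x) =
            ind (B.ow Lam N G 0 x ≠ B.ow Lam N G 0 o) := by
          by_cases hc : B.ow Lam N G 0 x = B.ow Lam N G 0 o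
          · rw [Cut_ind_false (fun hcc => hcc.2 hc.symm), Cut_ind_false (fun hcc => hcc hc)]
          · rw [Cut_ind_true ⟨rfl, fun hcc => hc hcc.symm⟩, Cut_ind_true hc]
        rw [h6, mul_comm]
        rfl
      · intro z _ hz
        rw [hg]
        change (1 + B.ex Lam N 0 z (G 0 z)) * ind (B.ow Lam N G 0 x = z ∧ B.ow Lam N G 0 o ≠ z) = 0
        rw [Cut_ind_false (fun hcc => hz hcc.1.symm), mul_zero]
      · intro hcc
        exact absurd (Finset.mem_univ _) hcc
    have hf' : (fun G => 1 + B.exc Lam N G 0 x) = fun G => ∑ z, h z G := by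
      funext G
      rw [Finset.sum_eq_single (B.ow Lam N G 0 x)]
      · rw [hh]
        change _ = (1 + B.ex Lam N 0 (B.ow Lam N G 0 x) (G 0 (B.ow Lam N G 0 x))) *
          ind (B.ow Lam N G 0 x = B.ow Lam N G 0 x)
        rw [Cut_ind_true rfl, mul_one]
        rfl
      · intro z _ hz
        rw [hh]
        change (1 + B.ex Lam N 0 z (G 0 z)) * ind (B.ow Lam N G 0 x = z) = 0
        rw [Cut_ind_false (fun hcc => hz hcc.symm), mul_zero]
      · intro hcc
        exact absurd (Finset.mem_univ _) hcc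
    set A : ℝ := 2 * (2 * B.dp 0 x o / B.mu 0 + Lam / (N : ℝ)) with hA
    have hA0 : 0 ≤ A := by positivity
    have hz : ∀ z, B.E Lam N s' (g z) ≤ A * (B.E Lam N s' (h z) + 2 * (Lam + 1) * Real.exp (-Lam)) := by
      intro z
      have h7 : B.E Lam N s' (g z) = B.E Lam N s' (fun G => ∑ j ∈ range N, tw Lam N j *
          ((1 + B.ex Lam N 0 z j) *
            ind (B.ow Lam N (upd G 0 z j) 0 x = z ∧ B.ow Lam N (upd G 0 z j) 0 o ≠ z))) := by
        rw [hR X B Lam N hB.hLam hB.hN s' 0 (Nat.zero_le _) hs0 z (g z)]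
        congr 1
        funext G
        refine Finset.sum_congr rfl fun j _ => ?_
        rw [hg]
        change tw Lam N j * ((1 + B.ex Lam N 0 z (upd G 0 z j 0 z)) * _) = _
        rw [Cut_upd]
      have h8 : B.E Lam N s' (h z) = B.E Lam N s' (fun G => ∑ j ∈ range N, tw Lam N j *
          ((1 + B.ex Lam N 0 z j) * ind (B.ow Lam N (upd G 0 z j) 0 x = z))) := by
        rw [hR X B Lam N hB.hLam hB.hN s' 0 (Nat.zero_le _) hs0 z (h z)]
        congr 1
        funext G
        refine Finset.sum_congr rfl fun j _ => ?_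
        rw [hh]
        change tw Lam N j * ((1 + B.ex Lam N 0 z (upd G 0 z j 0 z)) * _) = _
        rw [Cut_upd]
      have h9 : B.E Lam N s' (fun G => ∑ j ∈ range N, tw Lam N j *
          ((1 + B.ex Lam N 0 z j) *
            ind (B.ow Lam N (upd G 0 z j) 0 x = z ∧ B.ow Lam N (upd G 0 z j) 0 o ≠ z))) ≤
          B.E Lam N s' (fun G => A * (∑ j ∈ range N, tw Lam N j *
            ((1 + B.ex Lam N 0 z j) * ind (B.ow Lam N (upd G 0 z j) 0 x = z)) +
              2 * (Lam + 1) * Real.exp (-Lam))) :=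
        hmono _ _ (fun G _ _ => hCt X B Lam N D cl hB 0 (Nat.zero_le _) G z x o hcase)
      have h10 := hscal A (fun G => ∑ j ∈ range N, tw Lam N j *
            ((1 + B.ex Lam N 0 z j) * ind (B.ow Lam N (upd G 0 z j) 0 x = z)) +
              2 * (Lam + 1) * Real.exp (-Lam))
      have h11 := hadd (fun G => ∑ j ∈ range N, tw Lam N j *
            ((1 + B.ex Lam N 0 z j) * ind (B.ow Lam N (upd G 0 z j) 0 x = z)))
              (fun _ => 2 * (Lam + 1) * Real.exp (-Lam))
      have h12 := hconst (2 * (Lam + 1) * Real.exp (-Lam))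
      rw [h7, h8]
      refine h9.trans (le_of_eq ?_)
      rw [h10]
      congr 1
      rw [h11, h12]
    have h13 : B.E Lam N s' (fun G => 1 + B.exc Lam N G 0 x) ≤ 1.15 := by
      have h14 := hadd (fun _ => (1 : ℝ)) (fun G => B.exc Lam N G 0 x)
      have h15 := hSf X B Lam N D cl hB 0 (Nat.zero_le _) s' hs0 x
      rw [h14, hconst]
      linarith
    have h16 : B.E Lam N s' (fun G => ind (B.ow Lam N G 0 x ≠ B.ow Lam N G 0 o) *
        (1 + B.exc Lam N G 0 x)) ≤ A * (1.15 + 0.02) := by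
      rw [hf, Cut_sum]
      calc ∑ z, B.E Lam N s' (g z)
          ≤ ∑ z, A * (B.E Lam N s' (h z) + 2 * (Lam + 1) * Real.exp (-Lam)) :=
            Finset.sum_le_sum fun z _ => hz z
        _ = A * (∑ z, B.E Lam N s' (h z) + (Fintype.card X : ℝ) * (2 * (Lam + 1) * Real.exp (-Lam))) := by
            rw [← Finset.mul_sum, Finset.sum_add_distrib, Finset.sum_const, Finset.card_univ,
              nsmul_eq_mul]
        _ ≤ A * (1.15 + 0.02) := by
            refine mul_le_mul_of_nonneg_left ?_ hA0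
            rw [← Cut_sum, ← hf']
            have h17 := hB.hLamm
            have h18 : (Fintype.card X : ℝ) * (2 * (Lam + 1) * Real.exp (-Lam)) =
                2 * ((Fintype.card X : ℝ) * (Lam + 1) * Real.exp (-Lam)) := by ring
            rw [h18]
            linarith
    have h19 : A * (1.15 + 0.02) * 2 ≤ 200 / B.mu 0 * B.dp 0 x o + 200 * (Lam / (N : ℝ)) := by
      have h20 : 200 / B.mu 0 * B.dp 0 x o = 200 * (B.dp 0 x o / B.mu 0) := by ring
      have h21 : 0 ≤ B.dp 0 x o / B.mu 0 := div_nonneg hdp hmu.le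
      have h22 : A = 4 * (B.dp 0 x o / B.mu 0) + 2 * (Lam / (N : ℝ)) := by
        rw [hA]
        ring
      rw [h20, h22]
      linarith
    linarith
  · push Not at hcase
    have h1 : B.E Lam N sT (fun G => ind (B.ow Lam N G 0 x ≠ B.ow Lam N G 0 o) *
        (1 + B.exc Lam N G 0 x)) ≤ B.E Lam N sT (fun G => 1 + B.exc Lam N G 0 x) := by
      refine (hE X B Lam N D cl hB sT).1 _ _ fun G _ _ => ?_
      have h2 := hexc G x
      exact mul_le_of_le_one_left (by linarith) (Cut_ind_le_one _)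
    have h3 := hSz X B Lam N D cl hB x
    have h4 : 1 ≤ 2 * B.dp 0 x o / B.mu 0 := by
      rw [le_div_iff₀ hmu]
      linarith
    have h5 : 200 / B.mu 0 * B.dp 0 x o = 100 * (2 * B.dp 0 x o / B.mu 0) := by ring
    rw [h5]
    linarith

end Pool.Agent.AM
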