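import Pool.Agent.Lib.AM.SpecA2

set_option linter.all false

/-! AM, part A: the decorrelation lemma, all sources. -/

namespace Pool.Agent.AM

open Finset Pool.Agent.MP_a4c1f4_lc

private theorem De_psum_sum {S ι : Type} [Fintype ι] (f : ι → S → List S → ℝ) (l : List S) :
    psum (fun x l' => ∑ z, f z x l') l = ∑ z, psum (f z) l := by
  induction l with
  | nil => simp [psum]
  | cons x l ih => simp only [psum]; rw [ih, Finset.sum_add_distrib]

private theorem De_psum_mul {S : Type} (a : ℝ) (f : S → List S → ℝ) (l : List S) :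
    psum (fun x l' => a * f x l') l = a * psum f l := by
  induction l with
  | nil => simp [psum]
  | cons x l ih => simp only [psum]; rw [ih]; ring

private theorem De_psum_le {S : Type} (f g : S → List S → ℝ) (h : ∀ x l', f x l' ≤ g x l')
    (l : List S) : psum f l ≤ psum g l := by
  induction l with
  | nil => simp [psum]
  | cons x l ih => simp only [psum]; exact add_le_add ih (h x l)

private theorem De_psum_congr {S : Type} (f g : S → List S → ℝ) (h : ∀ x l', f x l' = g x l')
    (l : List S) : psum f l = psum g l := by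
  induction l with
  | nil => simp [psum]
  | cons x l ih => simp only [psum]; rw [ih, h x l]

private theorem De_E_sum {X ι : Type} [Fintype X] [DecidableEq X] [Nonempty X] [Fintype ι]
    (B : Blk X) (Lam : ℝ) (N : ℕ) (s : ℕ → Bool) (f : ι → (ℕ → X → ℕ) → ℝ) :
    B.E Lam N s (fun G => ∑ z, f z G) = ∑ z, B.E Lam N s (f z) := by
  unfold Blk.E
  rw [Finset.sum_comm]
  refine Finset.sum_congr rfl fun g _ => ?_
  rw [Finset.mul_sum]

private theorem De_upd {X : Type} [DecidableEq X] (G : ℕ → X → ℕ) (i : ℕ) (z : X) (j : ℕ) :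
    (upd G i z j) i z = j := by
  simp [upd]

private theorem De_far {X K : Type} [Fintype X] [DecidableEq X]
    (D : X → X → ℝ) (pmD : PM D) (nr sr : ℝ) (hnr : 0 < nr) (hsr : 8 * sr ≤ nr) (ow : X → X)
    (hown : ∀ x, D x (ow x) ≤ sr) (sg : K → X) (owT : K ⊕ K → Option X)
    (h1 : ∀ v, owT (Sum.inl v) = some (ow (sg v))) (h2 : ∀ v, owT (Sum.inr v) = none)
    (y : K ⊕ K) (a : X) :
    ∑ z, ind (¬ D a z ≤ nr ∧ owT y = some z) ≤
      ind (∃ v, y = Sum.inl v ∧ nr / 2 < D a (sg v)) := by
  by_cases h : ∃ z0, ¬ D a z0 ≤ nr ∧ owT y = some z0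
  · obtain ⟨z0, h3, h4⟩ := h
    have h5 : ∑ z, ind (¬ D a z ≤ nr ∧ owT y = some z) = 1 := by
      rw [Finset.sum_eq_single z0]
      · exact ind_true ⟨h3, h4⟩
      · intro z _ hz
        apply ind_false
        rintro ⟨_, h6⟩
        rw [h4] at h6
        exact hz (Option.some_injective _ h6).symm
      · intro h
        exact absurd (Finset.mem_univ _) h
    rw [h5, ind_true]
    cases y with
    | inl v =>
      refine ⟨v, rfl, ?_⟩
      rw [h1] at h4
      have h6 : ow (sg v) = z0 := Option.some_injective _ h4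
      have h7 := hown (sg v)
      rw [h6] at h7
      have h8 := pmD.tri a (sg v) z0
      have h9 := not_le.1 h3
      linarith
    | inr v =>
      rw [h2] at h4
      cases h4
  · have h5 : ∑ z, ind (¬ D a z ≤ nr ∧ owT y = some z) = 0 :=
      Finset.sum_eq_zero fun z _ => ind_false fun h6 => h ⟨z, h6⟩
    rw [h5]
    exact ind_nonneg _

theorem deP (hTw : TwProp) (hE : EbProp) (hR : ErProp) (hB : BoProp) (hC : CnProp)
    (hP : PnProp) (hS : SsProp) (hD : DsProp) : DeProp := by
  intro X K _ _ _ _ _ _ B sg Lam N D cl C l P hOK hBd i hi s hs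
  obtain ⟨hmono, hconst, hadd, hmul, _⟩ := hE X B Lam N D cl hOK s
  have hlen := hBd.len
  have hLam := hOK.hLam
  -- the contribution of one source
  have e1 : ∀ G : ℕ → X → ℕ, psum (fun x l' =>
      pr (B.c sg Lam N cl G) x l' * B.exc Lam N G i (sg x)) l =
      ∑ z, B.ex Lam N i z (G i z) * psum (fun x l' => ind (B.ow Lam N G i (sg x) = z) *
          pr (B.c sg Lam N cl G) x l') l := by
    intro G
    rw [Finset.sum_congr rfl fun z _ => (De_psum_mul (B.ex Lam N i z (G i z))
      (fun x l' => ind (B.ow Lam N G i (sg x) = z) * pr (B.c sg Lam N cl G) x l') l).symm,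
      ← De_psum_sum (fun z x l' => B.ex Lam N i z (G i z) *
        (ind (B.ow Lam N G i (sg x) = z) * pr (B.c sg Lam N cl G) x l'))]
    apply De_psum_congr
    intro x l'
    rw [Finset.sum_eq_single (B.ow Lam N G i (sg x))]
    · rw [ind_true rfl]
      unfold Blk.exc
      ring
    · intro z _ hz
      rw [ind_false (Ne.symm hz)]
      ring
    · intro h
      exact absurd (Finset.mem_univ _) h
  have e2 : ∀ z : X, B.E Lam N s (fun G => B.ex Lam N i z (G i z) *
      psum (fun x l' => ind (B.ow Lam N G i (sg x) = z) * pr (B.c sg Lam N cl G) x l') l) ≤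
      0.24 * (Real.exp (- B.vb i z) * B.E Lam N s (fun G => B.Sz sg Lam N D cl i z G l)) +
        B.mu i * (Lam + 1) * B.E Lam N s (fun G => B.Fz sg Lam N D cl i z G l) +
        4 * ((Fintype.card K : ℝ) + 1) ^ 2 * B.eta Lam N i := by
    intro z
    rw [hR X B Lam N hOK.hLam hOK.hN s i hi hs z (fun G => B.ex Lam N i z (G i z) *
        psum (fun x l' => ind (B.ow Lam N G i (sg x) = z) * pr (B.c sg Lam N cl G) x l') l),
      hR X B Lam N hOK.hLam hOK.hN s i hi hs z (fun G => B.Sz sg Lam N D cl i z G l),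
      hR X B Lam N hOK.hLam hOK.hN s i hi hs z (fun G => B.Fz sg Lam N D cl i z G l)]
    have e3 : 0.24 * (Real.exp (- B.vb i z) * B.E Lam N s (fun G => ∑ j ∈ range N, tw Lam N j *
          B.Sz sg Lam N D cl i z (upd G i z j) l)) +
        B.mu i * (Lam + 1) * B.E Lam N s (fun G => ∑ j ∈ range N, tw Lam N j *
          B.Fz sg Lam N D cl i z (upd G i z j) l) +
        4 * ((Fintype.card K : ℝ) + 1) ^ 2 * B.eta Lam N i =
        B.E Lam N s (fun G => 0.24 * Real.exp (- B.vb i z) *
          ∑ j ∈ range N, tw Lam N j * B.Sz sg Lam N D cl i z (upd G i z j) l +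
          B.mu i * (Lam + 1) *
          ∑ j ∈ range N, tw Lam N j * B.Fz sg Lam N D cl i z (upd G i z j) l +
          4 * ((Fintype.card K : ℝ) + 1) ^ 2 * B.eta Lam N i) := by
      rw [hadd (fun G => 0.24 * Real.exp (- B.vb i z) *
          ∑ j ∈ range N, tw Lam N j * B.Sz sg Lam N D cl i z (upd G i z j) l +
          B.mu i * (Lam + 1) *
          ∑ j ∈ range N, tw Lam N j * B.Fz sg Lam N D cl i z (upd G i z j) l)
          (fun _ => 4 * ((Fintype.card K : ℝ) + 1) ^ 2 * B.eta Lam N i),
        hadd (fun G => 0.24 * Real.exp (- B.vb i z) *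
          ∑ j ∈ range N, tw Lam N j * B.Sz sg Lam N D cl i z (upd G i z j) l)
          (fun G => B.mu i * (Lam + 1) *
          ∑ j ∈ range N, tw Lam N j * B.Fz sg Lam N D cl i z (upd G i z j) l),
        hconst, hmul, hmul]
      ring
    rw [e3]
    apply hmono
    intro G hG _
    have h := hD X K B sg Lam N D cl hOK i hi G (fun i z => (hG i z).le) z l hlen
    refine le_trans (le_of_eq ?_) h
    refine Finset.sum_congr rfl fun j _ => ?_
    rw [De_upd]
  -- the near part
  have e4 : ∑ z, Real.exp (- B.vb i z) * B.E Lam N s (fun G => B.Sz sg Lam N D cl i z G l) ≤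
      4 * P := by
    rw [Finset.sum_congr rfl fun z _ => (hmul (Real.exp (- B.vb i z))
      (fun G => B.Sz sg Lam N D cl i z G l)).symm,
      ← De_E_sum B Lam N s (fun z G => Real.exp (- B.vb i z) * B.Sz sg Lam N D cl i z G l),
      ← hconst (4 * P)]
    apply hmono
    intro G hG _
    have h1 := (hS X K B sg Lam N D cl hOK i hi G (fun i z => (hG i z).le) l hlen).2
    have h2 := hBd.bd G (fun i z => (hG i z).le)
    linarith
  -- the far part
  have e5 : ∑ z, B.E Lam N s (fun G => B.Fz sg Lam N D cl i z G l) ≤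
      B.E Lam N s (fun G => psum (fun x l' => ind (B.FarE sg Lam N D cl G i x l')) l) := by
    rw [← De_E_sum B Lam N s (fun z G => B.Fz sg Lam N D cl i z G l)]
    apply hmono
    intro G hG _
    have hVl : Vl N G := fun i z => (hG i z).le
    have hsr := fun x : X => ((hB X K B sg Lam N D cl hOK i hi G x).2.2.2.2.2.2.2.2.1 hVl x).1
    have h1 : ∑ z, B.Fz sg Lam N D cl i z G l = psum (fun x l' => ∑ z,
        ind (¬ D (sg x) z ≤ B.nr i ∧ B.owT sg Lam N G i (sv (B.c sg Lam N cl G) x l') = some z)) l := by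
      rw [De_psum_sum]
      rfl
    rw [h1]
    apply De_psum_le
    intro x l'
    exact De_far D hOK.pmD (B.nr i) (B.sr i) (hOK.nr i hi) (hOK.srnr i hi) (B.ow Lam N G i) hsr sg
      (B.owT sg Lam N G i) (fun _ => rfl) (fun _ => rfl) _ _
  -- the error
  have hmu := hOK.mu i hi
  have hN : (0 : ℝ) < N := by
    have h1 := hOK.hN
    nlinarith
  have e6 : (Fintype.card X : ℝ) * (4 * ((Fintype.card K : ℝ) + 1) ^ 2 * B.eta Lam N i) ≤
      P / 100 := by
    have h1 := hBd.er
    have h2 : B.mu i * Lam ≤ B.R / 2 := by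
      refine le_trans ?_ hOK.noise
      refine mul_le_mul_of_nonneg_right ?_ (by linarith)
      exact Finset.single_le_sum (f := B.mu)
        (fun k hk => (hOK.mu k (by have := Finset.mem_range.1 hk; omega)).le)
        (Finset.mem_range.2 (by omega))
    have hR0 := hOK.Rpos
    have hX : (0 : ℝ) ≤ Fintype.card X := Nat.cast_nonneg _
    have hK : (0 : ℝ) ≤ Fintype.card K := Nat.cast_nonneg _
    have h3 : B.eta Lam N i ≤ B.R / (2 * N) := by
      unfold Blk.eta
      rw [div_le_div_iff₀ hN (by positivity)]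
      nlinarith
    have h4 : B.R * (10000 * ((Fintype.card X : ℝ) + 1) ^ 2 * ((Fintype.card K : ℝ) + 1) ^ 2 / N) ≤
        P := by
      refine le_trans (mul_le_mul_of_nonneg_left ?_ hR0.le) h1
      unfold er
      refine div_le_div_of_nonneg_right ?_ hN.le
      have h5 : (1 : ℝ) ≤ Lam ^ 3 := one_le_pow₀ (by linarith)
      have h6 : (0 : ℝ) ≤ ((Fintype.card X : ℝ) + 1) ^ 2 * ((Fintype.card K : ℝ) + 1) ^ 2 := by
        positivity
      nlinarith [mul_le_mul_of_nonneg_right h5 h6]
    have h7 : (Fintype.card X : ℝ) * (4 * ((Fintype.card K : ℝ) + 1) ^ 2 * B.eta Lam N i) ≤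
        (Fintype.card X : ℝ) * (4 * ((Fintype.card K : ℝ) + 1) ^ 2 * (B.R / (2 * N))) :=
      mul_le_mul_of_nonneg_left (mul_le_mul_of_nonneg_left h3 (by positivity)) hX
    refine h7.trans ?_
    have h8 : (Fintype.card X : ℝ) * (4 * ((Fintype.card K : ℝ) + 1) ^ 2 * (B.R / (2 * N))) ≤
        B.R * (10000 * ((Fintype.card X : ℝ) + 1) ^ 2 * ((Fintype.card K : ℝ) + 1) ^ 2 / N) / 100 := by
      have h9 : (Fintype.card X : ℝ) ≤ ((Fintype.card X : ℝ) + 1) ^ 2 := by nlinarith
      have h10 : 0 ≤ ((Fintype.card K : ℝ) + 1) ^ 2 * B.R / N := by positivity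
      have h11 : (Fintype.card X : ℝ) * (4 * ((Fintype.card K : ℝ) + 1) ^ 2 * (B.R / (2 * N))) =
          2 * (Fintype.card X : ℝ) * (((Fintype.card K : ℝ) + 1) ^ 2 * B.R / N) := by
        field_simp
        ring
      have h12 : B.R * (10000 * ((Fintype.card X : ℝ) + 1) ^ 2 * ((Fintype.card K : ℝ) + 1) ^ 2 / N)
          / 100 = 100 * ((Fintype.card X : ℝ) + 1) ^ 2 *
            (((Fintype.card K : ℝ) + 1) ^ 2 * B.R / N) := by
        field_simp
        ring
      rw [h11, h12]
      refine mul_le_mul_of_nonneg_right ?_ h10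
      nlinarith
    linarith
  -- conclusion
  have e7 : B.E Lam N s (fun G => psum (fun x l' =>
      pr (B.c sg Lam N cl G) x l' * B.exc Lam N G i (sg x)) l) =
      ∑ z, B.E Lam N s (fun G => B.ex Lam N i z (G i z) * psum (fun x l' =>
        ind (B.ow Lam N G i (sg x) = z) * pr (B.c sg Lam N cl G) x l') l) := by
    rw [← De_E_sum]
    exact congrArg _ (funext e1)
  rw [e7]
  have e8 := Finset.sum_le_sum fun z (_ : z ∈ (Finset.univ : Finset X)) => e2 z
  refine e8.trans ?_
  rw [Finset.sum_add_distrib, Finset.sum_add_distrib, ← Finset.mul_sum, ← Finset.mul_sum,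
    Finset.sum_const, Finset.card_univ, nsmul_eq_mul]
  have e9 : 0 ≤ B.mu i * (Lam + 1) := mul_nonneg hmu.le (by linarith)
  have e10 := mul_le_mul_of_nonneg_left e5 e9
  linarith

end Pool.Agent.AM
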