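import Pool.Agent.Lib.AM.SpecA2

set_option linter.all false

namespace Pool.Agent.AM

open Finset Pool.Agent.MP_a4c1f4_lc

private theorem Ds_psum_map {S T : Type} (h : S → T) (f : T → List T → ℝ) (l : List S) :
    psum f (l.map h) = psum (fun x l' => f (h x) (l'.map h)) l := by
  induction l with
  | nil => rfl
  | cons x l ih =>
    simp only [List.map_cons, psum]
    rw [ih]

private theorem Ds_psum_congr {S : Type} (f g : S → List S → ℝ) (l : List S)
    (h : ∀ x l', f x l' = g x l') : psum f l = psum g l := by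
  have : f = g := by
    funext x l'
    exact h x l'
  rw [this]

private theorem Ds_ind {P Q : Prop} (h : P ↔ Q) : ind P = ind Q := by
  rw [propext h]

private theorem Ds_mt {T : Type} [Fintype T] [DecidableEq T] (hO : OptBasicProp) (c : T → T → ℝ)
    (l : List T) (hl : l.length ≤ Fintype.card T) :
    Adm l (mt c l) ∧ acost c l (mt c l) = optv c l := by
  have h := (hO T c l).2 hl
  unfold mt
  rw [dif_pos h]
  exact h.choose_spec

theorem dsP (hO : OptBasicProp) (hB : BoProp) (hF : FmProp) (hD : DLB) : DsProp := by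
  intro X K _ _ _ _ _ _ B sg Lam N D cl hOK i hi G hG z l hl
  have hcard : Fintype.card (K ⊕ K) = Fintype.card K + Fintype.card K := Fintype.card_sum
  have hlen : (l.map (Sum.inl : K → K ⊕ K)).length ≤ Fintype.card (K ⊕ K) := by
    rw [List.length_map, hcard]; omega
  have hFam := hF X K B sg Lam N D cl hOK i hi G hG z
  obtain ⟨heta, -, -, -, -, -, -, hVl, -, -⟩ := hB X K B sg Lam N D cl hOK i hi G z
  have hnear : ∀ k, k ≤ N → ∀ x ∈ l.map (Sum.inl : K → K ⊕ K),
      (∃ y, x = Sum.inl y ∧ B.ow Lam N (upd G i z k) i (sg y) = z) → B.nea sg D i z x := by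
    rintro k hk x - ⟨y, rfl, hy⟩
    refine ⟨y, rfl, ?_⟩
    obtain ⟨-, -, -, -, -, -, -, -, h9, -⟩ :=
      hB X K B sg Lam N D cl hOK i hi (upd G i z k) z
    have h := (h9 (hVl hG k hk) (sg y)).2
    rwa [hy] at h
  have hmt : ∀ j, j < N → Adm (l.map (Sum.inl : K → K ⊕ K))
        (mt (B.c sg Lam N cl (upd G i z j)) (l.map Sum.inl)) ∧
      acost (B.c sg Lam N cl (upd G i z j)) (l.map Sum.inl)
        (mt (B.c sg Lam N cl (upd G i z j)) (l.map Sum.inl)) =
      optv (B.c sg Lam N cl (upd G i z j)) (l.map Sum.inl) := fun j _ => Ds_mt hO _ _ hlen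
  have h := hD (K ⊕ K) (fun j => B.c sg Lam N cl (upd G i z j))
    (fun j => dl B sg Lam N G i z j)
    (fun j t => ∃ x, t = Sum.inl x ∧ B.ow Lam N (upd G i z j) i (sg x) = z)
    (B.mu i) Lam (B.vb i z) N (B.nea sg D i z) (l.map Sum.inl)
    (fun j => mt (B.c sg Lam N cl (upd G i z j)) (l.map Sum.inl))
    hOK.hLam hOK.hN (hOK.mu i hi) (hOK.vb i hi z) hFam hlen hnear hmt
  have e1 : ∀ j, psum (fun (x : K ⊕ K) l' =>
      ind (∃ y, x = Sum.inl y ∧ B.ow Lam N (upd G i z j) i (sg y) = z) *
        prT (B.c sg Lam N cl (upd G i z j)) x l') (l.map Sum.inl) =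
      psum (fun x l' => ind (B.ow Lam N (upd G i z j) i (sg x) = z) *
          pr (B.c sg Lam N cl (upd G i z j)) x l') l := by
    intro j
    rw [Ds_psum_map]
    refine Ds_psum_congr _ _ _ fun x l' => ?_
    have hi1 : ind (∃ y, (Sum.inl x : K ⊕ K) = Sum.inl y ∧
        B.ow Lam N (upd G i z j) i (sg y) = z) = ind (B.ow Lam N (upd G i z j) i (sg x) = z) := by
      apply Ds_ind
      constructor
      · rintro ⟨y, hy, h2⟩
        rw [Sum.inl.injEq] at hy
        rw [hy]; exact h2
      · intro h2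
        exact ⟨x, rfl, h2⟩
    rw [hi1]
    rfl
  have e2 : ∀ j, psum (fun (x : K ⊕ K) l' => ind (B.nea sg D i z x) *
        prT (B.c sg Lam N cl (upd G i z j)) x l') (l.map Sum.inl) =
      psum (fun x l' => ind (D (sg x) z ≤ B.nr i) *
          pr (B.c sg Lam N cl (upd G i z j)) x l') l := by
    intro j
    rw [Ds_psum_map]
    refine Ds_psum_congr _ _ _ fun x l' => ?_
    have hi1 : ind (B.nea sg D i z (Sum.inl x : K ⊕ K)) = ind (D (sg x) z ≤ B.nr i) := by
      apply Ds_ind
      constructor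
      · rintro ⟨y, hy, h2⟩
        rw [Sum.inl.injEq] at hy
        rw [hy]; exact h2
      · intro h2
        exact ⟨x, rfl, h2⟩
    rw [hi1]
    rfl
  have e3 : ∀ j, psum (fun (x : K ⊕ K) l' => ind (¬ B.nea sg D i z x ∧
        ∃ y, srv (B.c sg Lam N cl (upd G i z j)) x l' = Sum.inl y ∧
          B.ow Lam N (upd G i z j) i (sg y) = z)) (l.map Sum.inl) =
      B.Fz sg Lam N D cl i z (upd G i z j) l := by
    intro j
    unfold Blk.Fz
    rw [Ds_psum_map]
    refine Ds_psum_congr _ _ _ fun x l' => ?_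
    apply Ds_ind
    have h1 : B.nea sg D i z (Sum.inl x : K ⊕ K) ↔ D (sg x) z ≤ B.nr i := by
      constructor
      · rintro ⟨y, hy, h2⟩
        rw [Sum.inl.injEq] at hy
        rw [hy]; exact h2
      · intro h2
        exact ⟨x, rfl, h2⟩
    have h2 : ∀ s : K ⊕ K, (∃ y, s = Sum.inl y ∧ B.ow Lam N (upd G i z j) i (sg y) = z) ↔
        B.owT sg Lam N (upd G i z j) i s = some z := by
      rintro (v | v)
      · constructor
        · rintro ⟨y, hy, h3⟩
          rw [Sum.inl.injEq] at hy
          show some (B.ow Lam N (upd G i z j) i (sg v)) = some z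
          rw [hy, h3]
        · intro h3
          have h4 : some (B.ow Lam N (upd G i z j) i (sg v)) = some z := h3
          rw [Option.some.injEq] at h4
          exact ⟨v, rfl, h4⟩
      · constructor
        · rintro ⟨y, hy, h3⟩
          exact absurd hy (by simp)
        · intro h3
          have h4 : (none : Option X) = some z := h3
          exact absurd h4 (by simp)
    rw [h1, h2]
    rfl
  simp only [e1, e2, e3] at h
  have hk0 : (0 : ℝ) ≤ Fintype.card K := Nat.cast_nonneg _
  have hlk : ((l.map (Sum.inl : K → K ⊕ K)).length : ℝ) ≤ Fintype.card K := by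
    rw [List.length_map]; exact_mod_cast hl
  have hl0 : (0 : ℝ) ≤ ((l.map (Sum.inl : K → K ⊕ K)).length : ℝ) := Nat.cast_nonneg _
  have hlast : B.mu i * Lam / (N : ℝ) * ((l.map (Sum.inl : K → K ⊕ K)).length : ℝ) *
      (3 + 2 * (Fintype.card (K ⊕ K) : ℝ)) ≤
      4 * ((Fintype.card K : ℝ) + 1) ^ 2 * B.eta Lam N i := by
    have he : B.mu i * Lam / (N : ℝ) = B.eta Lam N i := rfl
    rw [he, hcard]
    push_cast
    have h1 : ((l.map (Sum.inl : K → K ⊕ K)).length : ℝ) *
        (3 + 2 * ((Fintype.card K : ℝ) + Fintype.card K)) ≤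
        4 * ((Fintype.card K : ℝ) + 1) ^ 2 := by
      calc ((l.map (Sum.inl : K → K ⊕ K)).length : ℝ) *
            (3 + 2 * ((Fintype.card K : ℝ) + Fintype.card K))
          ≤ (Fintype.card K : ℝ) * (3 + 2 * ((Fintype.card K : ℝ) + Fintype.card K)) :=
            mul_le_mul_of_nonneg_right hlk (by positivity)
        _ ≤ 4 * ((Fintype.card K : ℝ) + 1) ^ 2 := by nlinarith
    calc B.eta Lam N i * ((l.map (Sum.inl : K → K ⊕ K)).length : ℝ) *
          (3 + 2 * ((Fintype.card K : ℝ) + Fintype.card K))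
        = B.eta Lam N i * (((l.map (Sum.inl : K → K ⊕ K)).length : ℝ) *
          (3 + 2 * ((Fintype.card K : ℝ) + Fintype.card K))) := by ring
      _ ≤ B.eta Lam N i * (4 * ((Fintype.card K : ℝ) + 1) ^ 2) :=
          mul_le_mul_of_nonneg_left h1 heta.le
      _ = 4 * ((Fintype.card K : ℝ) + 1) ^ 2 * B.eta Lam N i := by ring
  refine h.trans ?_
  refine add_le_add (le_of_eq rfl) ?_
  exact hlast

end Pool.Agent.AM
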