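import Pool.Agent.Lib.AM.SpecA2

set_option linter.all false

/-!
# AM, part A, module Fa: far displacements
-/

namespace Pool.Agent.AM

open Finset Pool.Agent.MP_a4c1f4_lc

private theorem Fa_psum_mono {S : Type} (f g : S → List S → ℝ) (l : List S)
    (h : ∀ x l', (x :: l') <:+ l → f x l' ≤ g x l') : psum f l ≤ psum g l := by
  induction l with
  | nil => exact le_rfl
  | cons x l ih =>
    have h1 := ih (fun y l' hy => h y l' (hy.trans (List.suffix_cons x l)))
    have h2 := h x l (List.suffix_refl _)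
    show psum f l + f x l ≤ psum g l + g x l
    linarith

private theorem Fa_psum_zero {S : Type} (l : List S) : psum (fun _ _ => (0 : ℝ)) l = 0 := by
  induction l with
  | nil => rfl
  | cons x l ih =>
    show psum (fun _ _ => (0 : ℝ)) l + 0 = 0
    rw [ih, add_zero]

private theorem Fa_psum_nonneg {S : Type} (f : S → List S → ℝ) (l : List S)
    (h : ∀ x l', 0 ≤ f x l') : 0 ≤ psum f l := by
  rw [← Fa_psum_zero l]
  exact Fa_psum_mono _ _ l fun x l' _ => h x l'

theorem faP (hE : EbProp) (hB : BoProp) (hC : CnProp) (hP : PnProp) (hS : ScAProp) (hCr : CrProp) :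
    FaProp := by
  intro X K _ _ _ _ _ _ B sg Lam N D cl C l P hOK hBd i hi s
  have hLam : 24 ≤ Lam := hOK.hLam
  have hN1 : (0 : ℝ) < (N : ℝ) := lt_of_lt_of_le (by nlinarith) hOK.hN
  have hmui := hOK.mu i hi
  have her : 0 ≤ er X K Lam N := by
    unfold er
    have : (0 : ℝ) ≤ Lam := by linarith
    positivity
  have hP0 : 0 ≤ P := le_trans (mul_nonneg hOK.Rpos.le her) hBd.er
  have hden : 0 < 4 * Lam * B.mu i := by
    have : (0 : ℝ) < Lam := by linarith
    positivity
  have hVl : ∀ G : ℕ → X → ℕ, (∀ i z, G i z < N) → Vl N G := fun G h i z => (h i z).le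
  rcases hOK.far i hi with hfar | ⟨hf1, hfh, hfi, hfs, hfm⟩
  · obtain ⟨e1, e2, -, -, -⟩ := hE X B Lam N D cl hOK s
    have h1 : B.E Lam N s (fun G => psum (fun x l' => ind (B.FarE sg Lam N D cl G i x l')) l) ≤
        B.E Lam N s (fun _ => (0 : ℝ)) := by
      refine e1 _ _ fun G hG _ => ?_
      rw [← Fa_psum_zero l]
      refine Fa_psum_mono _ _ l fun x l' hx => ?_
      refine (ind_false ?_).le
      rintro ⟨v, hv, hv'⟩
      have hmem : ∀ y ∈ x :: l', cl (sg y) = C := fun y hy => hBd.mem y (hx.subset hy)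
      have hlen : l'.length + 1 ≤ Fintype.card K := by
        have h2 := hx.length_le
        rw [List.length_cons] at h2
        exact h2.trans hBd.len
      have hx1 : cl (sg x) = C := hmem x List.mem_cons_self
      have h3 := hS X K B sg Lam N D cl hOK G (hVl G hG) C x l' hx1
        (fun y hy => hmem y (List.mem_cons_of_mem _ hy)) hlen v hv
      have h4 := hfar (sg x) (sg v) (hx1.trans h3.symm)
      linarith
    rw [e2 0] at h1
    exact h1.trans (div_nonneg hP0 hden.le)
  · obtain ⟨-, -, -, -, e5⟩ := hE X B Lam N D cl hOK s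
    obtain ⟨e1, e2, -, -, -⟩ := hE X B Lam N D cl hOK (free s (B.fl i))
    have hsf : free s (B.fl i) (B.fl i) = false := by
      unfold free
      exact Function.update_self _ _ _
    have hmuf := hOK.mu (B.fl i) hfh
    have h1 := e5 (fun G => psum (fun x l' => ind (B.FarE sg Lam N D cl G i x l')) l)
      (fun G _ => Fa_psum_nonneg _ l fun x l' => ind_nonneg _) (B.fl i) hfh
    have h2 : B.E Lam N (free s (B.fl i))
        (fun G => psum (fun x l' => ind (B.FarE sg Lam N D cl G i x l')) l) ≤
        B.E Lam N (free s (B.fl i))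
          (fun G => psum (fun x l' => ind (B.Crs sg Lam N cl G (B.fl i) x l') * 1) l) := by
      refine e1 _ _ fun G hG _ => ?_
      refine Fa_psum_mono _ _ l fun x l' _ => ?_
      rw [mul_one]
      refine ind_mono ?_
      rintro ⟨v, hv, hv'⟩ hc
      rw [hv] at hc
      have h3 : B.ow Lam N G (B.fl i) (sg v) = B.ow Lam N G (B.fl i) (sg x) :=
        Option.some.inj hc
      obtain ⟨-, -, -, -, -, -, -, -, b9, -⟩ := hB X K B sg Lam N D cl hOK (B.fl i) hfh G (sg x)
      have h4 := (b9 (hVl G hG) (sg x)).1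
      have h5 := (b9 (hVl G hG) (sg v)).1
      rw [h3] at h5
      have h6 := hOK.pmD.tri (sg x) (B.ow Lam N G (B.fl i) (sg x)) (sg v)
      rw [hOK.pmD.symm (B.ow Lam N G (B.fl i) (sg x)) (sg v)] at h6
      linarith
    have h3 := hCr X K B sg Lam N D cl C l P hOK hBd (B.fl i) hfh (free s (B.fl i)) hsf
      (fun _ _ => 1) (fun _ _ _ => ⟨zero_le_one, by linarith⟩) (fun _ _ _ _ => rfl)
    have h4 : B.E Lam N (free s (B.fl i))
        (fun G => psum (fun x l' => pr (B.c sg Lam N cl G) x l' * 1) l) ≤ P := by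
      have h5 : B.E Lam N (free s (B.fl i))
          (fun G => psum (fun x l' => pr (B.c sg Lam N cl G) x l' * 1) l) ≤
          B.E Lam N (free s (B.fl i)) (fun _ => P) := by
        refine e1 _ _ fun G hG _ => ?_
        simp only [mul_one]
        have h6 := (hP K (B.c sg Lam N cl G)
          ((hC X K B sg Lam N D cl hOK G (hVl G hG)).2.2.1)).2.1 l
        rw [h6]
        exact hBd.bd G (hVl G hG)
      rw [e2 P] at h5
      exact h5
    have h5 : B.E Lam N s (fun G => psum (fun x l' => ind (B.FarE sg Lam N D cl G i x l')) l) ≤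
        2 * (1 / B.mu (B.fl i) * (P + P / 20)) := by
      have h6 : 1 / B.mu (B.fl i) * (B.E Lam N (free s (B.fl i))
          (fun G => psum (fun x l' => pr (B.c sg Lam N cl G) x l' * 1) l) + P / 20) ≤
          1 / B.mu (B.fl i) * (P + P / 20) :=
        mul_le_mul_of_nonneg_left (by linarith) (by positivity)
      linarith
    refine h5.trans ?_
    have h7 : 2 * (1 / B.mu (B.fl i) * (P + P / 20)) = (21 / 10 * P) / B.mu (B.fl i) := by
      ring
    rw [h7, div_le_div_iff₀ hmuf hden]
    have h8 : 21 / 10 * P * (4 * Lam * B.mu i) ≤ P * (16 * Lam * B.mu i) := by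
      have h9 : 0 ≤ P * (Lam * B.mu i) := by
        have : (0 : ℝ) < Lam := by linarith
        positivity
      nlinarith
    exact h8.trans (mul_le_mul_of_nonneg_left hfm hP0)

end Pool.Agent.AM
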