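import Pool.Agent.Lib.AM.SpecA2

set_option linter.all false

/-!
# AM, file A/Fm: the family of costs of one source
-/

namespace Pool.Agent.AM

open Finset Pool.Agent.MP_a4c1f4_lc

private theorem Fm_tel (f : ℕ → ℝ) (j k : ℕ) (h : j ≤ k) :
    ∑ n ∈ Ico j k, (f (n + 1) - f n) = f k - f j := by
  induction k, h using Nat.le_induction with
  | base => simp
  | succ k hk ih =>
    rw [Finset.sum_Ico_succ_top hk, ih]
    ring

theorem fmP (hB : BoProp) (hC : CnProp) : FmProp := by
  intro X K _ _ _ _ _ _ B sg Lam N D cl hOK i hi G hG z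
  obtain ⟨b1, b2, b3, b4, b5, b6, b7, b8, -, -⟩ := hB X K B sg Lam N D cl hOK i hi G z
  have hV : ∀ j, j ≤ N → Vl N (upd G i z j) := fun j hj => b8 hG j hj
  have c3 : ∀ j, j ≤ N → ∀ r s, 0 ≤ B.c sg Lam N cl (upd G i z j) r s := by
    intro j hj
    exact (hC X K B sg Lam N D cl hOK (upd G i z j) (hV j hj)).2.2.1
  have c7 := (hC X K B sg Lam N D cl hOK G hG).2.2.2.2.2.2 i hi z
  have htel : ∀ (j k : ℕ), j ≤ k → ∀ t : K ⊕ K, ∑ n ∈ Ico j k, dl B sg Lam N G i z n t =
      B.potT sg Lam N (upd G i z k) t - B.potT sg Lam N (upd G i z j) t := by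
    intro j k hjk t
    exact Fm_tel (fun n => B.potT sg Lam N (upd G i z n) t) j k hjk
  refine ⟨b1, b2, fun j s => (b3 j s).1, fun j s => (b3 j s).2.1, fun j s => (b3 j s).2.2,
    c3, ?_, ?_, ?_, ?_⟩
  · rintro j s ⟨x, rfl, hx⟩
    exact ⟨x, rfl, b7 j (j + 1) (sg x) (Nat.le_succ j) hx⟩
  · rintro j s ⟨x, rfl, hx⟩
    exact b4 j x hx
  · intro j s hs
    rcases s with x | x
    · apply b5 j x
      intro hx
      exact hs ⟨x, rfl, hx⟩
    · exact b6 j x
  · intro j k hjk hk r s
    have e1 : ∑ n ∈ Ico j k, (dl B sg Lam N G i z n r - dl B sg Lam N G i z n s) =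
        (B.potT sg Lam N (upd G i z k) r - B.potT sg Lam N (upd G i z j) r) -
          (B.potT sg Lam N (upd G i z k) s - B.potT sg Lam N (upd G i z j) s) := by
      rw [Finset.sum_sub_distrib, htel j k hjk r, htel j k hjk s]
    show ∑ n ∈ Ico j k, (dl B sg Lam N G i z n r - dl B sg Lam N G i z n s) ≤
      2 * B.c sg Lam N cl (upd G i z j) r s
    rw [e1]
    rcases r with x | x
    · exact (c7 j k hjk hk x s).2.2
    · have h1 : B.potT sg Lam N (upd G i z k) (Sum.inr x) -
          B.potT sg Lam N (upd G i z j) (Sum.inr x) = 0 := by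
        rw [← htel j k hjk (Sum.inr x)]
        exact Finset.sum_eq_zero fun n _ => b6 n x
      have h2 : 0 ≤ B.potT sg Lam N (upd G i z k) s - B.potT sg Lam N (upd G i z j) s := by
        rw [← htel j k hjk s]
        exact Finset.sum_nonneg fun n _ => (b3 n s).1
      have h3 := c3 j (le_trans hjk hk) (Sum.inr x) s
      rw [h1]
      linarith

end Pool.Agent.AM
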