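import Pool.Agent.Lib.AM.SpecA2

set_option linter.all false

/-!
# AM, part A: prices and new servers
-/

namespace Pool.Agent.AM

open Finset Pool.Agent.MP_a4c1f4_lc

theorem pnP (hU : UsedProp) (hO : OptBasicProp) (hM : MonoProp) : PnProp := by
  intro X _ _ _ c hc
  have hcard : Fintype.card (X ⊕ X) = Fintype.card X + Fintype.card X := Fintype.card_sum
  refine ⟨?_, ?_, ?_⟩
  · intro x l hl
    have h := (hM (X ⊕ X) c (l.map Sum.inl)).1 hc (Sum.inl x) (by
      rw [List.length_map, hcard]
      omega)
    unfold pr
    linarith
  · intro l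
    induction l with
    | nil =>
      obtain ⟨τ, _, h2⟩ := (hO (X ⊕ X) c []).2 (by simp)
      have h3 : acost c [] τ = 0 := by
        unfold acost
        simp
      show (0 : ℝ) = optv c []
      rw [← h2, h3]
    | cons x l ih =>
      show psum (fun x l' => pr c x l') l + pr c x l = optv c (Sum.inl x :: l.map Sum.inl)
      rw [ih]
      unfold pr
      ring
  · intro φ l
    induction l with
    | nil =>
      intro _
      show ∑ s ∈ used c [], φ s = 0
      unfold used
      simp
    | cons x l ih =>
      intro hl
      rw [List.length_cons] at hl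
      have hlen : (l.map (Sum.inl : X → X ⊕ X)).length + 1 ≤ Fintype.card (X ⊕ X) := by
        rw [List.length_map, hcard]
        omega
      have h1 := ((hU (X ⊕ X) c (l.map Sum.inl)).2 (Sum.inl x) hlen).1
      show ∑ s ∈ insert (srv c (Sum.inl x) (l.map Sum.inl)) (used c (l.map Sum.inl)), φ s =
        psum (fun x l' => φ (sv c x l')) l + φ (sv c x l)
      rw [Finset.sum_insert h1, ih (by omega), add_comm]
      rfl

end Pool.Agent.AM
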