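import Pool.Agent.Lib.AM.SpecA2

set_option linter.all false

/-!
# AM, part A, file Sc: the new server is a dummy or lies in the cluster
-/

namespace Pool.Agent.AM

open Finset Pool.Agent.MP_a4c1f4_lc

open Classical in
/-- Replace `inl v` by `inr d`. -/
private noncomputable def Sc_f {K : Type} (v d : K) (s : K ⊕ K) : K ⊕ K :=
  if s = Sum.inl v then Sum.inr d else s

private theorem Sc_cost {K : Type} (c : K ⊕ K → K ⊕ K → ℝ) (v d : K) :
    ∀ (L τ : List (K ⊕ K)), τ.length = L.length →
      (∀ r ∈ L, c r (Sum.inr d) < c r (Sum.inl v)) →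
      acost c L (τ.map (Sc_f v d)) ≤ acost c L τ ∧
      (Sum.inl v ∈ τ → acost c L (τ.map (Sc_f v d)) < acost c L τ) := by
  intro L
  induction L with
  | nil =>
    intro τ h _
    rw [List.length_nil, List.length_eq_zero_iff] at h
    subst h
    exact ⟨le_rfl, fun h => absurd h List.not_mem_nil⟩
  | cons r L ih =>
    intro τ h hr
    cases τ with
    | nil => simp at h
    | cons s τ =>
      rw [List.length_cons, List.length_cons, Nat.add_right_cancel_iff] at h
      obtain ⟨h1, h2⟩ := ih τ h (fun r' hr' => hr r' (List.mem_cons_of_mem _ hr'))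
      have e1 : acost c (r :: L) ((s :: τ).map (Sc_f v d)) =
          c r (Sc_f v d s) + acost c L (τ.map (Sc_f v d)) := by
        unfold acost
        rw [List.map_cons, List.zipWith_cons_cons, List.sum_cons]
      have e2 : acost c (r :: L) (s :: τ) = c r s + acost c L τ := by
        unfold acost
        rw [List.zipWith_cons_cons, List.sum_cons]
      have h3 := hr r List.mem_cons_self
      rw [e1, e2]
      by_cases hs : s = Sum.inl v
      · have e3 : Sc_f v d s = Sum.inr d := by
          unfold Sc_f
          rw [if_pos hs]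
        rw [e3, hs]
        exact ⟨by linarith, fun _ => by linarith⟩
      · have e3 : Sc_f v d s = s := by
          unfold Sc_f
          rw [if_neg hs]
        rw [e3]
        refine ⟨by linarith, fun hv => ?_⟩
        rcases List.mem_cons.1 hv with h4 | h4
        · exact absurd h4.symm hs
        · have := h2 h4
          linarith

private theorem Sc_main (hU : UsedProp) (hO : OptBasicProp) {K : Type} [Fintype K] [DecidableEq K]
    [Nonempty K] (c : K ⊕ K → K ⊕ K → ℝ) (x : K) (l : List K)
    (hl : l.length + 1 ≤ Fintype.card K) (v : K)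
    (hs : ∀ y ∈ x :: l, ∀ d, c (Sum.inl y) (Sum.inr d) < c (Sum.inl y) (Sum.inl v))
    (hv : srv c (Sum.inl x) (l.map Sum.inl) = Sum.inl v) : False := by
  have hT : Fintype.card (K ⊕ K) = Fintype.card K + Fintype.card K := Fintype.card_sum
  have hl' : (l.map (Sum.inl : K → K ⊕ K)).length + 1 ≤ Fintype.card (K ⊕ K) := by
    rw [List.length_map, hT]
    omega
  obtain ⟨-, τ, hτ, hτF, hτc⟩ := (hU (K ⊕ K) c (l.map Sum.inl)).2 (Sum.inl x) hl'
  have hvτ : (Sum.inl v : K ⊕ K) ∈ τ := by
    rw [← List.mem_toFinset, hτF, hv]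
    exact Finset.mem_insert_self _ _
  -- a free dummy
  obtain ⟨d, hd⟩ : ∃ d : K, (Sum.inr d : K ⊕ K) ∉ τ := by
    by_contra hcon
    have hall : ∀ d : K, (Sum.inr d : K ⊕ K) ∈ τ := fun d => by
      by_contra h
      exact hcon ⟨d, h⟩
    have hsub : insert (Sum.inl v : K ⊕ K) ((univ : Finset K).image Sum.inr) ⊆ τ.toFinset := by
      intro s hs
      rw [List.mem_toFinset]
      rcases Finset.mem_insert.1 hs with h | h
      · rw [h]; exact hvτ
      · obtain ⟨d, -, rfl⟩ := Finset.mem_image.1 h
        exact hall d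
    have hcard := Finset.card_le_card hsub
    rw [List.toFinset_card_of_nodup hτ.2, hτ.1, List.length_cons, List.length_map,
      Finset.card_insert_of_notMem (by
        intro h
        obtain ⟨d, -, h⟩ := Finset.mem_image.1 h
        exact absurd h Sum.inr_ne_inl),
      Finset.card_image_of_injective _ Sum.inr_injective, Finset.card_univ] at hcard
    omega
  have hlen : (τ.map (Sc_f v d)).length = (Sum.inl x :: l.map Sum.inl : List (K ⊕ K)).length := by
    rw [List.length_map]
    exact hτ.1
  have hnd : (τ.map (Sc_f v d)).Nodup := by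
    refine List.Nodup.map_on ?_ hτ.2
    intro s hs t ht hst
    unfold Sc_f at hst
    by_cases h1 : s = Sum.inl v
    · by_cases h2 : t = Sum.inl v
      · rw [h1, h2]
      · rw [if_pos h1, if_neg h2] at hst
        exact absurd (hst ▸ ht) hd
    · by_cases h2 : t = Sum.inl v
      · rw [if_neg h1, if_pos h2] at hst
        exact absurd (hst ▸ hs) hd
      · rw [if_neg h1, if_neg h2] at hst
        exact hst
  have h1 := (hO (K ⊕ K) c (Sum.inl x :: l.map Sum.inl)).1 _ ⟨hlen, hnd⟩
  have h2 := (Sc_cost c v d (Sum.inl x :: l.map Sum.inl) τ hτ.1 (by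
    intro r hr
    rcases List.mem_cons.1 hr with h | h
    · rw [h]
      exact hs x List.mem_cons_self d
    · obtain ⟨y, hy, rfl⟩ := List.mem_map.1 h
      exact hs y (List.mem_cons_of_mem _ hy) d)).2 hvτ
  rw [hτc] at h2
  linarith

/-- The new server is a dummy or lies in the cluster. -/
theorem scAP (hU : UsedProp) (hO : OptBasicProp) (hC : CnProp) : ScAProp := by
  intro X K _ _ _ _ _ _ B sg Lam N D cl hB G hG C x l hx hl hlen v hv
  by_contra hne
  obtain ⟨-, -, -, -, h5, h6, -⟩ := hC X K B sg Lam N D cl hB G hG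
  have hR := hB.Rpos
  refine Sc_main hU hO _ x l hlen v (fun y hy d => ?_) hv
  have hy' : cl (sg y) = C := by
    rcases List.mem_cons.1 hy with h | h
    · rw [h]
      exact hx
    · exact hl y h
  have h7 := (h5 y d).2
  have h8 := h6 y v (by
    rw [hy']
    exact fun h => hne h.symm)
  linarith

end Pool.Agent.AM
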