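import Pool.Agent.Lib.AM.SpecA2

set_option linter.all false

/-!
# AM, part A: expected excess of a site, product law (SfProp)
-/

namespace Pool.Agent.AM

open Finset Pool.Agent.MP_a4c1f4_lc

private theorem Sf_sum {X : Type} [Fintype X] [DecidableEq X] [Nonempty X] (B : Blk X) (Lam : ℝ)
    (N : ℕ) (s : ℕ → Bool) (F : X → (ℕ → X → ℕ) → ℝ) :
    B.E Lam N s (fun G => ∑ z, F z G) = ∑ z, B.E Lam N s (F z) := by
  unfold Blk.E
  simp only [Finset.mul_sum]
  rw [Finset.sum_comm]

private theorem Sf_main (hTw : TwProp) (hA : TexAProp) (hE : EbProp) (hR : ErProp)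
    (X : Type) [Fintype X] [DecidableEq X] [Nonempty X] (B : Blk X) (Lam : ℝ) (N : ℕ)
    (D : X → X → ℝ) (cl : X → List X) (hok : B.OK Lam N D cl) (i : ℕ) (hi : i ≤ B.h)
    (hnr : ∀ G : ℕ → X → ℕ, (∀ i z, G i z ≤ N) → ∀ x, D x (B.ow Lam N G i x) ≤ B.nr i)
    (s : ℕ → Bool) (hs : s i = false) (x : X) :
    B.E Lam N s (fun G => B.exc Lam N G i x) ≤ 0.15 := by
  obtain ⟨hmono, hconst, hadd, hsmul, h5⟩ := hE X B Lam N D cl hok s
  have e1 : (fun G => B.exc Lam N G i x) =
      fun G => ∑ z, ind (B.ow Lam N G i x = z) * B.ex Lam N i z (G i z) := by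
    funext G
    rw [Finset.sum_eq_single (B.ow Lam N G i x)]
    · rw [ind_true rfl, one_mul]; rfl
    · intro z _ hz
      rw [ind_false (fun h => hz h.symm), zero_mul]
    · intro h; exact absurd (Finset.mem_univ _) h
  rw [e1, Sf_sum]
  have key : ∀ z, B.E Lam N s (fun G => ind (B.ow Lam N G i x = z) * B.ex Lam N i z (G i z)) ≤
      0.15 * (ind (D x z ≤ B.nr i) * Real.exp (- B.vb i z)) := by
    intro z
    rw [hR X B Lam N hok.hLam hok.hN s i hi hs z]
    refine (hmono _ (fun _ => 0.15 * (ind (D x z ≤ B.nr i) * Real.exp (- B.vb i z))) ?_).trans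
      (hconst _).le
    intro G hG _
    have hT := (hA Lam N (B.vb i z) hok.hLam hok.hN (hok.vb i hi z)).1
    have hw : ∀ j, 0 ≤ tw Lam N j := (hTw Lam N hok.hLam hok.hN).2.2.2.2.2.2.1
    have hb : ∀ j ∈ range N, tw Lam N j *
        (ind (B.ow Lam N (upd G i z j) i x = z) * B.ex Lam N i z ((upd G i z j) i z)) ≤
        ind (D x z ≤ B.nr i) * (tw Lam N j * exj Lam N (B.vb i z) j) := by
      intro j hj
      have hj' : j ≤ N := (Finset.mem_range.1 hj).le
      have hval : (upd G i z j) i z = j := by simp [upd]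
      have hle : ∀ i' z', (upd G i z j) i' z' ≤ N := by
        intro i' z'
        unfold upd
        by_cases h1 : i' = i
        · subst h1
          rw [Function.update_self]
          by_cases h2 : z' = z
          · subst h2
            rw [Function.update_self]
            exact hj'
          · rw [Function.update_of_ne h2]
            exact (hG _ _).le
        · rw [Function.update_of_ne h1]
          exact (hG _ _).le
      rw [hval]
      have hex : B.ex Lam N i z j = exj Lam N (B.vb i z) j := rfl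
      have hex0 : 0 ≤ exj Lam N (B.vb i z) j := le_max_left _ _
      rw [hex]
      have hind : ind (B.ow Lam N (upd G i z j) i x = z) ≤ ind (D x z ≤ B.nr i) := by
        apply ind_mono
        intro h
        have := hnr _ hle x
        rwa [h] at this
      have h1 := mul_le_mul_of_nonneg_right hind (mul_nonneg (hw j) hex0)
      calc tw Lam N j * (ind (B.ow Lam N (upd G i z j) i x = z) * exj Lam N (B.vb i z) j)
          = ind (B.ow Lam N (upd G i z j) i x = z) * (tw Lam N j * exj Lam N (B.vb i z) j) := by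
            ring
        _ ≤ _ := h1
    refine (Finset.sum_le_sum hb).trans ?_
    rw [← Finset.mul_sum]
    have h0 := ind_nonneg (D x z ≤ B.nr i)
    calc ind (D x z ≤ B.nr i) * ∑ j ∈ range N, tw Lam N j * exj Lam N (B.vb i z) j
        ≤ ind (D x z ≤ B.nr i) * (0.15 * Real.exp (- B.vb i z)) := mul_le_mul_of_nonneg_left hT h0
      _ = 0.15 * (ind (D x z ≤ B.nr i) * Real.exp (- B.vb i z)) := by ring
  refine (Finset.sum_le_sum (fun z _ => key z)).trans ?_
  rw [← Finset.mul_sum]
  have := hok.count i hi x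
  linarith

theorem sfP (hTw : TwProp) (hA : TexAProp) (hE : EbProp) (hR : ErProp) (hF : FoAProp) :
    SfProp := by
  intro X _ _ _ B Lam N D cl hok i hi s hs x
  refine Sf_main hTw hA hE hR X B Lam N D cl hok i hi ?_ s hs x
  intro G hG y
  have hLam := hok.hLam
  have hN : (0 : ℝ) < N := lt_of_lt_of_le (by positivity) hok.hN
  have heta : 0 < B.eta Lam N i := by
    unfold Blk.eta
    exact div_pos (mul_pos (hok.mu i hi) (by linarith)) hN
  have h1 : Own (B.dp i) (B.eta Lam N i) (G i) y (B.ow Lam N G i y) :=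
    ((hF X (B.dp i) (B.eta Lam N i) (G i) (hok.pm i hi) heta).1 y _).2 rfl
  have h2 := hok.sure i hi (G i) (fun z => hG i z) y _ h1
  have h3 := hok.srnr i hi
  have h4 := hok.pmD.nonneg y (B.ow Lam N G i y)
  linarith

end Pool.Agent.AM
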