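import Pool.Agent.Lib.AM.SpecA2

set_option linter.all false

/-!
# AM, part A: expected size of the cell of a fixed site
-/

namespace Pool.Agent.AM

open Finset Pool.Agent.MP_a4c1f4_lc

/-- (I5): `1 + 2 * 0.15 ≤ 3`. -/
theorem sizeP (hTC : TexCProp) (hE : EbProp) (hSf : SfProp) : SizeProp := by
  intro X _ _ _ B Lam N D cl hB x
  obtain ⟨hm, h1, hadd, hmul, h5⟩ := hE X B Lam N D cl hB sT
  rw [hadd (fun _ => 1) (fun G => B.exc Lam N G 0 x), h1]
  have hex : ∀ G : ℕ → X → ℕ, 0 ≤ B.exc Lam N G 0 x := fun G => le_max_left _ _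
  have ha := h5 (fun G => B.exc Lam N G 0 x) (fun G _ => hex G) 0 (Nat.zero_le _)
  have hb := hSf X B Lam N D cl hB 0 (Nat.zero_le _) (free sT 0) (by simp [free]) x
  norm_num at hb ⊢
  linarith

end Pool.Agent.AM
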