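import Pool.Agent.Lib.AM.SpecA2

set_option linter.all false

/-! # AM, part A: prices and matching costs near the sources of a field (helper60) -/

namespace Pool.Agent.AM

open Finset Pool.Agent.MP_a4c1f4_lc

private theorem Ss_psum {K X : Type} [Fintype X] (c : K ⊕ K → K ⊕ K → ℝ) (M : ℕ)
    (a : X → K → ℝ) (w : X → ℝ) (ha : ∀ z x, 0 ≤ a z x) (hw : ∀ z, 0 ≤ w z)
    (hc : ∀ x, ∑ z, a z x * w z ≤ 1)
    (hp : ∀ x l, l.length + 1 ≤ M → 0 ≤ pr c x l) : ∀ l : List K, l.length ≤ M →
    (∀ z, 0 ≤ psum (fun x l' => a z x * pr c x l') l) ∧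
    ∑ z, w z * psum (fun x l' => a z x * pr c x l') l ≤ psum (fun x l' => pr c x l') l := by
  intro l
  induction l with
  | nil =>
    intro _
    refine ⟨fun z => le_refl _, ?_⟩
    simp [psum]
  | cons x l ih =>
    intro hl
    rw [List.length_cons] at hl
    obtain ⟨i1, i2⟩ := ih (by omega)
    have hpx := hp x l hl
    refine ⟨fun z => add_nonneg (i1 z) (mul_nonneg (ha z x) hpx), ?_⟩
    show ∑ z, w z * (psum (fun x l' => a z x * pr c x l') l + a z x * pr c x l) ≤
      psum (fun x l' => pr c x l') l + pr c x l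
    have e : ∑ z, w z * (psum (fun x l' => a z x * pr c x l') l + a z x * pr c x l) =
        ∑ z, w z * psum (fun x l' => a z x * pr c x l') l + (∑ z, a z x * w z) * pr c x l := by
      rw [Finset.sum_mul, ← Finset.sum_add_distrib]
      exact Finset.sum_congr rfl fun z _ => by ring
    rw [e]
    have h2 := mul_le_mul_of_nonneg_right (hc x) hpx
    linarith

private theorem Ss_zip {K X : Type} [Fintype X] (c : K ⊕ K → K ⊕ K → ℝ) (near : X → K ⊕ K → Prop)
    (a : X → K → ℝ) (w : X → ℝ) (ha : ∀ z x, 0 ≤ a z x) (hw : ∀ z, 0 ≤ w z)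
    (hc : ∀ x, ∑ z, a z x * w z ≤ 1) (h0 : ∀ r s, 0 ≤ c r s)
    (hn : ∀ z x, ind (near z (Sum.inl x)) = a z x) : ∀ (l : List K) (τ : List (K ⊕ K)),
    (∀ z, 0 ≤ nearC c (near z) (l.map Sum.inl) τ) ∧
    ∑ z, w z * nearC c (near z) (l.map Sum.inl) τ ≤ 2 * acost c (l.map Sum.inl) τ := by
  intro l
  induction l with
  | nil =>
    intro τ
    simp [acost, nearC]
  | cons x l ih =>
    intro τ
    cases τ with
    | nil => simp [acost, nearC]
    | cons s τ =>
      obtain ⟨i1, i2⟩ := ih τ
      have hcx := h0 (Sum.inl x) s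
      have e0 : ∀ z, nearC c (near z) ((x :: l).map Sum.inl) (s :: τ) =
          a z x * (2 * c (Sum.inl x) s) + nearC c (near z) (l.map Sum.inl) τ := by
        intro z
        unfold nearC
        rw [List.map_cons, List.zipWith_cons_cons, List.sum_cons, hn z x]
      refine ⟨fun z => ?_, ?_⟩
      · rw [e0 z]
        exact add_nonneg (mul_nonneg (ha z x) (mul_nonneg (by norm_num) hcx)) (i1 z)
      · have e1 : acost c ((x :: l).map Sum.inl) (s :: τ) =
            c (Sum.inl x) s + acost c (l.map Sum.inl) τ := by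
          unfold acost
          rw [List.map_cons, List.zipWith_cons_cons, List.sum_cons]
        have e2 : ∑ z, w z * nearC c (near z) ((x :: l).map Sum.inl) (s :: τ) =
            (∑ z, a z x * w z) * (2 * c (Sum.inl x) s) +
            ∑ z, w z * nearC c (near z) (l.map Sum.inl) τ := by
          rw [Finset.sum_mul, ← Finset.sum_add_distrib]
          refine Finset.sum_congr rfl fun z _ => ?_
          rw [e0 z]
          ring
        rw [e1, e2]
        have h2 := mul_le_mul_of_nonneg_right (hc x) (mul_nonneg (by norm_num : (0 : ℝ) ≤ 2) hcx)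
        linarith

theorem ssP (hO : OptBasicProp) (hC : CnProp) (hP : PnProp) : SsProp := by
  intro X K _ _ _ _ _ _ B sg Lam N D cl hOK i hi G hG l hl
  set c := B.c sg Lam N cl G with hc
  have hc0 : ∀ r s, 0 ≤ c r s := (hC X K B sg Lam N D cl hOK G hG).2.2.1
  obtain ⟨p1, p2, -⟩ := hP K c hc0
  set a : X → K → ℝ := fun z x => ind (D (sg x) z ≤ B.nr i) with ha
  set w : X → ℝ := fun z => Real.exp (- B.vb i z) with hw
  have ha0 : ∀ z x, 0 ≤ a z x := fun z x => ind_nonneg _
  have hw0 : ∀ z, 0 ≤ w z := fun z => (Real.exp_pos _).le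
  have hcount : ∀ x, ∑ z, a z x * w z ≤ 1 := fun x => hOK.count i hi (sg x)
  obtain ⟨q1, q2⟩ := Ss_psum c (Fintype.card K) a w ha0 hw0 hcount p1 l hl
  have hex : ∃ τ, Adm (l.map (Sum.inl : K → K ⊕ K)) τ ∧ acost c (l.map Sum.inl) τ =
      optv c (l.map Sum.inl) := by
    refine (hO (K ⊕ K) c (l.map Sum.inl)).2 ?_
    rw [List.length_map, Fintype.card_sum]
    omega
  have hmt : acost c (l.map Sum.inl) (mt c (l.map Sum.inl)) = optv c (l.map Sum.inl) := by
    unfold mt
    rw [dif_pos hex]
    exact hex.choose_spec.2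
  have hn : ∀ z x, ind (B.nea sg D i z (Sum.inl x)) = a z x := by
    intro z x
    have h : B.nea sg D i z (Sum.inl x) ↔ D (sg x) z ≤ B.nr i := by
      unfold Blk.nea
      constructor
      · rintro ⟨y, hy, h⟩
        rw [Sum.inl.inj hy]
        exact h
      · exact fun h => ⟨x, rfl, h⟩
    show ind _ = ind _
    rw [h]
  obtain ⟨r1, r2⟩ := Ss_zip c (B.nea sg D i) a w ha0 hw0 hcount hc0 hn l (mt c (l.map Sum.inl))
  refine ⟨fun z => ?_, ?_⟩
  · unfold Blk.Sz
    exact add_nonneg (mul_nonneg (by norm_num) (q1 z)) (r1 z)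
  · have e : ∑ z, Real.exp (- B.vb i z) * B.Sz sg Lam N D cl i z G l =
        2 * (∑ z, w z * psum (fun x l' => a z x * pr c x l') l) +
        ∑ z, w z * nearC c (B.nea sg D i z) (l.map Sum.inl) (mt c (l.map Sum.inl)) := by
      rw [Finset.mul_sum, ← Finset.sum_add_distrib]
      refine Finset.sum_congr rfl fun z _ => ?_
      show w z * (2 * psum (fun x l' => a z x * pr c x l') l +
        nearC c (B.nea sg D i z) (l.map Sum.inl) (mt c (l.map Sum.inl))) = _
      ring
    rw [e]
    rw [p2 l] at q2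
    rw [hmt] at r2
    linarith

end Pool.Agent.AM
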