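import Pool.Agent.Lib.AM.A.AllB
import Pool.Agent.Lib.AM.A.Bo
import Pool.Agent.Lib.AM.A.Cn
import Pool.Agent.Lib.AM.A.Pn
import Pool.Agent.Lib.AM.A.Sc
import Pool.Agent.Lib.AM.A.Fm
import Pool.Agent.Lib.AM.A.Co
import Pool.Agent.Lib.AM.A.Cr
import Pool.Agent.Lib.AM.A.Fa
import Pool.Agent.Lib.AM.A.Ss
import Pool.Agent.Lib.AM.A.Ds
import Pool.Agent.Lib.AM.A.De
import Pool.Agent.Lib.AM.A.Ao
import Pool.Agent.Lib.AM.A.Ct
import Pool.Agent.Lib.AM.A.Sf
import Pool.Agent.Lib.AM.A.Cross
import Pool.Agent.Lib.AM.A.Cross0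
import Pool.Agent.Lib.AM.A.Arr
import Pool.Agent.Lib.AM.A.Cut
import Pool.Agent.Lib.AM.A.Size

set_option linter.all false

/-!
# AM: part A without hypotheses: `CrossProp`, `CrossProp0`, `ArrProp`, `CutProp`, `SizeProp`
-/

namespace Pool.Agent.AM

open Finset Pool.Agent.MP_a4c1f4_lc

theorem all_bo : BoProp := boP all_foA all_foB
theorem all_cn : CnProp := cnP all_foA all_foB all_bo
theorem all_pn : PnProp := pnP all_used optBasic all_mono
theorem all_sc : ScAProp := scAP all_used optBasic all_cn
theorem all_fm : FmProp := fmP all_bo all_cn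
theorem all_co : CoAProp := coAP all_cro all_fm
theorem all_cr : CrProp := crP all_tw all_eb all_er all_bo all_cn all_pn all_co
theorem all_fa : FaProp := faP all_eb all_bo all_cn all_pn all_sc all_cr
theorem all_ss : SsProp := ssP optBasic all_cn all_pn
theorem all_ds : DsProp := dsP optBasic all_bo all_fm all_dl
theorem all_de : DeProp := deP all_tw all_eb all_er all_bo all_cn all_pn all_ss all_ds
theorem all_ao : AoProp := aoP all_ar2 all_fm
theorem all_ct : CtProp := ctP all_tw all_texC all_foA all_bo
theorem all_sf : SfProp := sfP all_tw all_texA all_eb all_er all_foA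
theorem all_size : SizeProp := sizeP all_texC all_eb all_sf
theorem all_cross : CrossProp := crossP all_texC all_eb all_cn all_pn all_cr all_fa all_de
theorem all_cross0 : CrossProp0 := cross0P all_eb all_cn all_pn all_cr
theorem all_arr : ArrProp :=
  arrP all_tw all_texC all_eb all_er all_bo all_cn all_pn all_cr all_fa all_ao
theorem all_cut : CutProp := cutP all_tw all_texC all_eb all_er all_ct all_sf all_size

end Pool.Agent.AM
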