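import Pool.Agent.Lib.AM.SpecA

set_option linter.all false

/-!
# AM, part A: basic facts about the expectation over the fields of a block
-/

namespace Pool.Agent.AM

open Finset Pool.Agent.MP_a4c1f4_lc

private theorem Eb_prod_sum {ι β : Type} [Fintype ι] [DecidableEq ι] [Fintype β]
    (w : ι → β → ℝ) : ∑ g : ι → β, ∏ p, w p (g p) = ∏ p, ∑ b, w p b := by
  rw [Finset.prod_univ_sum, Fintype.piFinset_univ]

section
variable {X : Type} [Fintype X] [DecidableEq X] [Nonempty X]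

private theorem Eb_lw_nonneg (h : TwProp) {Lam : ℝ} {N : ℕ} (h1 : 24 ≤ Lam)
    (h2 : Lam ^ 2 ≤ (N : ℝ)) (g : X → Fin N) : 0 ≤ lw Lam g := by
  unfold lw
  exact Finset.prod_nonneg fun z _ => (h Lam N h1 h2).2.2.2.2.2.2.1 _

private theorem Eb_lw_sum (h : TwProp) {Lam : ℝ} {N : ℕ} (h1 : 24 ≤ Lam)
    (h2 : Lam ^ 2 ≤ (N : ℝ)) : ∑ g : X → Fin N, lw Lam g = 1 := by
  unfold lw
  rw [Eb_prod_sum (fun (_ : X) (b : Fin N) => tw Lam N (b : ℕ))]
  have h3 : ∑ b : Fin N, tw Lam N (b : ℕ) = 1 := by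
    rw [← (h Lam N h1 h2).2.2.2.2.2.2.2.2.2, Finset.sum_range]
  simp only [h3, Finset.prod_const_one]

private theorem Eb_lws_nonneg (h : TwProp) {B : Blk X} {Lam : ℝ} {N : ℕ} (h1 : 24 ≤ Lam)
    (h2 : Lam ^ 2 ≤ (N : ℝ)) (b : Bool) (i : ℕ) (hZ : 1 / 2 ≤ B.Z Lam N i) (g : X → Fin N) :
    0 ≤ B.lws Lam N b i g := by
  unfold Blk.lws
  have h3 := Eb_lw_nonneg h h1 h2 g
  split_ifs
  · exact div_nonneg (mul_nonneg h3 (ind_nonneg _)) (by linarith)
  · exact h3

private theorem Eb_lws_sum (h : TwProp) {B : Blk X} {Lam : ℝ} {N : ℕ} (h1 : 24 ≤ Lam)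
    (h2 : Lam ^ 2 ≤ (N : ℝ)) (b : Bool) (i : ℕ) (hZ : 1 / 2 ≤ B.Z Lam N i) :
    ∑ g : X → Fin N, B.lws Lam N b i g = 1 := by
  cases b
  · have : ∀ g : X → Fin N, B.lws Lam N false i g = lw Lam g := fun g => rfl
    simp only [this]
    exact Eb_lw_sum h h1 h2
  · have : ∀ g : X → Fin N, B.lws Lam N true i g =
        lw Lam g * ind (B.Cov i (fun z => (g z : ℕ))) / B.Z Lam N i := fun g => rfl
    simp only [this]
    rw [← Finset.sum_div]
    exact div_self (by
      have : (0 : ℝ) < B.Z Lam N i := by linarith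
      exact this.ne')

private theorem Eb_lws_le (h : TwProp) {B : Blk X} {Lam : ℝ} {N : ℕ} (h1 : 24 ≤ Lam)
    (h2 : Lam ^ 2 ≤ (N : ℝ)) (b : Bool) (i : ℕ) (hZ : 1 / 2 ≤ B.Z Lam N i) (g : X → Fin N) :
    B.lws Lam N b i g ≤ 2 * B.lws Lam N false i g := by
  have h3 := Eb_lw_nonneg h h1 h2 g
  have h4 : B.lws Lam N false i g = lw Lam g := rfl
  rw [h4]
  cases b
  · rw [h4]; linarith
  · have h5 : B.lws Lam N true i g =
        lw Lam g * ind (B.Cov i (fun z => (g z : ℕ))) / B.Z Lam N i := rfl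
    rw [h5, div_le_iff₀ (by linarith)]
    have h6 := ind_le_one (B.Cov i (fun z => (g z : ℕ)))
    have h7 := ind_nonneg (B.Cov i (fun z => (g z : ℕ)))
    nlinarith [mul_nonneg h3 h7, mul_le_mul_of_nonneg_left h6 h3,
      mul_le_mul_of_nonneg_left hZ h3]

end

theorem ebP (h : TwProp) : EbProp := by
  intro X _ _ _ B Lam N D cl hOK s
  have h1 := hOK.hLam
  have h2 := hOK.hN
  have hNpos : 0 < N := by
    rcases Nat.eq_zero_or_pos N with h0 | h0
    · exfalso
      rw [h0] at h2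
      push_cast at h2
      nlinarith
    · exact h0
  have hZ : ∀ i : Fin (B.h + 1), 1 / 2 ≤ B.Z Lam N i := fun i => hOK.Z i (by omega)
  have hw : ∀ (s : ℕ → Bool) (g : Fin (B.h + 1) → X → Fin N),
      0 ≤ ∏ i : Fin (B.h + 1), B.lws Lam N (s i) i (g i) := fun s g =>
    Finset.prod_nonneg fun i _ => Eb_lws_nonneg h h1 h2 _ _ (hZ i) _
  have hmass : ∀ s : ℕ → Bool, ∑ g : Fin (B.h + 1) → X → Fin N,
      ∏ i : Fin (B.h + 1), B.lws Lam N (s i) i (g i) = 1 := by
    intro s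
    rw [Eb_prod_sum (fun (i : Fin (B.h + 1)) (b : X → Fin N) => B.lws Lam N (s i) i b)]
    apply Finset.prod_eq_one
    intro i _
    exact Eb_lws_sum h h1 h2 _ _ (hZ i)
  have hlt : ∀ (g : Fin (B.h + 1) → X → Fin N) (i : ℕ) (z : X), extG g i z < N := by
    intro g i z
    unfold extG
    split_ifs with hi
    · exact (g ⟨i, hi⟩ z).isLt
    · exact hNpos
  refine ⟨?_, ?_, ?_, ?_, ?_⟩
  · intro f f' hf
    unfold Blk.E
    refine Finset.sum_le_sum fun g _ => ?_
    by_cases hc : ∀ i : Fin (B.h + 1), s i = true → B.Cov i (fun z => (g i z : ℕ))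
    · refine mul_le_mul_of_nonneg_left (hf _ (hlt g) ?_) (hw s g)
      intro i hi hs
      have hi' : i < B.h + 1 := by omega
      have e : extG g i = fun z => (g ⟨i, hi'⟩ z : ℕ) := by
        funext z
        unfold extG
        rw [dif_pos hi']
      rw [e]
      exact hc ⟨i, hi'⟩ hs
    · push Not at hc
      obtain ⟨i, hs, hi⟩ := hc
      have h0 : ∏ i : Fin (B.h + 1), B.lws Lam N (s i) i (g i) = 0 := by
        apply Finset.prod_eq_zero (Finset.mem_univ i)
        rw [hs]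
        show lw Lam (g i) * ind (B.Cov i (fun z => (g i z : ℕ))) / B.Z Lam N i = 0
        rw [ind_false hi, mul_zero, zero_div]
      rw [h0, zero_mul, zero_mul]
  · intro a
    unfold Blk.E
    rw [← Finset.sum_mul, hmass, one_mul]
  · intro f f'
    unfold Blk.E
    rw [← Finset.sum_add_distrib]
    exact Finset.sum_congr rfl fun g _ => by ring
  · intro a f
    unfold Blk.E
    rw [Finset.mul_sum]
    exact Finset.sum_congr rfl fun g _ => by ring
  · intro f hf i hi
    unfold Blk.E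
    rw [Finset.mul_sum]
    refine Finset.sum_le_sum fun g _ => ?_
    have hfg : 0 ≤ f (extG g) := hf _ (hlt g)
    have key : ∏ i : Fin (B.h + 1), B.lws Lam N (s i) i (g i) ≤
        2 * ∏ j : Fin (B.h + 1), B.lws Lam N (free s i j) j (g j) := by
      have hi' : i < B.h + 1 := by omega
      have e1 := Finset.mul_prod_erase univ
        (fun j : Fin (B.h + 1) => B.lws Lam N (s j) j (g j)) (Finset.mem_univ ⟨i, hi'⟩)
      have e2 := Finset.mul_prod_erase univ
        (fun j : Fin (B.h + 1) => B.lws Lam N (free s i j) j (g j)) (Finset.mem_univ ⟨i, hi'⟩)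
      rw [← e1, ← e2]
      have e3 : ∏ j ∈ univ.erase (⟨i, hi'⟩ : Fin (B.h + 1)), B.lws Lam N (free s i j) j (g j) =
          ∏ j ∈ univ.erase (⟨i, hi'⟩ : Fin (B.h + 1)), B.lws Lam N (s j) j (g j) := by
        refine Finset.prod_congr rfl fun j hj => ?_
        have hne : (j : ℕ) ≠ i := fun he => Finset.ne_of_mem_erase hj (Fin.ext he)
        have : free s i j = s j := by unfold free; rw [Function.update_of_ne hne]
        rw [this]
      rw [e3]
      have e4 : free s i ((⟨i, hi'⟩ : Fin (B.h + 1)) : ℕ) = false := by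
        unfold free
        show Function.update s i false i = false
        rw [Function.update_self]
      have e5 : 0 ≤ ∏ j ∈ univ.erase (⟨i, hi'⟩ : Fin (B.h + 1)), B.lws Lam N (s j) j (g j) :=
        Finset.prod_nonneg fun j _ => Eb_lws_nonneg h h1 h2 _ _ (hZ j) _
      have e6 := Eb_lws_le h h1 h2 (s i) i (hOK.Z i hi) (g ⟨i, hi'⟩)
      show B.lws Lam N (s i) i (g ⟨i, hi'⟩) * _ ≤
        2 * (B.lws Lam N (free s i ((⟨i, hi'⟩ : Fin (B.h + 1)) : ℕ)) i (g ⟨i, hi'⟩) * _)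
      rw [e4]
      calc _ ≤ 2 * B.lws Lam N false i (g ⟨i, hi'⟩) *
            ∏ j ∈ univ.erase (⟨i, hi'⟩ : Fin (B.h + 1)), B.lws Lam N (s j) j (g j) :=
            mul_le_mul_of_nonneg_right e6 e5
        _ = _ := by ring
    calc _ ≤ (2 * ∏ j : Fin (B.h + 1), B.lws Lam N (free s i j) j (g j)) * f (extG g) :=
          mul_le_mul_of_nonneg_right key hfg
      _ = _ := by ring

end Pool.Agent.AM
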