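import Pool.Agent.Lib.AM.SpecA

set_option linter.all false

/-!
AM, part A, file Er: resampling one source of a field with the product law.
-/

namespace Pool.Agent.AM

open Finset Pool.Agent.MP_a4c1f4_lc

private theorem Er_lw {X : Type} [Fintype X] [DecidableEq X] (Lam : ℝ) {N : ℕ} (g : X → Fin N)
    (z : X) (b : Fin N) :
    lw Lam (Function.update g z b) * tw Lam N (g z : ℕ) = lw Lam g * tw Lam N (b : ℕ) := by
  unfold lw
  rw [← Finset.mul_prod_erase univ _ (Finset.mem_univ z),
    ← Finset.mul_prod_erase univ (fun p => tw Lam N (g p : ℕ)) (Finset.mem_univ z)]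
  have : ∏ p ∈ univ.erase z, tw Lam N (Function.update g z b p : ℕ) =
      ∏ p ∈ univ.erase z, tw Lam N (g p : ℕ) := by
    refine Finset.prod_congr rfl fun p hp => ?_
    rw [Function.update_of_ne (Finset.ne_of_mem_erase hp)]
  rw [this, Function.update_self]
  ring

private theorem Er_ext {X : Type} [DecidableEq X] {h N : ℕ} (g : Fin (h + 1) → X → Fin N)
    (i : ℕ) (hi : i < h + 1) (z : X) (b : Fin N) :
    extG (Function.update g ⟨i, hi⟩ (Function.update (g ⟨i, hi⟩) z b)) =
      upd (extG g) i z (b : ℕ) := by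
  funext k y
  unfold upd extG
  by_cases hk : k = i
  · subst hk
    rw [Function.update_self, dif_pos hi, Function.update_self]
    by_cases hy : y = z
    · subst hy
      rw [Function.update_self, Function.update_self]
    · rw [Function.update_of_ne hy, Function.update_of_ne hy, dif_pos hi]
  · rw [Function.update_of_ne hk]
    by_cases hk2 : k < h + 1
    · have h3 : (⟨k, hk2⟩ : Fin (h + 1)) ≠ ⟨i, hi⟩ := fun e => hk (Fin.mk.inj e)
      rw [dif_pos hk2, dif_pos hk2, Function.update_of_ne h3]
    · rw [dif_neg hk2, dif_neg hk2]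

theorem erP (h : TwProp) : ErProp := by
  intro X _ _ _ B Lam N hL hN s i hi hs z f
  obtain ⟨-, -, -, -, -, -, -, -, -, hsum⟩ := h Lam N hL hN
  have hi' : i < B.h + 1 := Nat.lt_succ_of_le hi
  set p0 : Fin (B.h + 1) := ⟨i, hi'⟩ with hp0
  have hw : ∑ b : Fin N, tw Lam N (b : ℕ) = 1 := by
    rw [← hsum, Finset.sum_range]
  let e : ((Fin (B.h + 1) → X → Fin N) × Fin N) ≃ ((Fin (B.h + 1) → X → Fin N) × Fin N) :=
    { toFun := fun p => (Function.update p.1 p0 (Function.update (p.1 p0) z p.2), p.1 p0 z)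
      invFun := fun p => (Function.update p.1 p0 (Function.update (p.1 p0) z p.2), p.1 p0 z)
      left_inv := by intro p; simp
      right_inv := by intro p; simp }
  have key : ∀ (g : Fin (B.h + 1) → X → Fin N) (b : Fin N),
      (∏ k : Fin (B.h + 1), B.lws Lam N (s k) k
        (Function.update g p0 (Function.update (g p0) z b) k)) * tw Lam N (g p0 z : ℕ) =
      (∏ k : Fin (B.h + 1), B.lws Lam N (s k) k (g k)) * tw Lam N (b : ℕ) := by
    intro g b
    rw [← Finset.mul_prod_erase univ _ (Finset.mem_univ p0),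
      ← Finset.mul_prod_erase univ (fun k : Fin (B.h + 1) => B.lws Lam N (s k) k (g k))
        (Finset.mem_univ p0)]
    have h1 : ∏ k ∈ univ.erase p0, B.lws Lam N (s k) k
        (Function.update g p0 (Function.update (g p0) z b) k) =
        ∏ k ∈ univ.erase p0, B.lws Lam N (s k) k (g k) := by
      refine Finset.prod_congr rfl fun k hk => ?_
      rw [Function.update_of_ne (Finset.ne_of_mem_erase hk)]
    have h2 : ∀ g' : X → Fin N, B.lws Lam N (s p0) p0 g' = lw Lam g' := by
      intro g'
      have h3 : s (p0 : ℕ) = false := hs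
      unfold Blk.lws
      rw [h3]
      simp
    rw [h1]
    simp only [Function.update_self, h2]
    have h4 := Er_lw Lam (g p0) z b
    calc lw Lam (Function.update (g p0) z b) *
          (∏ k ∈ univ.erase p0, B.lws Lam N (s k) k (g k)) * tw Lam N (g p0 z : ℕ)
        = (lw Lam (Function.update (g p0) z b) * tw Lam N (g p0 z : ℕ)) *
          (∏ k ∈ univ.erase p0, B.lws Lam N (s k) k (g k)) := by ring
      _ = _ := by rw [h4]; ring
  unfold Blk.E
  have h1 : ∑ g : Fin (B.h + 1) → X → Fin N, (∏ k : Fin (B.h + 1), B.lws Lam N (s k) k (g k)) *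
        ∑ j ∈ range N, tw Lam N j * f (upd (extG g) i z j) =
      ∑ x : (Fin (B.h + 1) → X → Fin N) × Fin N,
        (∏ k : Fin (B.h + 1), B.lws Lam N (s k) k (x.1 k)) * tw Lam N (x.2 : ℕ) *
          f (extG (Function.update x.1 p0 (Function.update (x.1 p0) z x.2))) := by
    rw [Fintype.sum_prod_type]
    refine Finset.sum_congr rfl fun g _ => ?_
    rw [Finset.sum_range, Finset.mul_sum]
    refine Finset.sum_congr rfl fun b _ => ?_
    rw [hp0, Er_ext]
    ring
  have h2 : ∑ x : (Fin (B.h + 1) → X → Fin N) × Fin N,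
        (∏ k : Fin (B.h + 1), B.lws Lam N (s k) k (x.1 k)) * tw Lam N (x.2 : ℕ) *
          f (extG (Function.update x.1 p0 (Function.update (x.1 p0) z x.2))) =
      ∑ x : (Fin (B.h + 1) → X → Fin N) × Fin N,
        (∏ k : Fin (B.h + 1), B.lws Lam N (s k) k (x.1 k)) * tw Lam N (x.2 : ℕ) *
          f (extG x.1) := by
    refine Fintype.sum_equiv e _ _ fun x => ?_
    simp only [e, Equiv.coe_fn_mk]
    rw [key]
  rw [h1, h2, Fintype.sum_prod_type]
  refine Finset.sum_congr rfl fun g _ => ?_
  have h5 : ∀ b : Fin N, (∏ k : Fin (B.h + 1), B.lws Lam N (s k) k (g k)) * tw Lam N (b : ℕ) *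
      f (extG g) = ((∏ k : Fin (B.h + 1), B.lws Lam N (s k) k (g k)) * f (extG g)) *
        tw Lam N (b : ℕ) := by
    intro b; ring
  simp only [h5]
  rw [← Finset.mul_sum, hw, mul_one]

end Pool.Agent.AM
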