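import Pool.Agent.Lib.AM.SpecA

set_option linter.all false

/-!
# AM, part A: owners
-/

namespace Pool.Agent.AM

open Finset Pool.Agent.MP_a4c1f4_lc

private theorem FoA_own (hS : SelProp) (X : Type) [Fintype X] [DecidableEq X] [Nonempty X]
    (dp : X → X → ℝ) (eta : ℝ) (g : X → ℕ) (hp : PM dp) (he : 0 < eta) (x z : X) :
    Own dp eta g x z ↔ own dp eta g x = z := by
  have h := hS X dp eta 1 id g x hp he one_pos
  have hex : ∃ z, Own dp eta g x z := h.1
  have hch : Own dp eta g x hex.choose := hex.choose_spec
  have hown : own dp eta g x = hex.choose := by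
    unfold own
    rw [dif_pos hex]
  rw [hown]
  constructor
  · intro hz
    exact h.2.1 _ _ hch hz
  · rintro rfl
    exact hch

theorem foAP (hS : SelProp) : FoAProp := by
  intro X _ _ _ dp eta g hp he
  refine ⟨fun x z => FoA_own hS X dp eta g hp he x z, ?_, ?_⟩
  · intro x z j j' hj h
    induction j', hj using Nat.le_induction with
    | base => exact h
    | succ n _ ih =>
      rw [← FoA_own hS X dp eta _ hp he] at ih ⊢
      exact ((hS X dp eta 1 id g x hp he one_pos).2.2.1 z n ih).1
  · intro x o z j j' h hlt
    rw [← FoA_own hS X dp eta _ hp he] at h ⊢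
    obtain ⟨x0, hx0, hx⟩ := h
    simp only [id] at hx0 hx
    subst hx0
    refine ⟨x0, rfl, fun z' => ?_⟩
    simp only [id]
    by_cases hz : z' = x0
    · right
      rw [hz]
      exact ⟨rfl, le_refl _⟩
    · left
      have h1 := hx z'
      rw [Function.update_self, Function.update_of_ne hz] at h1 ⊢
      have h2 : eta * (g z' : ℝ) - 1 * dp x z' ≤ eta * (j : ℝ) - 1 * dp x x0 := by
        rcases h1 with h1 | h1
        · exact h1.le
        · exact h1.1.le
      have h3 := hp.tri x o z'
      have h4 := hp.tri o x x0
      have h5 := hp.symm o x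
      nlinarith

end Pool.Agent.AM
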