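import Pool.Agent.Lib.AM.SpecA

set_option linter.all false

/-!
# AM, part A, module FoB (helper64): the field as a function of one source
-/

namespace Pool.Agent.AM

open Finset Pool.Agent.MP_a4c1f4_lc

private theorem FoB_le {X : Type} [Fintype X] [Nonempty X] (dp : X → X → ℝ) (eta : ℝ) (g : X → ℕ)
    (x : X) (a : ℝ) (h : ∀ y, eta * (g y : ℝ) - dp x y ≤ a) : fd dp eta g x ≤ a := by
  unfold fd fld
  apply Finset.sup'_le
  intro y _
  have := h y
  simp only [id]
  linarith

private theorem FoB_ge {X : Type} [Fintype X] [Nonempty X] (dp : X → X → ℝ) (eta : ℝ) (g : X → ℕ)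
    (x y : X) : eta * (g y : ℝ) - dp x y ≤ fd dp eta g x := by
  unfold fd fld
  have := Finset.le_sup' (s := (Finset.univ : Finset X))
    (fun w => eta * (g (id w) : ℝ) - 1 * dp x w) (Finset.mem_univ y)
  simp only [id] at this
  simp only [id]
  linarith

theorem foBP (hF : FieldProp) (hS : SelProp) (hA : FoAProp) : FoBProp := by
  intro X _ _ _ dp eta g hpm heta
  have hf := fun g' : X → ℕ => hF X dp eta 1 id g' hpm heta.le zero_le_one
  refine ⟨?_, ?_, ?_, ?_⟩
  · intro x z j
    obtain ⟨h1, h2, h3⟩ := (hf g).2.2 z j x
    refine ⟨h1, h2, h3, ?_, ?_⟩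
    · intro ho
      have hs : Own dp eta (Function.update g z j) x z :=
        ((hA X dp eta (Function.update g z j) hpm heta).1 x z).2 ho
      exact ((hS X dp eta 1 id g x hpm heta one_pos).2.2.1 z j hs).2
    · intro ho
      obtain ⟨zc, hzc⟩ := (hS X dp eta 1 id (Function.update g z (j + 1)) x hpm heta one_pos).1
      have hown : own dp eta (Function.update g z (j + 1)) x = zc :=
        ((hA X dp eta (Function.update g z (j + 1)) hpm heta).1 x zc).1 hzc
      have hne : zc ≠ z := fun h => ho (hown.trans h)
      obtain ⟨x0, hx0, hmax⟩ := hzc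
      have hx0' : x0 = zc := hx0
      subst hx0'
      have hle : fd dp eta (Function.update g z (j + 1)) x ≤ fd dp eta (Function.update g z j) x := by
        refine (FoB_le dp eta _ x (eta * (Function.update g z (j + 1) x0 : ℝ) - dp x x0)
          fun y => ?_).trans ?_
        · have := hmax y
          simp only [id] at this
          rcases this with h | h
          · linarith
          · linarith [h.1]
        · rw [Function.update_of_ne hne]
          have := FoB_ge dp eta (Function.update g z j) x x0
          rwa [Function.update_of_ne hne] at this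
      have h1' : 0 ≤ fd dp eta (Function.update g z (j + 1)) x -
        fd dp eta (Function.update g z j) x := h1
      linarith
  · intro x y
    have := (hf g).1 x y
    rw [one_mul] at this
    exact this
  · exact (hf g).2.1
  · intro n hn x
    apply FoB_le
    intro y
    have h1 := hpm.nonneg x y
    have h2 : (g y : ℝ) ≤ n := by exact_mod_cast hn y
    have h3 : eta * (g y : ℝ) ≤ eta * n := mul_le_mul_of_nonneg_left h2 heta.le
    linarith

end Pool.Agent.AM
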