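import Pool.Agent.Lib.MP_a4c1f4_lc.Step
import Pool.Agent.Lib.MP_a4c1f4_lc.Mono

set_option linter.all false

/-!
# AM: the mirror image of `StepProp` and the change of the optimum (note 5251, (5), (6))
-/

namespace Pool.Agent.AM

open Finset Pool.Agent.MP_a4c1f4_lc

/-- (Mir) upper bound for the change of the price. PROOF. Evaluate the assignment of `x :: l` of the
world `j` in the world `j + 1` and the assignment of `l` of the world `j + 1` in the world `j`. -/
def MirProp : Prop :=
  ∀ (T : Type) [Fintype T] [DecidableEq T] [Nonempty T] (c : ℕ → T → T → ℝ) (δ : ℕ → T → ℝ)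
    (x : T) (l : List T) (j : ℕ), l.length + 1 ≤ Fintype.card T →
    (∀ r s, c (j + 1) r s = c j r s + δ j r - δ j s) → (∀ s, δ j s ≤ δ (j + 1) s) →
    optv (c (j + 1)) (x :: l) - optv (c (j + 1)) l ≤
      optv (c j) (x :: l) - optv (c j) l + δ j x - δ j (srv (c j) x l) +
        (∑ s ∈ used (c (j + 1)) l, δ (j + 1) s - ∑ s ∈ used (c j) l, δ j s)

/-- (Net) lower bound for the change of the optimum. -/
def NetProp : Prop :=
  ∀ (T : Type) [Fintype T] [DecidableEq T] [Nonempty T] (c : ℕ → T → T → ℝ) (δ : ℕ → T → ℝ)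
    (l : List T) (j : ℕ), l.length ≤ Fintype.card T →
    (∀ r s, c (j + 1) r s = c j r s + δ j r - δ j s) →
    (l.map (δ j)).sum - ∑ s ∈ used (c (j + 1)) l, δ j s ≤
      optv (c (j + 1)) l - optv (c j) l

private theorem sum_map_neg {T : Type} (φ : T → ℝ) (l : List T) :
    (l.map (fun s => -φ s)).sum = -(l.map φ).sum := by
  induction l with
  | nil => simp
  | cons a l ih =>
    rw [List.map_cons, List.map_cons, List.sum_cons, List.sum_cons, ih]
    ring

theorem netP (hU : UsedProp) (hP : PotProp) : NetProp := by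
  intro T _ _ _ c δ l j hlen hc
  have u1 := (hU T (c (j + 1)) l).1 hlen
  have p1 := hP T (c (j + 1)) (fun s => -δ j s) l _ u1
  have e1 : (fun r s => c (j + 1) r s + -δ j r - -δ j s) = c j := by
    funext r s
    rw [hc r s]
    ring
  rw [e1, sum_map_neg, sum_neg_distrib] at p1
  linarith

theorem mirP (hU : UsedProp) (hP : PotProp) : MirProp := by
  intro T _ _ _ c δ x l j hlen hc hδ
  have u1 := (hU T (c j) l).2 x hlen
  have p1 := hP T (c j) (δ j) (x :: l) _ u1.2
  have e1 : (fun r s => c j r s + δ j r - δ j s) = c (j + 1) := by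
    funext r s
    rw [hc r s]
  rw [e1, List.map_cons, List.sum_cons, sum_insert u1.1] at p1
  have p2 := netP hU hP T c δ l j (by omega) hc
  have h3 : ∑ s ∈ used (c (j + 1)) l, δ j s ≤ ∑ s ∈ used (c (j + 1)) l, δ (j + 1) s :=
    sum_le_sum fun s _ => hδ s
  linarith

end Pool.Agent.AM
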