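import Pool.Agent.Lib.AM.SpecA
set_option linter.all false
namespace Pool.Agent.AM
open Finset Pool.Agent.MP_a4c1f4_lc

theorem tabP (hA : AbelProp) (h : TwProp) : TabProp := by
  intro Lam mu N a B U M far hLam hN hmu hB haN h1 h2 h3
  obtain ⟨ht0, ht1, hq0, hq1, hqN, hexp, -, -, -, -⟩ := h Lam N hLam hN
  set q := qN Lam N with hq
  set D := 1 - q ^ N with hD
  have hDpos : (1 / 2 : ℝ) ≤ D := by
    rw [hD]; linarith
  have hD0 : 0 < D := by linarith
  have h1q : 1 - q = Lam / (N : ℝ) := by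
    rw [hq, qN]; ring
  have heta : mu * Lam / (N : ℝ) = mu * (Lam / (N : ℝ)) := by ring
  have hetapos : 0 < mu * Lam / (N : ℝ) := by
    rw [heta]; positivity
  have hA1 := hA N a q (mu * Lam / (N : ℝ)) B U M far hq0.le hq1 hetapos hB haN h1 h2 h3
  have hUN : 0 ≤ U N := (h1 N haN le_rfl).1
  have e1 : ∑ j ∈ Ico a N, tw Lam N j * far j =
      (∑ j ∈ Ico a N, (1 - q) * q ^ j * far j) / D := by
    rw [Finset.sum_div]
    refine Finset.sum_congr rfl (fun j _ => ?_)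
    rw [tw, ← hq, ← hD]
    ring
  have e2 : ∑ j ∈ Ico a N, tw Lam N j * U j =
      (∑ j ∈ Ico a N, (1 - q) * q ^ j * U j) / D := by
    rw [Finset.sum_div]
    refine Finset.sum_congr rfl (fun j _ => ?_)
    rw [tw, ← hq, ← hD]
    ring
  have e3 : (1 - q) / (mu * Lam / (N : ℝ)) = 1 / mu := by
    rw [h1q, heta]
    have h4 : Lam / (N : ℝ) ≠ 0 := ht0.ne'
    rw [div_mul_eq_div_div_swap, div_self h4]
  rw [e3] at hA1
  have f1 : q ^ N / D ≤ 2 * Real.exp (-Lam) := by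
    rw [div_le_iff₀ hD0]
    have : 0 ≤ Real.exp (-Lam) := (Real.exp_pos _).le
    nlinarith
  have f2 : (1 - q) / D ≤ 2 * (Lam / (N : ℝ)) := by
    rw [div_le_iff₀ hD0, h1q]
    nlinarith
  rw [e1, e2]
  calc (∑ j ∈ Ico a N, (1 - q) * q ^ j * far j) / D
      ≤ (1 / mu * ((∑ j ∈ Ico a N, (1 - q) * q ^ j * U j) + q ^ N * U N) + (1 - q) * (1 + B)) / D :=
        div_le_div_of_nonneg_right hA1 hD0.le
    _ = 1 / mu * ((∑ j ∈ Ico a N, (1 - q) * q ^ j * U j) / D + q ^ N / D * U N) +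
        (1 - q) / D * (1 + B) := by ring
    _ ≤ 1 / mu * ((∑ j ∈ Ico a N, (1 - q) * q ^ j * U j) / D + 2 * Real.exp (-Lam) * U N) +
        2 * (Lam / (N : ℝ)) * (1 + B) := by
      have g1 : q ^ N / D * U N ≤ 2 * Real.exp (-Lam) * U N := mul_le_mul_of_nonneg_right f1 hUN
      have g2 : (1 - q) / D * (1 + B) ≤ 2 * (Lam / (N : ℝ)) * (1 + B) :=
        mul_le_mul_of_nonneg_right f2 (by linarith)
      have g3 : 0 ≤ 1 / mu := by positivity
      have g4 := mul_le_mul_of_nonneg_left (add_le_add_right g1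
        ((∑ j ∈ Ico a N, (1 - q) * q ^ j * U j) / D)) g3
      linarith

end Pool.Agent.AM
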