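import Pool.Agent.Lib.AM.SpecA

set_option linter.all false

namespace Pool.Agent.AM

open Finset Pool.Agent.MP_a4c1f4_lc

private theorem TeA_pow {th : ℝ} (h0 : th ≤ 1) (j : ℕ) :
    (1 - th) ^ j ≤ Real.exp (-(th * j)) := by
  have h1 : 1 - th ≤ Real.exp (-th) := Real.one_sub_le_exp_neg th
  calc (1 - th) ^ j ≤ Real.exp (-th) ^ j := pow_le_pow_left₀ (by linarith) h1 j
    _ = Real.exp (-(th * j)) := by
      rw [← Real.exp_nat_mul]
      congr 1
      ring

private theorem TeA_exp2 : Real.exp (-2) ≤ 0.1354 := by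
  have h1 := Real.exp_one_gt_d9
  have h2 : Real.exp 2 = Real.exp 1 ^ 2 := by
    rw [← Real.exp_nat_mul]
    norm_num
  rw [Real.exp_neg, h2]
  have h3 : (7.389 : ℝ) ≤ Real.exp 1 ^ 2 := by nlinarith
  calc (Real.exp 1 ^ 2)⁻¹ ≤ (7.389 : ℝ)⁻¹ := inv_anti₀ (by norm_num) h3
    _ ≤ 0.1354 := by norm_num

private theorem TeA_exp3 : Real.exp (-3) ≤ 0.05 := by
  have h1 := Real.exp_one_gt_d9
  have h2 := TeA_exp2
  have h3 : Real.exp (-3) * Real.exp 1 = Real.exp (-2) := by
    rw [← Real.exp_add]
    norm_num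
  have h4 : 0 < Real.exp (-3) := Real.exp_pos _
  nlinarith

/-- the telescoping sum -/
private theorem TeA_sum (th s : ℝ) (h0 : 0 < th) (h1 : th ≤ 1) (hs : 0 < s) (n : ℕ) :
    ∑ j ∈ range n, th * (1 - th) ^ j * max 0 (th * (j : ℝ) - s) ≤ (1 + th) * Real.exp (-s) -
      (if th * (n : ℝ) < s then (1 + th) * Real.exp (-s)
        else (1 - th) ^ n * (th * (n : ℝ) - s + 1)) := by
  induction n with
  | zero =>
    have h2 : th * ((0 : ℕ) : ℝ) < s := by simpa using hs
    rw [if_pos h2]
    simp
  | succ n ih =>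
    rw [sum_range_succ]
    have hq : 0 ≤ (1 - th) ^ n := pow_nonneg (by linarith) n
    have hc : (((n + 1 : ℕ) : ℝ)) = (n : ℝ) + 1 := by push_cast; ring
    rw [hc]
    by_cases ha : th * (n : ℝ) < s
    · have hm : max 0 (th * (n : ℝ) - s) = 0 := max_eq_left (by linarith)
      rw [hm, mul_zero, add_zero]
      rw [if_pos ha] at ih
      by_cases hb : th * ((n : ℝ) + 1) < s
      · rw [if_pos hb]
        exact ih
      · rw [if_neg hb]
        have h2 : (1 - th) ^ (n + 1) ≤ Real.exp (-s) := by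
          refine (TeA_pow h1 (n + 1)).trans (Real.exp_le_exp.2 ?_)
          rw [hc]
          linarith
        have h3 : 0 ≤ (1 - th) ^ (n + 1) := pow_nonneg (by linarith) _
        have h4 : (1 - th) ^ (n + 1) * (th * ((n : ℝ) + 1) - s + 1) ≤ (1 + th) * Real.exp (-s) := by
          have h5 : th * ((n : ℝ) + 1) - s + 1 ≤ 1 + th := by linarith
          calc (1 - th) ^ (n + 1) * (th * ((n : ℝ) + 1) - s + 1) ≤ (1 - th) ^ (n + 1) * (1 + th) :=
                mul_le_mul_of_nonneg_left h5 h3
            _ ≤ Real.exp (-s) * (1 + th) := mul_le_mul_of_nonneg_right h2 (by linarith)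
            _ = (1 + th) * Real.exp (-s) := by ring
        linarith
    · have hm : max 0 (th * (n : ℝ) - s) = th * (n : ℝ) - s := max_eq_right (by linarith)
      have hb : ¬ th * ((n : ℝ) + 1) < s := by
        have : th * ((n : ℝ) + 1) = th * n + th := by ring
        rw [this]
        linarith
      rw [if_neg hb, hm]
      rw [if_neg ha] at ih
      have h5 : (1 - th) ^ n * (th * (n : ℝ) - s + 1) -
          (1 - th) ^ (n + 1) * (th * ((n : ℝ) + 1) - s + 1) =
          th * (1 - th) ^ n * (th * (n : ℝ) - s) + th * th * (1 - th) ^ n := by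
        rw [pow_succ]
        ring
      have h6 : 0 ≤ th * th * (1 - th) ^ n := by positivity
      linarith

theorem texAP (h : TwProp) : TexAProp := by
  intro Lam N v hLam hN hv
  obtain ⟨h1, h2, h3, h4, h5, h6, -⟩ := h Lam N hLam hN
  have htw : ∀ j, tw Lam N j = Lam / N * (1 - Lam / N) ^ j / (1 - qN Lam N ^ N) := by
    intro j
    unfold tw
    have hq : qN Lam N = 1 - Lam / N := rfl
    rw [hq]
    ring_nf
  have hex : ∀ j : ℕ, exj Lam N v j = max 0 (Lam / N * (j : ℝ) - (v + 2)) := by
    intro j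
    unfold exj
    congr 1
    ring
  have hM : 0.999 ≤ 1 - qN Lam N ^ N := by
    have : qN Lam N ^ N ≤ 1 / 1000 := h5.trans h6
    norm_num at this ⊢
    linarith
  have hM0 : 0 < 1 - qN Lam N ^ N := lt_of_lt_of_le (by norm_num) hM
  set M := 1 - qN Lam N ^ N
  set th := Lam / (N : ℝ)
  have hth1 : th ≤ 1 := by linarith
  have hev : 0 < Real.exp (-v) := Real.exp_pos _
  constructor
  · have hsum := TeA_sum th (v + 2) h1 hth1 (by linarith) N
    have hc0 : 0 ≤ (if th * (N : ℝ) < v + 2 then (1 + th) * Real.exp (-(v + 2))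
        else (1 - th) ^ N * (th * (N : ℝ) - (v + 2) + 1)) := by
      split_ifs with hif
      · positivity
      · exact mul_nonneg (pow_nonneg (by linarith) _) (by linarith)
    have h7 : ∑ j ∈ range N, tw Lam N j * exj Lam N v j =
        (∑ j ∈ range N, th * (1 - th) ^ j * max 0 (th * (j : ℝ) - (v + 2))) / M := by
      rw [sum_div]
      refine sum_congr rfl fun j _ => ?_
      rw [htw, hex]
      ring
    have h8 : Real.exp (-(v + 2)) = Real.exp (-v) * Real.exp (-2) := by
      rw [← Real.exp_add]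
      congr 1
      ring
    rw [h7, div_le_iff₀ hM0]
    have h9 : (1 + th) * Real.exp (-(v + 2)) ≤ 25 / 24 * (Real.exp (-v) * 0.1354) := by
      rw [h8]
      have h10 : Real.exp (-v) * Real.exp (-2) ≤ Real.exp (-v) * 0.1354 :=
        mul_le_mul_of_nonneg_left TeA_exp2 hev.le
      have h11 : 0 ≤ Real.exp (-v) * Real.exp (-2) := by positivity
      nlinarith
    have h12 : 0.15 * Real.exp (-v) * 0.999 ≤ 0.15 * Real.exp (-v) * M :=
      mul_le_mul_of_nonneg_left hM (by positivity)
    have h14 : ∑ j ∈ range N, th * (1 - th) ^ j * max 0 (th * (j : ℝ) - (v + 2)) ≤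
        25 / 24 * (Real.exp (-v) * 0.1354) := by linarith
    refine h14.trans (le_trans ?_ h12)
    nlinarith
  · intro j
    rw [htw, hex]
    rcases le_or_gt (th * (j : ℝ) - (v + 2)) 0 with hle | hgt
    · rw [max_eq_left hle, mul_zero]
      positivity
    · rw [max_eq_right hgt.le]
      have h7 := TeA_pow hth1 j
      have h8 : th * (j : ℝ) - (v + 2) ≤ Real.exp (th * (j : ℝ) - (v + 2) - 1) := by
        have := Real.add_one_le_exp (th * (j : ℝ) - (v + 2) - 1)
        linarith
      have h9 : (1 - th) ^ j * (th * (j : ℝ) - (v + 2)) ≤ Real.exp (-v) * Real.exp (-3) := by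
        calc (1 - th) ^ j * (th * (j : ℝ) - (v + 2)) ≤
            Real.exp (-(th * j)) * Real.exp (th * (j : ℝ) - (v + 2) - 1) :=
              mul_le_mul h7 h8 hgt.le (Real.exp_pos _).le
          _ = Real.exp (-v) * Real.exp (-3) := by
              rw [← Real.exp_add, ← Real.exp_add]
              congr 1
              ring
      have h10 : Real.exp (-v) * Real.exp (-3) ≤ Real.exp (-v) * 0.05 :=
        mul_le_mul_of_nonneg_left TeA_exp3 hev.le
      have h11 : th * (1 - th) ^ j / M * (th * (j : ℝ) - (v + 2)) =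
          th * ((1 - th) ^ j * (th * (j : ℝ) - (v + 2))) / M := by ring
      rw [h11, div_le_iff₀ hM0]
      have h12 : th * ((1 - th) ^ j * (th * (j : ℝ) - (v + 2))) ≤ th * (Real.exp (-v) * 0.05) :=
        mul_le_mul_of_nonneg_left (h9.trans h10) h1.le
      have h13 : 0.06 * th * Real.exp (-v) * 0.999 ≤ 0.06 * th * Real.exp (-v) * M :=
        mul_le_mul_of_nonneg_left hM (by positivity)
      have h14 : 0 < th * Real.exp (-v) := by positivity
      norm_num at h12 h13 ⊢
      nlinarith

end Pool.Agent.AM
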