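import Pool.Agent.Lib.AM.SpecA

set_option linter.all false

/-!
# AM, part A, file TeB: the tail of the excess

The sum of `q^k (a + θ k)` over `k ≥ 1` is bounded by telescoping.
-/

namespace Pool.Agent.AM

open Finset Pool.Agent.MP_a4c1f4_lc

private theorem TeB_tel (θ a : ℝ) (hθ : 0 < θ) (hθ1 : θ ≤ 1) (ha : 0 ≤ a) (n : ℕ) :
    ∑ k ∈ range n, (1 - θ) ^ (k + 1) * (a + θ * ((k : ℝ) + 1)) ≤
      (a + 1) / θ - (1 - θ) ^ n * (a + θ * (n : ℝ) + 1) / θ := by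
  induction n with
  | zero => simp
  | succ n ih =>
    rw [sum_range_succ]
    have hq : 0 ≤ 1 - θ := by linarith
    have e : (1 - θ) ^ n * (a + θ * (n : ℝ) + 1) / θ -
        (1 - θ) ^ (n + 1) * (a + θ * ((n : ℝ) + 1) + 1) / θ =
        (1 - θ) ^ n * (a + θ * ((n : ℝ) + 1)) := by
      rw [← sub_div, div_eq_iff hθ.ne', pow_succ]
      ring
    have e1 : 0 ≤ (1 - θ) ^ n * (a + θ * ((n : ℝ) + 1)) :=
      mul_nonneg (pow_nonneg hq n) (by positivity)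
    have e2 : (1 - θ) ^ (n + 1) * (a + θ * ((n : ℝ) + 1)) ≤
        (1 - θ) ^ n * (a + θ * ((n : ℝ) + 1)) := by
      have e3 : (1 - θ) ^ (n + 1) * (a + θ * ((n : ℝ) + 1)) =
          (1 - θ) * ((1 - θ) ^ n * (a + θ * ((n : ℝ) + 1))) := by
        rw [pow_succ]; ring
      rw [e3]
      nlinarith
    push_cast
    linarith

private theorem TeB_tw (Lam : ℝ) (N i k : ℕ) : tw Lam N (i + k) = tw Lam N i * qN Lam N ^ k := by
  unfold tw
  rw [pow_add]
  ring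

private theorem TeB_exj (Lam : ℝ) (N : ℕ) (v : ℝ) (i k : ℕ) (h : 0 ≤ Lam / (N : ℝ)) :
    exj Lam N v (i + k) ≤ exj Lam N v i + Lam / (N : ℝ) * (k : ℝ) := by
  unfold exj
  have h1 : 0 ≤ Lam / (N : ℝ) * (k : ℝ) := mul_nonneg h (Nat.cast_nonneg k)
  have h2 : 0 ≤ max 0 (Lam * (i : ℝ) / (N : ℝ) - v - 2) := le_max_left _ _
  have h3 : Lam * (i : ℝ) / (N : ℝ) - v - 2 ≤ max 0 (Lam * (i : ℝ) / (N : ℝ) - v - 2) :=
    le_max_right _ _
  refine max_le (by linarith) ?_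
  have e : Lam * ((i + k : ℕ) : ℝ) / (N : ℝ) =
      Lam * (i : ℝ) / (N : ℝ) + Lam / (N : ℝ) * (k : ℝ) := by
    push_cast
    ring
  rw [e]
  linarith

theorem texBP (h : TwProp) : TexBProp := by
  intro Lam N v hL hN i
  obtain ⟨hθ, hθ1, hq0, hq1, -, -, htw, -, -, -⟩ := h Lam N hL hN
  have ha : 0 ≤ exj Lam N v i := le_max_left _ _
  have hq : qN Lam N = 1 - Lam / (N : ℝ) := rfl
  rw [Finset.sum_Ico_eq_sum_range]
  have s1 : ∑ k ∈ range (N - (i + 1)), tw Lam N (i + 1 + k) * exj Lam N v (i + 1 + k) ≤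
      ∑ k ∈ range (N - (i + 1)), tw Lam N i * ((1 - Lam / (N : ℝ)) ^ (k + 1) *
        (exj Lam N v i + Lam / (N : ℝ) * ((k : ℝ) + 1))) := by
    refine Finset.sum_le_sum fun k _ => ?_
    have e0 : i + 1 + k = i + (k + 1) := by omega
    rw [e0, TeB_tw, ← hq, mul_assoc]
    refine mul_le_mul_of_nonneg_left ?_ (htw i)
    refine mul_le_mul_of_nonneg_left ?_ (pow_nonneg hq0.le _)
    have := TeB_exj Lam N v i (k + 1) hθ.le
    push_cast at this
    exact this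
  refine s1.trans ?_
  rw [← Finset.mul_sum]
  have t := TeB_tel (Lam / (N : ℝ)) (exj Lam N v i) hθ (by linarith) ha (N - (i + 1))
  have t1 : 0 ≤ (1 - Lam / (N : ℝ)) ^ (N - (i + 1)) *
      (exj Lam N v i + Lam / (N : ℝ) * ((N - (i + 1) : ℕ) : ℝ) + 1) / (Lam / (N : ℝ)) := by
    refine div_nonneg (mul_nonneg (pow_nonneg (by rw [← hq]; exact hq0.le) _) ?_) hθ.le
    have := mul_nonneg hθ.le (Nat.cast_nonneg (N - (i + 1)) : (0 : ℝ) ≤ _)
    linarith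
  have t2 : (exj Lam N v i + 1) / (Lam / (N : ℝ)) = (exj Lam N v i + 1) * ((N : ℝ) / Lam) := by
    rw [div_eq_mul_inv, inv_div]
  rw [mul_assoc, ← t2]
  exact mul_le_mul_of_nonneg_left (by linarith) (htw i)

end Pool.Agent.AM
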