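import Pool.Agent.Lib.AM.SpecA

set_option linter.all false

/-!
# AM, part A: truncated geometric weights and the excess
-/

namespace Pool.Agent.AM

open Finset Pool.Agent.MP_a4c1f4_lc

/-- Geometric sum over an initial segment. -/
private theorem TeC_range (Lam : ℝ) (N n : ℕ) :
    ∑ j ∈ range n, tw Lam N j = (1 - qN Lam N ^ n) / (1 - qN Lam N ^ N) := by
  unfold tw
  rw [← Finset.sum_div, ← Finset.mul_sum, mul_neg_geom_sum]

/-- Geometric sum over a final segment. -/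
private theorem TeC_Ico (Lam : ℝ) (N j : ℕ) (hj : j ≤ N) :
    ∑ i ∈ Ico j N, tw Lam N i = (qN Lam N ^ j - qN Lam N ^ N) / (1 - qN Lam N ^ N) := by
  rw [Finset.sum_Ico_eq_sub _ hj, TeC_range, TeC_range, ← sub_div]
  congr 1
  ring

private theorem TeC_exp : Real.exp (-1) ≤ 3 / 8 := by
  rw [Real.exp_neg]
  have h := Real.exp_one_gt_d9
  have h2 : (8 / 3 : ℝ) ≤ Real.exp 1 := by linarith
  have h3 := inv_anti₀ (by norm_num : (0 : ℝ) < 8 / 3) h2
  linarith [h3, (by norm_num : (8 / 3 : ℝ)⁻¹ = 3 / 8)]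

theorem texCP (h : TwProp) : TexCProp := by
  intro Lam N v hL hN hv
  obtain ⟨hθ0, hθ1, hq0, hq1, hqN, hE, htw0, htw1, hmono, hsum⟩ := h Lam N hL hN
  have hL0 : 0 < Lam := by linarith
  have hNr : (0 : ℝ) < N := by nlinarith
  have hN0 : (N : ℝ) ≠ 0 := hNr.ne'
  obtain ⟨θ, hθ⟩ : ∃ θ : ℝ, θ = Lam / (N : ℝ) := ⟨_, rfl⟩
  have hqθ : qN Lam N = 1 - θ := by rw [hθ]; rfl
  have hlin : ∀ j : ℝ, Lam * j / (N : ℝ) = θ * j := fun j => by rw [hθ]; ring
  rw [← hθ] at hθ0 hθ1
  have hD : 0 < 1 - qN Lam N ^ N := by linarith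
  have hqN0 : 0 < qN Lam N ^ N := pow_pos hq0 N
  refine ⟨?_, ?_, fun j => le_max_left _ _, ?_, ?_, ?_⟩
  · -- the values at most one
    obtain ⟨a, ha⟩ : ∃ a : ℕ, a = ⌊(N : ℝ) / Lam⌋₊ := ⟨_, rfl⟩
    have ha1 : (a : ℝ) ≤ (N : ℝ) / Lam := by rw [ha]; exact Nat.floor_le (by positivity)
    have ha2 : (N : ℝ) / Lam < (a : ℝ) + 1 := by rw [ha]; exact Nat.lt_floor_add_one _
    have hθN : θ * ((N : ℝ) / Lam) = 1 := by rw [hθ]; field_simp
    have haN : a + 1 ≤ N := by
      have h1 : (a : ℝ) < N := by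
        refine lt_of_le_of_lt ha1 ?_
        rw [div_lt_iff₀ hL0]
        nlinarith
      exact_mod_cast h1
    have hsub : range (a + 1) ⊆ range N := Finset.range_mono haN
    have h1 : ∑ j ∈ range (a + 1), tw Lam N j ≤
        ∑ j ∈ range N, tw Lam N j * ind (Lam * (j : ℝ) / (N : ℝ) ≤ 1) := by
      refine le_trans (Finset.sum_le_sum fun j hj => ?_) (Finset.sum_le_sum_of_subset_of_nonneg hsub
        (fun j _ _ => mul_nonneg (htw0 j) (ind_nonneg _)))
      have hja : (j : ℝ) ≤ a := by exact_mod_cast Nat.lt_succ_iff.1 (Finset.mem_range.1 hj)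
      have hj1 : Lam * (j : ℝ) / (N : ℝ) ≤ 1 := by
        rw [hlin, ← hθN]
        exact mul_le_mul_of_nonneg_left (hja.trans ha1) hθ0.le
      rw [ind_true hj1, mul_one]
    refine le_trans ?_ h1
    rw [TeC_range]
    have h2 : qN Lam N ^ (a + 1) ≤ Real.exp (-1) := by
      have h3 : qN Lam N ≤ Real.exp (-θ) := by
        rw [hqθ]; exact Real.one_sub_le_exp_neg θ
      refine (pow_le_pow_left₀ hq0.le h3 (a + 1)).trans ?_
      rw [← Real.exp_nat_mul]
      refine Real.exp_le_exp.2 ?_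
      push_cast
      nlinarith [mul_lt_mul_of_pos_left ha2 hθ0]
    have h4 := TeC_exp
    rw [le_div_iff₀ hD]
    nlinarith
  · -- one weight against the tail
    intro j hj
    rw [TeC_Ico Lam N j hj]
    have e : tw Lam N j = θ * (qN Lam N ^ j / (1 - qN Lam N ^ N)) := by
      unfold tw
      rw [show 1 - qN Lam N = θ by rw [hqθ]; ring]
      ring
    rw [e, ← hθ]
    refine mul_le_mul_of_nonneg_left ?_ hθ0.le
    have h1 : qN Lam N ^ N / (1 - qN Lam N ^ N) ≤ 2 * Real.exp (-Lam) := by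
      rw [div_le_iff₀ hD]
      nlinarith [Real.exp_pos (-Lam)]
    have e2 : qN Lam N ^ j / (1 - qN Lam N ^ N) =
        (qN Lam N ^ j - qN Lam N ^ N) / (1 - qN Lam N ^ N) + qN Lam N ^ N / (1 - qN Lam N ^ N) := by
      ring
    rw [e2]
    linarith
  · intro j hj
    have hjr : (j : ℝ) ≤ N := by exact_mod_cast hj
    have h1 : Lam * (j : ℝ) / (N : ℝ) ≤ Lam := by
      rw [div_le_iff₀ hNr]
      exact mul_le_mul_of_nonneg_left hjr hL0.le
    exact max_le hL0.le (by linarith)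
  · intro j hj
    exact max_eq_left (by linarith)
  · intro j j' hjj
    have hjr : (j : ℝ) ≤ j' := by exact_mod_cast hjj
    have h1 : Lam * (j : ℝ) / (N : ℝ) ≤ Lam * (j' : ℝ) / (N : ℝ) := by
      rw [hlin, hlin]
      exact mul_le_mul_of_nonneg_left hjr hθ0.le
    constructor
    · exact max_le_max le_rfl (by linarith)
    · rw [← hθ]
      have h2 : 0 ≤ θ * ((j' : ℝ) - j) := mul_nonneg hθ0.le (by linarith)
      unfold exj
      refine max_le ?_ ?_
      · exact add_nonneg (le_max_left _ _) h2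
      · have h3 := le_max_right 0 (Lam * (j : ℝ) / (N : ℝ) - v - 2)
        rw [hlin] at h3 ⊢
        rw [hlin]
        linarith

end Pool.Agent.AM
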