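import Pool.Agent.Lib.AM.A.Tw
import Pool.Agent.Lib.AM.A.TeA
import Pool.Agent.Lib.AM.A.TeB
import Pool.Agent.Lib.AM.A.TeC
import Pool.Agent.Lib.AM.A.Tab
import Pool.Agent.Lib.AM.A.FoA
import Pool.Agent.Lib.AM.A.FoB
import Pool.Agent.Lib.AM.A.Eb
import Pool.Agent.Lib.AM.A.Er
import Pool.Agent.Lib.AM.A.Mir
import Pool.Agent.Lib.AM.B.Ps
import Pool.Agent.Lib.AM.B.One
import Pool.Agent.Lib.AM.B.Net
import Pool.Agent.Lib.AM.B.Mat
import Pool.Agent.Lib.AM.B.Dec
import Pool.Agent.Lib.AM.B.Cro
import Pool.Agent.Lib.AM.B.Ar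
import Pool.Agent.Lib.AM.B.Ar2
import Pool.Agent.Lib.AM.B.DL
import Pool.Agent.Lib.MP_a4c1f4_lc.Abel
import Pool.Agent.Lib.MP_a4c1f4_lc.Field
import Pool.Agent.Lib.MP_a4c1f4_lc.Sel
import Pool.Agent.Lib.MP_a4c1f4_lc.OptBasic
import Pool.Agent.Lib.MP_a4c1f4_lc.Augment
import Pool.Agent.Lib.MP_a4c1f4_lc.AugOpt
import Pool.Agent.Lib.MP_a4c1f4_lc.Used
import Pool.Agent.Lib.MP_a4c1f4_lc.Mono
import Pool.Agent.Lib.MP_a4c1f4_lc.Step

set_option linter.all false

/-!
# AM: the general lemmas of part A and the one-source part B, without hypotheses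
-/

namespace Pool.Agent.AM

open Finset Pool.Agent.MP_a4c1f4_lc

theorem all_used : UsedProp := usedP (augOpt augment optBasic)
theorem all_mono : MonoProp := mono optBasic
theorem all_pot : Pool.Agent.MP_a4c1f4_lc.PotProp := potP optBasic
theorem all_step : StepProp := stepP all_used all_pot
theorem all_tw : TwProp := twP
theorem all_texA : TexAProp := texAP all_tw
theorem all_texB : TexBProp := texBP all_tw
theorem all_texC : TexCProp := texCP all_tw
theorem all_tab : TabProp := tabP abel all_tw
theorem all_foA : FoAProp := foAP selP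
theorem all_foB : FoBProp := foBP field selP all_foA
theorem all_eb : EbProp := ebP all_tw
theorem all_er : ErProp := erP all_tw
theorem all_mir : MirProp := mirP all_used all_pot
theorem all_net : NetProp := netP all_used all_pot
theorem all_ps : PsB := psP all_used
theorem all_one : OneB := oneP all_mono all_mir
theorem all_netB : NetB := netBP all_ps all_net
theorem all_mat : MatB := matP optBasic
theorem all_dec : DecB := decP all_mono all_ps all_one all_netB all_mat
theorem all_cro : CroB := croP all_mono all_step all_tw all_tab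
theorem all_ar : ArB := arP all_one all_tw all_texA all_texC
theorem all_ar2 : ArB2 := ar2P all_mono all_tw all_texC all_ar
theorem all_dl : DLB := dlP all_mono all_tw all_texA all_texB all_texC all_dec

end Pool.Agent.AM
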