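import Pool.Agent.Lib.AM.SpecA2

set_option linter.all false

/-!
AM, part A, file ArrN: auxiliary lemmas for the arrivals at the bottom field.
-/

namespace Pool.Agent.AM

open Finset Pool.Agent.MP_a4c1f4_lc

theorem Arr_mono {S : Type} {f g : S → List S → ℝ} {n : ℕ}
    (h : ∀ x l, l.length + 1 ≤ n → f x l ≤ g x l) :
    ∀ l : List S, l.length ≤ n → psum f l ≤ psum g l
  | [], _ => le_refl _
  | x :: l, hl => by
    have hl' : l.length + 1 ≤ n := by simpa using hl
    exact add_le_add (Arr_mono h l (by omega)) (h x l hl')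

theorem Arr_add {S : Type} (f g : S → List S → ℝ) :
    ∀ l : List S, psum (fun x l' => f x l' + g x l') l = psum f l + psum g l
  | [] => by simp [psum]
  | x :: l => by
    simp only [psum]
    rw [Arr_add f g l]
    ring

theorem Arr_smul {S : Type} (a : ℝ) (f : S → List S → ℝ) :
    ∀ l : List S, psum (fun x l' => a * f x l') l = a * psum f l
  | [] => by simp [psum]
  | x :: l => by
    simp only [psum]
    rw [Arr_smul a f l]
    ring

theorem Arr_sum {S ι : Type} (s : Finset ι) (f : ι → S → List S → ℝ) :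
    ∀ l : List S, psum (fun x l' => ∑ i ∈ s, f i x l') l = ∑ i ∈ s, psum (f i) l
  | [] => by simp [psum]
  | x :: l => by
    simp only [psum]
    rw [Arr_sum s f l, ← Finset.sum_add_distrib]

theorem Arr_const {S : Type} (a : ℝ) :
    ∀ l : List S, psum (fun _ _ => a) l = (l.length : ℝ) * a
  | [] => by simp [psum]
  | x :: l => by
    simp only [psum]
    rw [Arr_const a l]
    push_cast [List.length_cons]
    ring

theorem Arr_Esum {X ι : Type} [Fintype X] [DecidableEq X] (B : Blk X) (Lam : ℝ) (N : ℕ)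
    (s : ℕ → Bool) (t : Finset ι) (f : ι → (ℕ → X → ℕ) → ℝ) :
    B.E Lam N s (fun G => ∑ i ∈ t, f i G) = ∑ i ∈ t, B.E Lam N s (f i) := by
  unfold Blk.E
  simp_rw [Finset.mul_sum]
  rw [Finset.sum_comm]

/-- Pointwise bound for the arrivals. -/
theorem Arr_pt {X K : Type} [Fintype X] [DecidableEq X] [Nonempty X] [Fintype K]
    [DecidableEq K] [Nonempty K] (B : Blk X) (sg : K → X) (Lam : ℝ) (N : ℕ) (D : X → X → ℝ)
    (cl : X → List X) (hD : PM D) (hnr : 0 ≤ B.sr 0) (hsr : 8 * B.sr 0 ≤ B.nr 0)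
    (G : ℕ → X → ℕ) (hL : 0 ≤ Lam)
    (hex : ∀ z, 0 ≤ B.ex Lam N 0 z (G 0 z) ∧ B.ex Lam N 0 z (G 0 z) ≤ Lam)
    (hsure : ∀ x, D x (B.ow Lam N G 0 x) ≤ B.sr 0) (x : K) (l : List K) :
    B.arr sg Lam N cl G x l ≤ ind (B.Crs sg Lam N cl G 0 x l) * 1 +
      (∑ z, ind (D (sg x) z ≤ B.nr 0) * (B.ex Lam N 0 z (G 0 z) *
        ind (B.owT sg Lam N G 0 (sv (B.c sg Lam N cl G) x l) = some z ∧
          B.ow Lam N G 0 (sg x) ≠ z)) + Lam * ind (B.FarE sg Lam N D cl G 0 x l)) := by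
  have hnn : ∀ z, 0 ≤ ind (D (sg x) z ≤ B.nr 0) * (B.ex Lam N 0 z (G 0 z) *
        ind (B.owT sg Lam N G 0 (sv (B.c sg Lam N cl G) x l) = some z ∧
          B.ow Lam N G 0 (sg x) ≠ z)) := fun z =>
    mul_nonneg (ind_nonneg _) (mul_nonneg (hex z).1 (ind_nonneg _))
  have hs : 0 ≤ ∑ z, ind (D (sg x) z ≤ B.nr 0) * (B.ex Lam N 0 z (G 0 z) *
        ind (B.owT sg Lam N G 0 (sv (B.c sg Lam N cl G) x l) = some z ∧
          B.ow Lam N G 0 (sg x) ≠ z)) := Finset.sum_nonneg fun z _ => hnn z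
  have hF : 0 ≤ Lam * ind (B.FarE sg Lam N D cl G 0 x l) := mul_nonneg hL (ind_nonneg _)
  have hC : 0 ≤ ind (B.Crs sg Lam N cl G 0 x l) := ind_nonneg _
  cases hy : sv (B.c sg Lam N cl G) x l with
  | inr v =>
    have h0 : B.arr sg Lam N cl G x l = 0 := by
      unfold Blk.arr
      rw [hy]
    rw [hy] at hs
    rw [h0]
    linarith
  | inl v =>
    have h0 : B.arr sg Lam N cl G x l = ind (B.ow Lam N G 0 (sg v) ≠ B.ow Lam N G 0 (sg x)) *
      (1 + B.ex Lam N 0 (B.ow Lam N G 0 (sg v)) (G 0 (B.ow Lam N G 0 (sg v)))) := by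
      unfold Blk.arr Blk.exc
      rw [hy]
    rw [hy] at hs hnn
    have hoT : B.owT sg Lam N G 0 (Sum.inl v) = some (B.ow Lam N G 0 (sg v)) := rfl
    rw [h0]
    by_cases hne : B.ow Lam N G 0 (sg v) = B.ow Lam N G 0 (sg x)
    · rw [ind_false (fun h => h hne)]
      linarith
    · have hCrs : B.Crs sg Lam N cl G 0 x l := by
        unfold Blk.Crs
        rw [hy, hoT]
        intro h
        exact hne (Option.some.inj h)
      rw [ind_true hne, ind_true hCrs]
      by_cases hfar : D (sg x) (B.ow Lam N G 0 (sg v)) ≤ B.nr 0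
      · have h1 := Finset.single_le_sum (fun z _ => hnn z)
          (Finset.mem_univ (B.ow Lam N G 0 (sg v)))
        rw [ind_true hfar, ind_true (⟨hoT, fun h => hne h.symm⟩ :
          B.owT sg Lam N G 0 (Sum.inl v) = some (B.ow Lam N G 0 (sg v)) ∧
            B.ow Lam N G 0 (sg x) ≠ B.ow Lam N G 0 (sg v))] at h1
        linarith
      · have hFE : B.FarE sg Lam N D cl G 0 x l := by
          refine ⟨v, hy, ?_⟩
          have h2 := hD.tri (sg x) (sg v) (B.ow Lam N G 0 (sg v))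
          have h3 := hsure (sg v)
          have h4 := lt_of_not_ge hfar
          linarith
        rw [ind_true hFE]
        have := (hex (B.ow Lam N G 0 (sg v))).2
        linarith

/-- One source: resample it, apply `AoProp`, resample back. -/
theorem Arr_near (hE : EbProp) (hR : ErProp) (hB : BoProp) (hAo : AoProp)
    (X K : Type) [Fintype X] [DecidableEq X] [Nonempty X] [Fintype K] [DecidableEq K]
    [Nonempty K] (B : Blk X) (sg : K → X) (Lam : ℝ) (N : ℕ) (D : X → X → ℝ)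
    (cl : X → List X) (l : List K) (hOK : B.OK Lam N D cl) (hlen : l.length ≤ Fintype.card K)
    (s : ℕ → Bool) (hs : s 0 = false) (hth : 0 ≤ Lam / (N : ℝ)) (z : X) :
    B.E Lam N s (fun G => psum (fun x l' => ind (D (sg x) z ≤ B.nr 0) *
      (B.ex Lam N 0 z (G 0 z) *
        ind (B.owT sg Lam N G 0 (sv (B.c sg Lam N cl G) x l') = some z ∧
          B.ow Lam N G 0 (sg x) ≠ z))) l) ≤
    B.E Lam N s (fun G => psum (fun x l' => ind (D (sg x) z ≤ B.nr 0) *
      (0.1 * Real.exp (- B.vb 0 z) / B.mu 0 * pr (B.c sg Lam N cl G) x l')) l) +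
      (Fintype.card K : ℝ) * (((Fintype.card K : ℝ) + 1) * (Lam / (N : ℝ))) := by
  obtain ⟨hmono, hconst, hadd, hsmul, -⟩ := hE X B Lam N D cl hOK s
  rw [hR X B Lam N hOK.hLam hOK.hN s 0 (Nat.zero_le _) hs z (fun G => psum (fun x l' =>
      ind (D (sg x) z ≤ B.nr 0) * (B.ex Lam N 0 z (G 0 z) *
        ind (B.owT sg Lam N G 0 (sv (B.c sg Lam N cl G) x l') = some z ∧
          B.ow Lam N G 0 (sg x) ≠ z))) l),
    hR X B Lam N hOK.hLam hOK.hN s 0 (Nat.zero_le _) hs z (fun G => psum (fun x l' =>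
      ind (D (sg x) z ≤ B.nr 0) *
      (0.1 * Real.exp (- B.vb 0 z) / B.mu 0 * pr (B.c sg Lam N cl G) x l')) l)]
  have h0 := hconst ((Fintype.card K : ℝ) * (((Fintype.card K : ℝ) + 1) * (Lam / (N : ℝ))))
  rw [← h0, ← hadd]
  refine hmono _ _ fun G hG _ => ?_
  have hV : Vl N G := fun i z => (hG i z).le
  have hu : ∀ j, upd G 0 z j 0 z = j := by
    intro j
    unfold upd
    rw [Function.update_self, Function.update_self]
  beta_reduce
  simp_rw [hu, ← Arr_smul]
  rw [← Arr_sum, ← Arr_sum]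
  have hc : psum (fun (_ : K) (_ : List K) => ((Fintype.card K : ℝ) + 1) * (Lam / (N : ℝ))) l ≤
      (Fintype.card K : ℝ) * (((Fintype.card K : ℝ) + 1) * (Lam / (N : ℝ))) := by
    rw [Arr_const]
    refine mul_le_mul_of_nonneg_right (by exact_mod_cast hlen) ?_
    positivity
  refine le_trans ?_ (add_le_add_right hc _)
  rw [← Arr_add]
  refine Arr_mono (n := Fintype.card K) (fun x l' hl' => ?_) l hlen
  have h1 := hAo X K B sg Lam N D cl hOK 0 (Nat.zero_le _) G hV z x l' hl'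
  have h2 := mul_le_mul_of_nonneg_left h1 (ind_nonneg (D (sg x) z ≤ B.nr 0))
  have h3 : ind (D (sg x) z ≤ B.nr 0) * (((Fintype.card K : ℝ) + 1) * (Lam / (N : ℝ))) ≤
      ((Fintype.card K : ℝ) + 1) * (Lam / (N : ℝ)) :=
    mul_le_of_le_one_left (by positivity) (ind_le_one _)
  rw [mul_add, Finset.mul_sum, Finset.mul_sum, Finset.mul_sum] at h2
  have e1 : ∀ j, ind (D (sg x) z ≤ B.nr 0) * (tw Lam N j * (B.ex Lam N 0 z j *
        ind (B.owT sg Lam N (upd G 0 z j) 0 (sv (B.c sg Lam N cl (upd G 0 z j)) x l') = some z ∧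
          B.ow Lam N (upd G 0 z j) 0 (sg x) ≠ z))) =
      tw Lam N j * (ind (D (sg x) z ≤ B.nr 0) * (B.ex Lam N 0 z j *
        ind (B.owT sg Lam N (upd G 0 z j) 0 (sv (B.c sg Lam N cl (upd G 0 z j)) x l') = some z ∧
          B.ow Lam N (upd G 0 z j) 0 (sg x) ≠ z))) := fun j => by ring
  have e2 : ∀ j, ind (D (sg x) z ≤ B.nr 0) * (0.1 * Real.exp (- B.vb 0 z) / B.mu 0 *
        (tw Lam N j * pr (B.c sg Lam N cl (upd G 0 z j)) x l')) =
      tw Lam N j * (ind (D (sg x) z ≤ B.nr 0) * (0.1 * Real.exp (- B.vb 0 z) / B.mu 0 *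
        pr (B.c sg Lam N cl (upd G 0 z j)) x l')) := fun j => by ring
  simp_rw [e1, e2] at h2
  linarith

end Pool.Agent.AM
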