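import Pool.Agent.Lib.AM.SpecA2

set_option linter.all false

/-!
# AM, part A: crossings of field `i` (`CrossProp0` of `Iface.lean`)

With `s' = free sT i`: the law of the algorithm is bounded by twice the law in which field `i` is
unconditioned, then `CrProp` with the weight `1` and `psum pr = optv ≤ P`.
-/

namespace Pool.Agent.AM

open Finset Pool.Agent.MP_a4c1f4_lc

private theorem Cross0_psum_nonneg {S : Type} (f : S → List S → ℝ) (hf : ∀ x l, 0 ≤ f x l)
    (l : List S) : 0 ≤ psum f l := by
  induction l with
  | nil => simp [psum]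
  | cons x l ih =>
    have := hf x l
    simp only [psum]
    linarith

private theorem Cross0_ind_nonneg (p : Prop) : 0 ≤ ind p := by
  unfold ind
  split_ifs <;> norm_num

theorem cross0P (hE : EbProp) (hC : CnProp) (hP : PnProp) (hCr : CrProp) : CrossProp0 := by
  intro X K _ _ _ _ _ _ B sg Lam N D cl C l P hOK hBd i hi
  have hmu : 0 < B.mu i := hOK.mu i hi
  have hLam : 24 ≤ Lam := hOK.hLam
  have her : 0 ≤ er X K Lam N := by
    unfold er
    have h0 : 0 ≤ Lam := by linarith
    positivity
  have hP0 : 0 ≤ P := le_trans (mul_nonneg hOK.Rpos.le her) hBd.er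
  obtain ⟨-, -, -, -, h5⟩ := hE X B Lam N D cl hOK sT
  have hs : free sT i i = false := by simp [free]
  obtain ⟨hmono, hconst, -, -, -⟩ := hE X B Lam N D cl hOK (free sT i)
  have h1 := h5 (fun G => psum (fun x l => ind (B.Crs sg Lam N cl G i x l)) l)
    (fun G _ => Cross0_psum_nonneg _ (fun x l => Cross0_ind_nonneg _) l) i hi
  have h2 := hCr X K B sg Lam N D cl C l P hOK hBd i hi (free sT i) hs (fun _ _ => 1)
    (fun G x _ => ⟨zero_le_one, by linarith⟩) (fun _ _ _ _ => rfl)
  simp only [mul_one] at h2
  have h3 : B.E Lam N (free sT i) (fun G => psum (fun x l' => pr (B.c sg Lam N cl G) x l') l) ≤ P := by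
    calc B.E Lam N (free sT i) (fun G => psum (fun x l' => pr (B.c sg Lam N cl G) x l') l)
        ≤ B.E Lam N (free sT i) (fun _ => P) := by
          apply hmono
          intro G hG _
          have hV : Vl N G := fun i z => (hG i z).le
          have hc := (hC X K B sg Lam N D cl hOK G hV).2.2.1
          have := (hP K (B.c sg Lam N cl G) hc).2.1 l
          rw [this]
          exact hBd.bd G hV
      _ = P := hconst P
  have h4 : 1 / B.mu i * (B.E Lam N (free sT i)
      (fun G => psum (fun x l' => pr (B.c sg Lam N cl G) x l') l) + P / 20) ≤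
      1 / B.mu i * (P + P / 20) :=
    mul_le_mul_of_nonneg_left (by linarith) (by positivity)
  have h6 : 0 ≤ 1 / B.mu i * P := mul_nonneg (by positivity) hP0
  have h7 : 200 / B.mu i * P = 200 * (1 / B.mu i * P) := by ring
  have h8 : 1 / B.mu i * (P + P / 20) = 1.05 * (1 / B.mu i * P) := by ring
  rw [h7]
  rw [h8] at h4
  linarith

end Pool.Agent.AM
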