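import Pool.Agent.Lib.MP_a4c1f4_lc.Field
import Pool.Agent.Lib.MP_a4c1f4_lc.Sel

set_option linter.all false

/-!
# AM: owner facts, the effect of the value of one source on the field and on its cell

The field is `fld dp eta 1 id g` (`= fd dp eta g`), the cell of `z` is `{p | Sel dp eta 1 id g p z}`
(`= Own dp eta g p z`).
-/

namespace Pool.Agent.AM

open Finset Pool.Agent.MP_a4c1f4_lc

/-- (OwF) -/
def OwFProp : Prop :=
  ∀ (X : Type) [Fintype X] [DecidableEq X] [Nonempty X] (dp : X → X → ℝ) (eta : ℝ) (g : X → ℕ)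
    (z p : X) (j : ℕ), PM dp → 0 < eta →
    0 ≤ fld dp eta 1 id (Function.update g z (j + 1)) p - fld dp eta 1 id (Function.update g z j) p ∧
    fld dp eta 1 id (Function.update g z (j + 1)) p -
      fld dp eta 1 id (Function.update g z j) p ≤ eta ∧
    fld dp eta 1 id (Function.update g z (j + 1)) p -
        fld dp eta 1 id (Function.update g z j) p ≤
      fld dp eta 1 id (Function.update g z (j + 2)) p -
        fld dp eta 1 id (Function.update g z (j + 1)) p ∧
    (Sel dp eta 1 id (Function.update g z j) p z →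
      Sel dp eta 1 id (Function.update g z (j + 1)) p z ∧
      fld dp eta 1 id (Function.update g z (j + 1)) p -
        fld dp eta 1 id (Function.update g z j) p = eta) ∧
    (¬ Sel dp eta 1 id (Function.update g z (j + 1)) p z →
      fld dp eta 1 id (Function.update g z (j + 1)) p -
        fld dp eta 1 id (Function.update g z j) p = 0)

private theorem le_fld' {X : Type} [Fintype X] [Nonempty X] (dp : X → X → ℝ) (eta : ℝ)
    (g : X → ℕ) (p x : X) : eta * (g x : ℝ) - 1 * dp p x ≤ fld dp eta 1 id g p := by
  unfold fld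
  exact Finset.le_sup' (fun x => eta * (g (id x) : ℝ) - 1 * dp p x) (Finset.mem_univ x)

private theorem ex_fld' {X : Type} [Fintype X] [Nonempty X] (dp : X → X → ℝ) (eta : ℝ)
    (g : X → ℕ) (p : X) : ∃ x, fld dp eta 1 id g p = eta * (g x : ℝ) - 1 * dp p x := by
  obtain ⟨x, -, hx⟩ := Finset.exists_mem_eq_sup' (s := (Finset.univ : Finset X))
    Finset.univ_nonempty (fun x => eta * (g (id x) : ℝ) - 1 * dp p x)
  exact ⟨x, hx⟩

theorem owFP : OwFProp := by
  intro X _ _ _ dp eta g z p j hpm heta
  have hf := ((field X dp eta 1 id g hpm heta.le zero_le_one).2.2 z j p)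
  refine ⟨hf.1, hf.2.1, hf.2.2, fun h => ?_, fun h => ?_⟩
  · exact (selP X dp eta 1 id g p hpm heta one_pos).2.2.1 z j h
  · by_contra hne
    apply h
    have hlt : fld dp eta 1 id (Function.update g z j) p <
        fld dp eta 1 id (Function.update g z (j + 1)) p := by
      rcases hf.1.lt_or_eq with h1 | h1
      · linarith
      · exact absurd h1.symm hne
    have hoth : ∀ x, x ≠ z → eta * ((Function.update g z (j + 1) x : ℕ) : ℝ) - 1 * dp p x ≤
        fld dp eta 1 id (Function.update g z j) p := by
      intro x hx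
      have h1 := le_fld' dp eta (Function.update g z j) p x
      rw [Function.update_of_ne hx] at h1 ⊢
      exact h1
    have hz : fld dp eta 1 id (Function.update g z (j + 1)) p =
        eta * ((Function.update g z (j + 1) z : ℕ) : ℝ) - 1 * dp p z := by
      obtain ⟨x, hx⟩ := ex_fld' dp eta (Function.update g z (j + 1)) p
      by_cases hxz : x = z
      · rw [hx, hxz]
      · have h1 := hoth x hxz
        rw [← hx] at h1
        exact absurd h1 (not_le.2 hlt)
    refine ⟨z, rfl, fun x' => ?_⟩
    by_cases hx : x' = z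
    · right
      rw [hx]
      exact ⟨rfl, le_rfl⟩
    · left
      have h1 := hoth x' hx
      show eta * ((Function.update g z (j + 1) x' : ℕ) : ℝ) - 1 * dp p x' <
        eta * ((Function.update g z (j + 1) z : ℕ) : ℝ) - 1 * dp p z
      rw [← hz]
      exact h1.trans_lt hlt

/-- every point has exactly one owner -/
theorem sel_ex {X : Type} [Fintype X] [DecidableEq X] [Nonempty X] {dp : X → X → ℝ} {eta : ℝ}
    (hpm : PM dp) (heta : 0 < eta) (g : X → ℕ) (p : X) : ∃ z, Sel dp eta 1 id g p z :=
  (selP X dp eta 1 id g p hpm heta one_pos).1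

theorem sel_un {X : Type} [Fintype X] [DecidableEq X] [Nonempty X] {dp : X → X → ℝ} {eta : ℝ}
    (hpm : PM dp) (heta : 0 < eta) {g : X → ℕ} {p z1 z2 : X} (h1 : Sel dp eta 1 id g p z1)
    (h2 : Sel dp eta 1 id g p z2) : z1 = z2 :=
  (selP X dp eta 1 id g p hpm heta one_pos).2.1 z1 z2 h1 h2

end Pool.Agent.AM
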