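import Pool.Agent.Lib.AM.SpecA

set_option linter.all false

/-!
# AM, file A/Tw: the truncated geometric weights
-/

namespace Pool.Agent.AM

open Finset Pool.Agent.MP_a4c1f4_lc

private theorem Tw_exp24 : Real.exp (-24 : ℝ) ≤ 1 / 1000 := by
  have h1 : (2 : ℝ) ≤ Real.exp 1 := by
    have := Real.add_one_le_exp (1 : ℝ)
    linarith
  have h2 : Real.exp 24 = Real.exp 1 ^ 24 := by
    rw [← Real.exp_nat_mul]
    norm_num
  have h3 : (1000 : ℝ) ≤ Real.exp 24 := by
    rw [h2]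
    calc (1000 : ℝ) ≤ 2 ^ 24 := by norm_num
      _ ≤ Real.exp 1 ^ 24 := pow_le_pow_left₀ (by norm_num) h1 24
  rw [Real.exp_neg, ← one_div]
  exact one_div_le_one_div_of_le (by norm_num) h3

theorem twP : TwProp := by
  intro Lam N hL hN
  have hL0 : 0 < Lam := by linarith
  have hN0 : (0 : ℝ) < N := by
    have : 0 < Lam ^ 2 := by positivity
    linarith
  have ht0 : 0 < Lam / (N : ℝ) := div_pos hL0 hN0
  have ht1 : Lam / (N : ℝ) ≤ 1 / 24 := by
    rw [div_le_div_iff₀ hN0 (by norm_num)]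
    nlinarith
  have hq : qN Lam N = 1 - Lam / (N : ℝ) := rfl
  have hq0 : 0 < qN Lam N := by rw [hq]; linarith
  have hq1 : qN Lam N ≤ 1 := by rw [hq]; linarith
  have hqN : qN Lam N ^ N ≤ Real.exp (-Lam) := by
    have h1 : qN Lam N ≤ Real.exp (-(Lam / (N : ℝ))) := by
      rw [hq]
      exact Real.one_sub_le_exp_neg _
    calc qN Lam N ^ N ≤ Real.exp (-(Lam / (N : ℝ))) ^ N := pow_le_pow_left₀ hq0.le h1 N
      _ = Real.exp (-Lam) := by
        rw [← Real.exp_nat_mul]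
        congr 1
        field_simp
  have he : Real.exp (-Lam) ≤ 1 / 1000 :=
    le_trans (Real.exp_le_exp.mpr (by linarith)) Tw_exp24
  have hden : 999 / 1000 ≤ 1 - qN Lam N ^ N := by linarith
  have hden0 : 0 < 1 - qN Lam N ^ N := by linarith
  have h1q : 1 - qN Lam N = Lam / (N : ℝ) := by rw [hq]; ring
  have hnn : ∀ j, 0 ≤ tw Lam N j := by
    intro j
    unfold tw
    rw [h1q]
    positivity
  refine ⟨ht0, ht1, hq0, hq1, hqN, he, hnn, ?_, ?_, ?_⟩
  · intro j
    unfold tw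
    rw [h1q, div_le_iff₀ hden0]
    have h2 : qN Lam N ^ j ≤ 1 := pow_le_one₀ hq0.le hq1
    have h3 : Lam / (N : ℝ) * qN Lam N ^ j ≤ Lam / (N : ℝ) := mul_le_of_le_one_right ht0.le h2
    have h4 : 1.01 * (Lam / (N : ℝ)) * (999 / 1000) ≤
        1.01 * (Lam / (N : ℝ)) * (1 - qN Lam N ^ N) :=
      mul_le_mul_of_nonneg_left hden (by positivity)
    have h5 : Lam / (N : ℝ) ≤ 1.01 * (Lam / (N : ℝ)) * (999 / 1000) := by
      nlinarith
    linarith
  · intro j j' hj
    unfold tw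
    rw [h1q]
    apply div_le_div_of_nonneg_right _ hden0.le
    exact mul_le_mul_of_nonneg_left (pow_le_pow_of_le_one hq0.le hq1 hj) ht0.le
  · unfold tw
    rw [← Finset.sum_div, ← Finset.mul_sum, mul_neg_geom_sum, div_self hden0.ne']

end Pool.Agent.AM
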