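import Pool.Agent.Lib.AM.SpecA

set_option linter.all false

/-!
AM, part A: one step upwards of a one-parameter family of potentials.
-/

namespace Pool.Agent.AM

open Finset Pool.Agent.MP_a4c1f4_lc

private theorem Up_neg {T : Type} (f : T → ℝ) (l : List T) :
    (l.map (fun s => -f s)).sum = -(l.map f).sum := by
  induction l with
  | nil => simp
  | cons a l ih =>
    rw [List.map_cons, List.map_cons, List.sum_cons, List.sum_cons, ih]
    ring

theorem upP (hU : UsedProp) (hP : Pool.Agent.MP_a4c1f4_lc.PotProp) : UpProp := by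
  intro T _ _ _ c δ x l j hc hδ
  have e1 : (fun r s => c j r s + δ j r - δ j s) = c (j + 1) := by
    funext r s
    rw [hc r s]
  have e2 : (fun r s => c (j + 1) r s + -δ j r - -δ j s) = c j := by
    funext r s
    rw [hc r s]
    ring
  have h3 : ∑ s ∈ used (c (j + 1)) l, δ j s ≤ ∑ s ∈ used (c (j + 1)) l, δ (j + 1) s :=
    sum_le_sum fun s _ => hδ s
  have key : l.length ≤ Fintype.card T →
      optv (c j) l ≤ optv (c (j + 1)) l - (l.map (δ j)).sum +
        ∑ s ∈ used (c (j + 1)) l, δ j s := by
    intro hlen
    have u1 := (hU T (c (j + 1)) l).1 hlen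
    have p1 := hP T (c (j + 1)) (fun s => -δ j s) l _ u1
    rw [e2, Up_neg, sum_neg_distrib] at p1
    linarith
  constructor
  · intro hlen
    have k1 := key (by omega)
    have u2 := (hU T (c j) l).2 x hlen
    have p2 := hP T (c j) (δ j) (x :: l) _ u2.2
    rw [e1, List.map_cons, List.sum_cons, sum_insert u2.1] at p2
    have h4 : δ j (srv (c j) x l) = δ j (pick (c j) x l (used (c j) l)) := rfl
    linarith
  · intro hlen
    have k1 := key hlen
    linarith

end Pool.Agent.AM
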